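import Mathlib

set_option autoImplicit false

open Set
open scoped symmDiff

namespace Pool.Agent.Lib.MP_446da5_lc.Full

universe u v

section BA

variable {B : Type u} [CompleteBooleanAlgebra B]

lemma le_bi_iff' {p a b : B} : p ≤ a ⇔ b ↔ p ⊓ a ≤ b ∧ p ⊓ b ≤ a := by
  rw [le_bihimp_iff, inf_comm b, inf_comm a, and_comm]

lemma le_bi_iff {p a b : B} : p ≤ a ⇔ b ↔ p ⊓ a = p ⊓ b := by
  rw [le_bi_iff']
  constructor
  · rintro ⟨h1, h2⟩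
    exact le_antisymm (le_inf inf_le_left h1) (le_inf inf_le_left h2)
  · intro h
    exact ⟨h ▸ inf_le_right, h.symm ▸ inf_le_right⟩

lemma bi_symm {p a b : B} (h : p ≤ a ⇔ b) : p ≤ b ⇔ a := by rwa [bihimp_comm]

lemma bi_trans {p a b c : B} (h : p ≤ a ⇔ b) (h' : p ≤ b ⇔ c) : p ≤ a ⇔ c :=
  le_bi_iff.2 ((le_bi_iff.1 h).trans (le_bi_iff.1 h'))

lemma bi_refl {p a : B} : p ≤ a ⇔ a := le_bi_iff.2 rfl

lemma eq_bot_of_le_compl {p a : B} (h : p ≤ a) (h' : p ≤ aᶜ) : p = ⊥ :=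
  le_bot_iff.1 ((le_inf h h').trans (by simp))

lemma exists_inf_ne_bot {K : Sort*} {p : B} {b : K → B} (hp : p ≠ ⊥) (h : p ≤ ⨆ k, b k) :
    ∃ k, p ⊓ b k ≠ ⊥ := by
  by_contra hn
  push Not at hn
  apply hp
  rw [← inf_eq_left.2 h, inf_iSup_eq]
  simp [hn]

lemma inf_compl_ne_bot {p a : B} (h : ¬ p ≤ a) : p ⊓ aᶜ ≠ ⊥ := fun h' =>
  h (disjoint_compl_right_iff.1 (disjoint_iff.2 h'))

lemma exists_antichain {Y : Type v} [Nonempty Y] (R : B → Y → Prop)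
    (hR : ∀ p ≠ ⊥, ∃ p' ≤ p, p' ≠ ⊥ ∧ ∃ y, R p' y) :
    ∃ (A : Set B) (y : B → Y), (∀ p ∈ A, R p (y p)) ∧ A.Pairwise Disjoint ∧
      ∀ X Z : B, (∀ p ∈ A, p ⊓ X ≤ Z) → X ≤ Z := by
  obtain ⟨A, hA⟩ := zorn_subset {A : Set B | (∀ p ∈ A, ∃ y, R p y) ∧ A.Pairwise Disjoint} (by
    intro c hc hch
    refine ⟨⋃₀ c, ⟨?_, ?_⟩, fun s hs => subset_sUnion_of_mem hs⟩
    · rintro p ⟨s, hs, hp⟩
      exact (hc hs).1 p hp
    · rintro p ⟨s, hs, hp⟩ q ⟨t, ht, hq⟩ hpq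
      rcases hch.total hs ht with h | h
      · exact (hc ht).2 (h hp) hq hpq
      · exact (hc hs).2 hp (h hq) hpq)
  choose! y hy using hA.prop.1
  refine ⟨A, y, hy, hA.prop.2, fun X Z h => ?_⟩
  have htop : sSup A = ⊤ := by
    by_contra hne
    obtain ⟨p, hp, hp0, z, hz⟩ := hR (sSup A)ᶜ (by simpa using hne)
    have hd : ∀ q ∈ A, Disjoint p q := fun q hq =>
      (le_compl_iff_disjoint_right.1 hp).mono_right (le_sSup hq)
    have hmem : insert p A ⊆ A := by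
      refine hA.le_of_ge ⟨?_, ?_⟩ (subset_insert _ _)
      · rintro q (rfl | hq)
        · exact ⟨z, hz⟩
        · exact ⟨_, hy q hq⟩
      · exact hA.prop.2.insert fun q hq _ => ⟨hd q hq, (hd q hq).symm⟩
    exact hp0 (disjoint_self.1 (hd p (hmem (mem_insert _ _))))
  rw [← top_inf_eq X, ← htop, sSup_inf_eq]
  exact iSup₂_le h

lemma inf_mix {A : Set B} (hA : A.Pairwise Disjoint) (f : B → B) {p : B} (hp : p ∈ A) :
    p ⊓ (⨆ q ∈ A, q ⊓ f q) = p ⊓ f p := by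
  apply le_antisymm
  · rw [inf_iSup₂_eq]
    refine iSup₂_le fun q hq => ?_
    by_cases h : p = q
    · subst h; exact inf_le_right
    · rw [← inf_assoc, (hA hp hq h).eq_bot, bot_inf_eq]; exact bot_le
  · exact le_inf inf_le_left (le_iSup₂_of_le p hp le_rfl)

end BA

lemma exists_fix {Γ : Type u} [LinearOrder Γ] [WellFoundedLT Γ] {Y : Type v}
    (F : Γ → (Γ → Y) → Y) (d : Y) :
    ∃ g : Γ → Y, ∀ ξ, g ξ = F ξ (fun ζ => if ζ < ξ then g ζ else d) := by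
  refine ⟨(wellFounded_lt (α := Γ)).fix
    (fun ξ rec => F ξ (fun ζ => if h : ζ < ξ then rec ζ h else d)), fun ξ => ?_⟩
  rw [WellFounded.fix_eq]
  simp only [dite_eq_ite]

variable {B : Type u} [CompleteBooleanAlgebra B] {Γ : Type u} [LinearOrder Γ] {K : Type u}

/-- Boolean value of: `x` survives all rounds. -/
noncomputable def FF (S : (Γ → K → B) → Γ → B) (a : Γ → K → B) (x : K) : B :=
  ⨅ ζ, a ζ x ⇔ S a ζ

/-- Boolean value of: `x` survives the rounds up to `ξ`. -/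
noncomputable def CC (S : (Γ → K → B) → Γ → B) (a : Γ → K → B) (ξ : Γ) (x : K) : B :=
  ⨅ (ζ : Γ) (_ : ζ ≤ ξ), a ζ x ⇔ S a ζ

noncomputable def bad (S : (Γ → K → B) → Γ → B) (a : Γ → K → B) : B :=
  (⨆ x, FF S a x)ᶜ ⊔ ⨆ k : Γ × K, CC S a k.1 k.2 ⊓ (⨆ (y : K) (_ : y ≠ k.2), CC S a k.1 y)ᶜ

omit [LinearOrder Γ] in
lemma FF_le {S : (Γ → K → B) → Γ → B} (a : Γ → K → B) (x : K) (ζ : Γ) :
    FF S a x ≤ a ζ x ⇔ S a ζ := iInf_le _ ζ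

lemma CC_le {S : (Γ → K → B) → Γ → B} (a : Γ → K → B) (x : K) {ζ ξ : Γ} (h : ζ ≤ ξ) :
    CC S a ξ x ≤ a ζ x ⇔ S a ζ := iInf₂_le ζ h

structure Pos (B : Type u) [CompleteBooleanAlgebra B] (Γ : Type u) [LinearOrder Γ]
    (K : Type u) where
  a : Γ → K → B
  m : Γ → B
  anti : Antitone m
  bdd : ⨅ ζ, m ζ = ⊥

def Pos.Ext (P Q : Pos B Γ K) : Prop :=
  (∀ ζ, P.m ζ ≤ Q.m ζ) ∧ ∀ ζ x, P.m ζ ≤ P.a ζ x ⇔ Q.a ζ x

lemma Pos.Ext.refl (P : Pos B Γ K) : P.Ext P := ⟨fun _ => le_rfl, fun _ _ => bi_refl⟩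

lemma Pos.Ext.trans {P Q R : Pos B Γ K} (h : P.Ext Q) (h' : Q.Ext R) : P.Ext R :=
  ⟨fun ζ => (h.1 ζ).trans (h'.1 ζ), fun ζ x => bi_trans (h.2 ζ x) ((h.1 ζ).trans (h'.2 ζ x))⟩

noncomputable def Pos.D (S : (Γ → K → B) → Γ → B) (P : Pos B Γ K) (x : K) : B :=
  ⨅ ζ, P.m ζ ⇨ (P.a ζ x ⇔ S P.a ζ)

def Local (S : (Γ → K → B) → Γ → B) : Prop :=
  ∀ (a a' : Γ → K → B) (ξ : Γ) (b : B), (∀ ζ ≤ ξ, ∀ x, b ≤ a ζ x ⇔ a' ζ x) → b ≤ S a ξ ⇔ S a' ξ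

def Distrib (B : Type u) [CompleteBooleanAlgebra B] (Γ : Type u) [LinearOrder Γ] : Prop :=
  ∀ (ξ : Γ) (E : Γ → B → Prop), (∀ ζ, ∀ b ≠ ⊥, ∃ b' ≤ b, b' ≠ ⊥ ∧ E ζ b') →
    (∀ ζ b b', b' ≤ b → E ζ b → E ζ b') → ∀ b ≠ ⊥, ∃ b' ≤ b, b' ≠ ⊥ ∧ ∀ ζ ≤ ξ, E ζ b'

def Bdd (Γ : Type u) [LinearOrder Γ] : Prop :=
  ∀ (ξ : Γ) (f : Γ → Γ), ∃ δ, ∀ ζ ≤ ξ, f ζ < δ

section main

variable {S : (Γ → K → B) → Γ → B} {b0 : B} {L : Type u} {c : L → Γ → B} {e : K → L}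

lemma local_split [NoMaxOrder Γ] (he : Function.Injective e)
    (hc : ∀ l l', l ≠ l' → ∀ δ, ⨅ (ζ : Γ) (_ : δ < ζ), c l ζ ⇔ c l' ζ = ⊥)
    (W1 : ∀ a, b0 ≤ ⨆ x, FF S a x)
    (W2 : ∀ a ξ x, b0 ⊓ CC S a ξ x ≤ ⨆ (y : K) (_ : y ≠ x), CC S a ξ y)
    {p : B} (hp : p ≠ ⊥) (a : Γ → K → B) (δ : Γ) :
    ∃ p' ≤ p, p' ≠ ⊥ ∧ ∃ (a0 a1 : Γ → K → B) (δ' : Γ), δ < δ' ∧
      (∀ ζ < δ, a0 ζ = a ζ ∧ a1 ζ = a ζ) ∧
      ∀ x, p' ⊓ (b0 ⊓ CC S a0 δ' x ⊓ CC S a1 δ' x) = ⊥ := by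
  classical
  by_cases h0 : p ⊓ b0 = ⊥
  · obtain ⟨δ', hδ⟩ := exists_gt δ
    refine ⟨p, le_rfl, hp, a, a, δ', hδ, fun _ _ => ⟨rfl, rfl⟩, fun x => ?_⟩
    rw [← le_bot_iff, ← h0]
    exact inf_le_inf_left _ (inf_le_left.trans inf_le_left)
  let a0 : Γ → K → B := fun ζ x => if δ < ζ then c (e x) ζ else a ζ x
  obtain ⟨x0, h1⟩ := exists_inf_ne_bot h0 (inf_le_right.trans (W1 a0))
  let a1 : Γ → K → B := fun ζ x => if δ < ζ then c (e x) ζ else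
    if ζ = δ then (if x = x0 then ⊤ else ⊥) else a ζ x
  obtain ⟨y, h2⟩ := exists_inf_ne_bot h1 ((inf_le_left.trans inf_le_right).trans (W1 a1))
  set p2 := p ⊓ b0 ⊓ FF S a0 x0 ⊓ FF S a1 y with hp2
  have hy : x0 ≠ y := by
    rintro rfl
    have h3 : p2 ≤ S a1 δ := by
      have := (inf_le_right : p2 ≤ _).trans (FF_le a1 x0 δ)
      simpa [a1] using this
    have h4 : p2 ≤ b0 ⊓ CC S a1 δ x0 :=
      le_inf ((inf_le_left.trans inf_le_left).trans inf_le_right)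
        (le_iInf₂ fun ζ _ => (inf_le_right : p2 ≤ _).trans (FF_le a1 x0 ζ))
    obtain ⟨z, hz⟩ := exists_inf_ne_bot h2 (h4.trans (W2 a1 δ x0))
    obtain ⟨hzx, hz⟩ := exists_inf_ne_bot hz inf_le_right
    apply hz
    refine eq_bot_of_le_compl ((inf_le_left.trans inf_le_left).trans h3) (inf_le_right.trans ?_)
    have := CC_le (S := S) a1 z (le_refl δ)
    simpa [a1, hzx] using this
  have h3 : ¬ p2 ≤ ⨅ (ζ : Γ) (_ : δ < ζ), c (e x0) ζ ⇔ c (e y) ζ := by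
    rw [hc _ _ (he.ne hy), le_bot_iff]; exact h2
  simp only [le_iInf_iff, not_forall] at h3
  obtain ⟨ζ, hζ, h3⟩ := h3
  refine ⟨_, inf_le_left.trans ((inf_le_left.trans inf_le_left).trans inf_le_left),
    inf_compl_ne_bot h3, a0, a1, ζ, hζ, fun η hη => ?_, fun x => ?_⟩
  · constructor <;> ext x <;> simp [a0, a1, hη.not_gt, hη.ne]
  · refine eq_bot_of_le_compl ?_ (inf_le_left.trans inf_le_right)
    set q := p2 ⊓ (c (e x0) ζ ⇔ c (e y) ζ)ᶜ ⊓ (b0 ⊓ CC S a0 ζ x ⊓ CC S a1 ζ x)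
    have hq2 : q ≤ p2 := inf_le_left.trans inf_le_left
    have e0 : ∀ z, a0 ζ z = c (e z) ζ := fun z => if_pos hζ
    have e1 : ∀ z, a1 ζ z = c (e z) ζ := fun z => if_pos hζ
    have k1 : q ≤ c (e x) ζ ⇔ S a0 ζ := e0 x ▸
      ((inf_le_right.trans inf_le_left).trans inf_le_right : q ≤ _).trans (CC_le a0 x (le_refl ζ))
    have k2 : q ≤ c (e x) ζ ⇔ S a1 ζ := e1 x ▸
      (inf_le_right.trans inf_le_right : q ≤ _).trans (CC_le a1 x (le_refl ζ))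
    have k3 : q ≤ c (e x0) ζ ⇔ S a0 ζ := e0 x0 ▸
      (hq2.trans (inf_le_left.trans inf_le_right)).trans (FF_le a0 x0 ζ)
    have k4 : q ≤ c (e y) ζ ⇔ S a1 ζ := e1 y ▸
      (hq2.trans inf_le_right).trans (FF_le a1 y ζ)
    exact bi_trans (bi_trans k3 (bi_symm k1)) (bi_trans k2 (bi_symm k4))

lemma global_split [NoMaxOrder Γ] (hS : Local S) (he : Function.Injective e)
    (hc : ∀ l l', l ≠ l' → ∀ δ, ⨅ (ζ : Γ) (_ : δ < ζ), c l ζ ⇔ c l' ζ = ⊥)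
    (W1 : ∀ a, b0 ≤ ⨆ x, FF S a x)
    (W2 : ∀ a ξ x, b0 ⊓ CC S a ξ x ≤ ⨆ (y : K) (_ : y ≠ x), CC S a ξ y)
    (P : Pos B Γ K) (ξ : Γ) :
    ∃ Q : Bool → Pos B Γ K, (∀ ε, P.Ext (Q ε) ∧ (Q ε).m ξ = ⊤) ∧
      ∀ x, b0 ⊓ (Q true).D S x ⊓ (Q false).D S x = ⊥ := by
  classical
  have : Nonempty ((Bool → Γ → K → B) × Γ × Γ) := ⟨(fun _ => P.a, ξ, ξ)⟩
  obtain ⟨A, y, hy, hA, hon⟩ := exists_antichain
    (fun (p : B) (t : (Bool → Γ → K → B) × Γ × Γ) => p ≤ (P.m t.2.1)ᶜ ∧ ξ ≤ t.2.1 ∧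
      t.2.1 < t.2.2 ∧ (∀ ε, ∀ ζ < t.2.1, t.1 ε ζ = P.a ζ) ∧
      ∀ x, p ⊓ (b0 ⊓ CC S (t.1 true) t.2.2 x ⊓ CC S (t.1 false) t.2.2 x) = ⊥) (by
    intro p hp
    have h1 : ¬ p ≤ ⨅ ζ, P.m ζ := by rw [P.bdd, le_bot_iff]; exact hp
    simp only [le_iInf_iff, not_forall] at h1
    obtain ⟨δ0, h1⟩ := h1
    obtain ⟨p', hp', hp0, a0, a1, δ', h2, h3, h4⟩ :=
      local_split he hc W1 W2 (inf_compl_ne_bot h1) P.a (max δ0 ξ)
    refine ⟨p', hp'.trans inf_le_left, hp0, (fun ε => bif ε then a0 else a1, max δ0 ξ, δ'),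
      (hp'.trans inf_le_right).trans (compl_le_compl (P.anti (le_max_left _ _))),
      le_max_right _ _, h2, ?_, h4⟩
    rintro (_ | _) ζ hζ
    · exact (h3 ζ hζ).2
    · exact (h3 ζ hζ).1)
  let m : Γ → B := fun ζ => ⨆ q ∈ A, q ⊓ (if ζ ≤ (y q).2.2 then ⊤ else ⊥)
  have hm : ∀ p ∈ A, ∀ ζ, ζ ≤ (y p).2.2 → p ≤ m ζ := fun p hp ζ h =>
    le_iSup₂_of_le p hp (by simp [h])
  let Q : Bool → Pos B Γ K := fun ε =>
    { a := fun ζ x => ⨆ q ∈ A, q ⊓ (y q).1 ε ζ x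
      m := m
      anti := fun ζ ζ' h => iSup₂_mono fun q _ => inf_le_inf_left _ (by
        by_cases h' : ζ' ≤ (y q).2.2
        · simp [h', h.trans h']
        · simp [h'])
      bdd := le_bot_iff.1 (hon _ _ fun p hp => by
        obtain ⟨ζ, hζ⟩ := exists_gt (y p).2.2
        refine (inf_le_inf_left _ (iInf_le _ ζ)).trans ?_
        simp only [m]
        rw [inf_mix hA (fun q => if ζ ≤ (y q).2.2 then ⊤ else ⊥) hp]
        simp [hζ.not_ge]) }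
  have ha : ∀ p ∈ A, ∀ ε ζ x, p ≤ (Q ε).a ζ x ⇔ (y p).1 ε ζ x := fun p hp ε ζ x =>
    le_bi_iff.2 (inf_mix hA (fun q => (y q).1 ε ζ x) hp)
  have hz : ∀ p ∈ A, ∀ ζ, ¬ ζ < (y p).2.1 → p ⊓ P.m ζ = ⊥ := fun p hp ζ h =>
    eq_bot_of_le_compl (inf_le_right.trans (P.anti (not_lt.1 h))) (inf_le_left.trans (hy p hp).1)
  have hD : ∀ p ∈ A, ∀ ε x, p ⊓ (Q ε).D S x ≤ CC S ((y p).1 ε) (y p).2.2 x := by
    intro p hp ε x
    refine le_iInf₂ fun ζ hζ => ?_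
    have k1 : p ⊓ (Q ε).D S x ≤ (Q ε).a ζ x ⇔ S (Q ε).a ζ :=
      (le_inf (inf_le_right.trans (iInf_le _ ζ)) (inf_le_left.trans (hm p hp ζ hζ))).trans
        himp_inf_le
    exact bi_trans (bi_symm (inf_le_left.trans (ha p hp ε ζ x))) (bi_trans k1
      (inf_le_left.trans (hS _ _ ζ p fun η _ z => ha p hp ε η z)))
  refine ⟨Q, fun ε => ⟨⟨fun ζ => hon _ _ fun p hp => ?_, fun ζ x => hon _ _ fun p hp => ?_⟩,
    top_le_iff.1 (hon _ _ fun p hp => ?_)⟩, fun x => le_bot_iff.1 (hon _ _ fun p hp => ?_)⟩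
  · by_cases h : ζ < (y p).2.1
    · exact inf_le_left.trans (hm p hp ζ (h.trans (hy p hp).2.2.1).le)
    · rw [hz p hp ζ h]; exact bot_le
  · by_cases h : ζ < (y p).2.1
    · rw [← (hy p hp).2.2.2.1 ε ζ h]
      exact inf_le_left.trans (bi_symm (ha p hp ε ζ x))
    · rw [hz p hp ζ h]; exact bot_le
  · exact inf_le_left.trans (hm p hp ξ ((hy p hp).2.1.trans (hy p hp).2.2.1.le))
  · rw [← (hy p hp).2.2.2.2 x]
    refine le_inf inf_le_left (le_inf (le_inf ((inf_le_right.trans inf_le_left).trans inf_le_left)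
      (le_trans ?_ (hD p hp true x))) (le_trans ?_ (hD p hp false x)))
    · exact inf_le_inf_left _ (inf_le_left.trans inf_le_right)
    · exact inf_le_inf_left _ inf_le_right

lemma exists_union (hd : Distrib B Γ) (hb : Bdd Γ) (ξ : Γ) (f : Γ → Pos B Γ K)
    (hf : ∀ ζ ζ', ζ ≤ ζ' → ζ' < ξ → (f ζ).Ext (f ζ')) :
    ∃ U : Pos B Γ K, ∀ ζ < ξ, (f ζ).Ext U := by
  refine ⟨⟨fun η x => ⨆ (ζ : Γ) (_ : ζ < ξ), (f ζ).m η ⊓ (f ζ).a η x,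
    fun η => ⨆ (ζ : Γ) (_ : ζ < ξ), (f ζ).m η,
    fun η η' h => iSup₂_mono fun ζ _ => (f ζ).anti h, ?_⟩, fun ζ hζ => ⟨fun η => ?_, ?_⟩⟩
  · by_contra hne
    obtain ⟨b, hb1, hb0, hE⟩ := hd ξ (fun ζ b => ∃ δ, b ≤ ((f ζ).m δ)ᶜ) (fun ζ b hb => by
      have h1 : ¬ b ≤ ⨅ δ, (f ζ).m δ := by rw [(f ζ).bdd, le_bot_iff]; exact hb
      simp only [le_iInf_iff, not_forall] at h1
      obtain ⟨δ, h1⟩ := h1
      exact ⟨_, inf_le_left, inf_compl_ne_bot h1, δ, inf_le_right⟩)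
      (fun _ _ _ h ⟨δ, h'⟩ => ⟨δ, h.trans h'⟩) _ hne
    have : Nonempty Γ := ⟨ξ⟩
    choose! g hg using hE
    obtain ⟨δ, hδ⟩ := hb ξ g
    refine hb0 (eq_bot_of_le_compl (hb1.trans (iInf_le _ δ)) ?_)
    simp only [compl_iSup, le_iInf_iff]
    exact fun ζ hζ => (hg ζ hζ.le).trans (compl_le_compl ((f ζ).anti (hδ ζ hζ.le).le))
  · exact le_iSup₂_of_le (f := fun (ζ : Γ) (_ : ζ < ξ) => (f ζ).m η) ζ hζ le_rfl
  · intro η x
    rw [le_bi_iff']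
    refine ⟨le_iSup₂_of_le (f := fun (ζ : Γ) (_ : ζ < ξ) => (f ζ).m η ⊓ (f ζ).a η x) ζ hζ le_rfl,
      ?_⟩
    simp only
    rw [inf_iSup₂_eq]
    refine iSup₂_le fun ζ' hζ' => ?_
    rcases le_total ζ ζ' with h | h
    · exact (inf_le_inf_left _ inf_le_right).trans (le_bi_iff'.1 ((hf ζ ζ' h hζ').2 η x)).2
    · exact inf_le_right.trans (le_bi_iff'.1 ((hf ζ' ζ h hζ).2 η x)).1

lemma FF_le_D (hS : Local S) (P : Pos B Γ K) (a' : Γ → K → B) (p : B)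
    (h : ∀ ζ x, p ⊓ P.m ζ ≤ P.a ζ x ⇔ a' ζ x) (x : K) : p ⊓ FF S a' x ≤ P.D S x := by
  refine le_iInf fun ζ => le_himp_iff.2 ?_
  have k0 : p ⊓ FF S a' x ⊓ P.m ζ ≤ p ⊓ P.m ζ := inf_le_inf_right _ inf_le_left
  refine bi_trans (k0.trans (h ζ x)) (bi_trans
    ((inf_le_left.trans inf_le_right).trans (FF_le a' x ζ)) (bi_symm (k0.trans ?_)))
  exact hS _ _ ζ _ fun η hη z => (inf_le_inf_left _ (P.anti hη)).trans (h η z)

theorem iSup_bad [NoMaxOrder Γ] [WellFoundedLT Γ] [Nonempty Γ] (hS : Local S)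
    (hd : Distrib B Γ) (hb : Bdd Γ) (he : Function.Injective e)
    (hc : ∀ l l', l ≠ l' → ∀ δ, ⨅ (ζ : Γ) (_ : δ < ζ), c l ζ ⇔ c l' ζ = ⊥)
    (hph : ∀ (f : L → K) (p : L → B), (∀ l, p l ≠ ⊥) →
      ∃ l l', l ≠ l' ∧ f l = f l' ∧ p l ⊓ p l' ≠ ⊥) :
    ⨆ a, bad S a = ⊤ := by
  classical
  by_contra hne
  set b0 := (⨆ a, bad S a)ᶜ with hb0
  have h0 : b0 ≠ ⊥ := by simpa [hb0] using hne
  have hbad : ∀ a, b0 ≤ (bad S a)ᶜ := fun a => compl_le_compl (le_iSup _ a)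
  have W1 : ∀ a, b0 ≤ ⨆ x, FF S a x := fun a => by
    have := (hbad a).trans (compl_le_compl le_sup_left)
    rwa [compl_compl] at this
  have W2 : ∀ a ξ x, b0 ⊓ CC S a ξ x ≤ ⨆ (y : K) (_ : y ≠ x), CC S a ξ y := fun a ξ x => by
    by_contra hn
    refine inf_compl_ne_bot hn (eq_bot_of_le_compl (a := bad S a) ?_
      ((inf_le_left.trans inf_le_left).trans (hbad a)))
    refine le_sup_of_le_right (le_iSup_of_le (ξ, x) ?_)
    exact inf_le_inf_right _ inf_le_right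
  choose sp hsp1 hsp2 using global_split hS he hc W1 W2
  let P0 : Pos B Γ K := ⟨fun _ _ => ⊥, fun _ => ⊥, fun _ _ _ => le_rfl, by simp⟩
  have : Nonempty (Pos B Γ K) := ⟨P0⟩
  choose! un hun using exists_union (K := K) hd hb
  choose T hT using fun s : Γ → Bool =>
    exists_fix (fun ξ g => sp (un ξ g) ξ (s ξ)) P0
  have hchain : ∀ s ξ, ∀ ζ < ξ, (T s ζ).Ext (T s ξ) := by
    intro s ξ
    induction ξ using (wellFounded_lt (α := Γ)).induction with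
    | _ ξ ih =>
      intro ζ hζ
      have h1 := hun ξ (fun ζ => if ζ < ξ then T s ζ else P0) (fun η η' h h' => by
        simp only [h', h.trans_lt h', if_true]
        rcases h.eq_or_lt with rfl | h
        · exact Pos.Ext.refl _
        · exact ih η' h' η h) ζ hζ
      simp only [hζ, if_true] at h1
      rw [hT s ξ]
      exact h1.trans (hsp1 _ _ _).1
  have hchain' : ∀ s ξ, ∀ ζ ≤ ξ, (T s ζ).Ext (T s ξ) := fun s ξ ζ h => by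
    rcases h.eq_or_lt with rfl | h
    · exact Pos.Ext.refl _
    · exact hchain s ξ ζ h
  have hdep : ∀ s s' ξ, (∀ η ≤ ξ, s η = s' η) → T s ξ = T s' ξ := by
    intro s s' ξ
    induction ξ using (wellFounded_lt (α := Γ)).induction with
    | _ ξ ih =>
      intro h
      rw [hT s ξ, hT s' ξ, h ξ le_rfl]
      congr 2
      ext1 ζ
      by_cases hζ : ζ < ξ
      · simp only [hζ, if_true]
        exact ih ζ hζ fun η hη => h η (hη.trans hζ.le)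
      · simp only [hζ, if_false]
  have htop : ∀ s ξ, (T s ξ).m ξ = ⊤ := fun s ξ => by rw [hT s ξ]; exact (hsp1 _ _ _).2
  let w : L → (Γ → Bool) → Γ → B := fun l s ξ =>
    ⨅ (η : Γ) (_ : η ≤ ξ), c l η ⇔ (bif s η then ⊤ else ⊥)
  have w0 : ∀ l s ξ η, η ≤ ξ → w l s ξ ≤ c l η ⇔ (bif s η then ⊤ else ⊥) :=
    fun l s ξ η h => iInf₂_le η h
  have w1 : ∀ p ≠ ⊥, ∀ l ξ, ∃ s, p ⊓ w l s ξ ≠ ⊥ := by
    intro p hp l ξ
    obtain ⟨b, hb1, hb0, hE⟩ := hd ξ (fun η b => ∃ ε : Bool, b ≤ c l η ⇔ (bif ε then ⊤ else ⊥))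
      (fun η b hb => by
        by_cases h : b ≤ c l η
        · exact ⟨b, le_rfl, hb, true, by simpa using h⟩
        · exact ⟨_, inf_le_left, inf_compl_ne_bot h, false, by simp⟩)
      (fun _ _ _ h ⟨ε, h'⟩ => ⟨ε, h.trans h'⟩) p hp
    choose! s hs using hE
    exact ⟨s, fun h => hb0 (le_bot_iff.1 (h ▸ le_inf hb1 (le_iInf₂ hs)))⟩
  have wb : ∀ (q : B) (ε ε' : Bool), q ≠ ⊥ →
      q ≤ (bif ε then ⊤ else ⊥) ⇔ (bif ε' then ⊤ else ⊥) → ε = ε' := by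
    intro q ε ε' hq h
    cases ε <;> cases ε'
    · rfl
    · exact (hq (by simpa using h)).elim
    · exact (hq (by simpa using h)).elim
    · rfl
  have w2 : ∀ (q : B) l s s' ξ ξ', q ≠ ⊥ → q ≤ w l s ξ → q ≤ w l s' ξ' → ∀ η, η ≤ ξ → η ≤ ξ' →
      s η = s' η := fun q l s s' ξ ξ' hq h h' η hη hη' =>
    wb q _ _ hq (bi_trans (bi_symm (h.trans (w0 l s ξ η hη))) (h'.trans (w0 l s' ξ' η hη')))
  let al : L → Γ → K → B := fun l ζ x => ⨆ s, w l s ζ ⊓ (T s ζ).a ζ x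
  have A1 : ∀ l s ζ x, w l s ζ ≤ (T s ζ).a ζ x ⇔ al l ζ x := by
    intro l s ζ x
    rw [le_bi_iff']
    refine ⟨le_iSup_of_le s le_rfl, ?_⟩
    simp only [al]
    rw [inf_iSup_eq]
    refine iSup_le fun s' => ?_
    by_cases h : w l s ζ ⊓ w l s' ζ = ⊥
    · rw [← inf_assoc, h, bot_inf_eq]; exact bot_le
    · rw [hdep s s' ζ fun η hη => w2 _ l s s' ζ ζ h inf_le_left inf_le_right η hη hη]
      exact inf_le_right.trans inf_le_right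
  have A2 : ∀ l s ξ ζ x, w l s ξ ⊓ (T s ξ).m ζ ≤ (T s ξ).a ζ x ⇔ al l ζ x := by
    intro l s ξ ζ x
    rcases le_or_gt ζ ξ with h | h
    · have h1 := (hchain' s ξ ζ h).2 ζ x
      rw [htop] at h1
      refine bi_trans (bi_symm (le_top.trans h1)) (inf_le_left.trans (le_trans ?_ (A1 l s ζ x)))
      exact le_iInf₂ fun η hη => w0 l s ξ η (hη.trans h)
    · by_contra hn
      obtain ⟨s', hs'⟩ := w1 _ (inf_compl_ne_bot hn) l ζ
      have h1 := hdep s s' ξ fun η hη => w2 _ l s s' ξ ζ hs'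
        ((inf_le_left.trans inf_le_left).trans inf_le_left) inf_le_right η hη (hη.trans h.le)
      refine hs' (eq_bot_of_le_compl ?_ (inf_le_left.trans inf_le_right))
      refine bi_trans ?_ (inf_le_right.trans (A1 l s' ζ x))
      rw [h1]
      exact ((inf_le_left.trans inf_le_left).trans inf_le_right).trans
        ((hchain s' ζ ξ h).2 ζ x)
  choose xl hxl using fun l => exists_inf_ne_bot h0 (W1 (al l))
  obtain ⟨l, l', hll, hx, hp⟩ := hph xl _ hxl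
  set p := b0 ⊓ FF S (al l) (xl l) ⊓ (b0 ⊓ FF S (al l') (xl l')) with hpdef
  have hex : {ξ | ¬ p ≤ c l ξ ⇔ c l' ξ}.Nonempty := by
    by_contra hn
    rw [not_nonempty_iff_eq_empty, eq_empty_iff_forall_notMem] at hn
    apply hp
    rw [← le_bot_iff, ← hc l l' hll (Classical.arbitrary Γ)]
    exact le_iInf₂ fun ζ _ => not_not.1 (hn ζ)
  obtain ⟨ξ0, hξ0, hmin⟩ := (wellFounded_lt (α := Γ)).has_min _ hex
  obtain ⟨s, hs⟩ := w1 _ (inf_compl_ne_bot hξ0) l ξ0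
  obtain ⟨s', hs'⟩ := w1 _ hs l' ξ0
  set q := p ⊓ (c l ξ0 ⇔ c l' ξ0)ᶜ ⊓ w l s ξ0 ⊓ w l' s' ξ0 with hq
  have hqp : q ≤ p := (inf_le_left.trans inf_le_left).trans inf_le_left
  have hqs : q ≤ w l s ξ0 := inf_le_left.trans inf_le_right
  have hqs' : q ≤ w l' s' ξ0 := inf_le_right
  have hlt : ∀ η < ξ0, s η = s' η := fun η hη =>
    wb q _ _ hs' (bi_trans (bi_symm (hqs.trans (w0 l s ξ0 η hη.le)))
      (bi_trans (hqp.trans (not_not.1 fun h => hmin η h hη)) (hqs'.trans (w0 l' s' ξ0 η hη.le))))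
  have hne' : s ξ0 ≠ s' ξ0 := fun h => hs' (eq_bot_of_le_compl
    (bi_trans (hqs.trans (w0 l s ξ0 ξ0 le_rfl)) (h ▸ bi_symm (hqs'.trans (w0 l' s' ξ0 ξ0 le_rfl))))
    ((inf_le_left.trans inf_le_left).trans inf_le_right))
  have hU : (fun ζ => if ζ < ξ0 then T s ζ else P0) = fun ζ => if ζ < ξ0 then T s' ζ else P0 := by
    ext1 ζ
    by_cases hζ : ζ < ξ0
    · simp only [hζ, if_true]
      exact hdep s s' ζ fun η hη => hlt η (hη.trans_lt hζ)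
    · simp only [hζ, if_false]
  have k1 : q ≤ (T s ξ0).D S (xl l) :=
    (le_inf hqs (hqp.trans (inf_le_left.trans inf_le_right))).trans
      (FF_le_D hS _ _ _ (A2 l s ξ0) _)
  have k2 : q ≤ (T s' ξ0).D S (xl l) := by
    rw [hx]
    exact (le_inf hqs' (hqp.trans (inf_le_right.trans inf_le_right))).trans
      (FF_le_D hS _ _ _ (A2 l' s' ξ0) _)
  have k0 : q ≤ b0 := hqp.trans (inf_le_left.trans inf_le_left)
  rw [hT s ξ0] at k1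
  rw [hT s' ξ0, ← hU] at k2
  apply hs'
  rw [← le_bot_iff, ← hsp2 (un ξ0 fun ζ => if ζ < ξ0 then T s ζ else P0) ξ0 (xl l)]
  revert k1 k2 hne'
  cases s ξ0 <;> cases s' ξ0 <;> intro hne' k1 k2
  · exact (hne' rfl).elim
  · exact le_inf (le_inf k0 k2) k1
  · exact le_inf (le_inf k0 k1) k2
  · exact (hne' rfl).elim

end main

end Pool.Agent.Lib.MP_446da5_lc.Full
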