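import Pool.Agent.Lib.MP_446da5_lc.Full.Game

set_option autoImplicit false

open Set Filter
open scoped symmDiff

namespace Pool.Agent.Lib.MP_446da5_lc.Full

universe u v

/-- The regular open algebra of a preorder. -/
def RO (P : Type u) [Preorder P] : Type u := Heyting.Regular (LowerSet P)

section RO

variable {P : Type u} [Preorder P]

noncomputable instance : CompleteBooleanAlgebra (RO P) :=
  { (inferInstance : BooleanAlgebra (Heyting.Regular (LowerSet P))) with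
    sSup := fun S => Heyting.Regular.toRegular (sSup (Heyting.Regular.val '' S))
    isLUB_sSup := fun _ => Heyting.Regular.gi.isLUB_of_u_image (isLUB_sSup _)
    sInf := fun S => Heyting.Regular.toRegular (sInf (Heyting.Regular.val '' S))
    isGLB_sInf := fun _ => Heyting.Regular.gi.isGLB_of_u_image (isGLB_sInf _) }

def emb (p : P) : RO P := Heyting.Regular.toRegular (LowerSet.Iic p)

lemma emb_mono {p q : P} (h : p ≤ q) : emb p ≤ emb q :=
  Heyting.Regular.toRegular.monotone (LowerSet.Iic_le.2 h)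

lemma ro_ne_bot_iff (a b : RO P) : a ⊓ b ≠ ⊥ ↔
    ¬ Disjoint (Heyting.Regular.val a) (Heyting.Regular.val b) := by
  rw [disjoint_iff]
  exact not_congr (Heyting.Regular.coe_inj (a := a ⊓ b) (b := ⊥)).symm

lemma exists_of_not_disjoint {a b : LowerSet P} (h : ¬ Disjoint a b) : ∃ p, p ∈ a ∧ p ∈ b := by
  by_contra hn
  apply h
  rw [disjoint_iff]
  ext p
  simpa using fun h1 h2 => hn ⟨p, h1, h2⟩

lemma exists_emb_le' {b : RO P} {p : P} (h : b ⊓ emb p ≠ ⊥) : ∃ p' ≤ p, emb p' ≤ b := by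
  rw [ro_ne_bot_iff, emb, Heyting.Regular.coe_toRegular, disjoint_compl_compl_right_iff] at h
  obtain ⟨r, h1, h2⟩ := exists_of_not_disjoint h
  exact ⟨r, h2, Heyting.Regular.gi.gc.l_le (LowerSet.Iic_le.2 h1)⟩

lemma exists_emb_le {b : RO P} (h : b ≠ ⊥) : ∃ p, emb p ≤ b := by
  have h1 : b ⊓ b ≠ ⊥ := by rwa [inf_idem]
  rw [ro_ne_bot_iff] at h1
  obtain ⟨r, h1, -⟩ := exists_of_not_disjoint h1
  exact ⟨r, Heyting.Regular.gi.gc.l_le (LowerSet.Iic_le.2 h1)⟩

lemma emb_compat {p q : P} (h : emb p ⊓ emb q ≠ ⊥) : ∃ r, r ≤ p ∧ r ≤ q := by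
  rw [ro_ne_bot_iff, emb, emb, Heyting.Regular.coe_toRegular, Heyting.Regular.coe_toRegular,
    disjoint_compl_compl_right_iff, disjoint_compl_compl_left_iff] at h
  exact exists_of_not_disjoint h

lemma emb_ne_bot (p : P) : emb p ≠ ⊥ := by
  rw [← inf_idem (emb p), ro_ne_bot_iff, emb, Heyting.Regular.coe_toRegular,
    disjoint_compl_compl_right_iff, disjoint_compl_compl_left_iff, disjoint_self]
  intro h
  have : p ∈ (⊥ : LowerSet P) := h ▸ LowerSet.mem_Iic_iff.2 le_rfl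
  simp at this

end RO

/-- Countable two-valued maps defined on part of `I`. -/
structure Cond (I : Type u) where
  f : I → Option Bool
  cnt : {i | f i ≠ none}.Countable

namespace Cond

variable {I : Type u}

instance : Preorder (Cond I) where
  le p q := ∀ i ε, q.f i = some ε → p.f i = some ε
  le_refl _ _ _ h := h
  le_trans _ _ _ h h' i ε hr := h i ε (h' i ε hr)

lemma le_def {p q : Cond I} : p ≤ q ↔ ∀ i ε, q.f i = some ε → p.f i = some ε := Iff.rfl

instance : OrderTop (Cond I) where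
  top := ⟨fun _ => none, by simp⟩
  le_top _ _ _ h := by cases h

lemma cnt' (p : Cond I) : {i | ∃ ε, p.f i = some ε}.Countable :=
  p.cnt.mono fun _ ⟨_, h⟩ => by simp [h]

lemma exists_of_rel (R : I → Bool → Prop) (h1 : ∀ i ε ε', R i ε → R i ε' → ε = ε')
    (h2 : {i | ∃ ε, R i ε}.Countable) : ∃ r : Cond I, ∀ i ε, r.f i = some ε ↔ R i ε := by
  classical
  refine ⟨⟨fun i => if h : ∃ ε, R i ε then some h.choose else none, h2.mono fun i hi => ?_⟩,
    fun i ε => ?_⟩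
  · by_contra hn
    exact hi (dif_neg hn)
  · by_cases h : ∃ ε, R i ε
    · simp only [dif_pos h, Option.some.injEq]
      exact ⟨fun h' => h' ▸ h.choose_spec, fun h' => h1 _ _ _ h.choose_spec h'⟩
    · simp only [dif_neg h, reduceCtorEq, false_iff]
      exact fun h' => h ⟨ε, h'⟩

lemma exists_lb {T : Type v} [Countable T] (p : T → Cond I)
    (h : ∀ s t i ε ε', (p s).f i = some ε → (p t).f i = some ε' → ε = ε') :
    ∃ r, ∀ t, r ≤ p t := by
  obtain ⟨r, hr⟩ := exists_of_rel (fun i ε => ∃ t, (p t).f i = some ε)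
    (fun i ε ε' ⟨s, hs⟩ ⟨t, ht⟩ => h s t i ε ε' hs ht)
    ((countable_iUnion fun t => (p t).cnt').mono (by
      rintro i ⟨ε, t, ht⟩
      exact mem_iUnion.2 ⟨t, ε, ht⟩))
  exact ⟨r, fun t i ε hi => (hr i ε).2 ⟨t, hi⟩⟩

lemma eq_of_le {r p q : Cond I} (hp : r ≤ p) (hq : r ≤ q) {i : I} {ε ε' : Bool}
    (h : p.f i = some ε) (h' : q.f i = some ε') : ε = ε' :=
  Option.some.inj ((hp i ε h).symm.trans (hq i ε' h'))

lemma exists_lb_chain {T : Type v} [Countable T] (p : T → Cond I)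
    (h : ∀ s t, p s ≤ p t ∨ p t ≤ p s) : ∃ r, ∀ t, r ≤ p t :=
  exists_lb p fun s t _ _ _ h1 h2 => (h s t).elim (fun h => eq_of_le le_rfl h h1 h2)
    (fun h => eq_of_le h le_rfl h1 h2)

lemma exists_lb_two (p q : Cond I)
    (h : ∀ i ε ε', p.f i = some ε → q.f i = some ε' → ε = ε') : ∃ r, r ≤ p ∧ r ≤ q := by
  obtain ⟨r, hr⟩ := exists_lb (fun t : Bool => bif t then p else q) (by
    rintro (_ | _) (_ | _) i ε ε' h1 h2
    · exact eq_of_le le_rfl le_rfl h1 h2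
    · exact (h i _ _ h2 h1).symm
    · exact h i _ _ h1 h2
    · exact eq_of_le le_rfl le_rfl h1 h2)
  exact ⟨r, hr true, hr false⟩

open Classical in
noncomputable def single (i : I) (ε : Bool) : Cond I :=
  ⟨fun j => if j = i then some ε else none, (countable_singleton i).mono fun j hj => by
    by_contra hn
    exact hj (if_neg hn)⟩

lemma single_f {i j : I} {ε ε' : Bool} : (single i ε).f j = some ε' ↔ j = i ∧ ε = ε' := by
  by_cases h : j = i <;> simp [single, h]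

lemma le_single {p : Cond I} {i : I} {ε : Bool} : p ≤ single i ε ↔ p.f i = some ε :=
  ⟨fun h => h i ε (single_f.2 ⟨rfl, rfl⟩), fun h j ε' hj => by
    obtain ⟨rfl, rfl⟩ := single_f.1 hj
    exact h⟩

lemma exists_ext (p : Cond I) (i : I) (ε : Bool) (h : p.f i ≠ some (!ε)) :
    ∃ r ≤ p, r.f i = some ε ∧ ∀ j ε', r.f j = some ε' → j = i ∨ p.f j = some ε' := by
  obtain ⟨r, hr⟩ := exists_of_rel (fun j ε' => p.f j = some ε' ∨ (j = i ∧ ε' = ε)) (by
    rintro j e1 e2 (h1 | ⟨rfl, rfl⟩) (h2 | ⟨h2, rfl⟩)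
    · exact eq_of_le le_rfl le_rfl h1 h2
    · subst h2
      rw [h1] at h
      revert h; cases e1 <;> cases e2 <;> simp
    · rw [h2] at h
      revert h; cases e1 <;> cases e2 <;> simp
    · rfl) ((p.cnt'.union (countable_singleton i)).mono (by
      rintro j ⟨e, h | ⟨rfl, -⟩⟩
      · exact Or.inl ⟨e, h⟩
      · exact Or.inr rfl))
  exact ⟨r, fun j e hj => (hr j e).2 (Or.inl hj), (hr i ε).2 (Or.inr ⟨rfl, rfl⟩),
    fun j e hj => ((hr j e).1 hj).symm.imp_left And.left⟩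

end Cond

open Cond

variable {I : Type u}

abbrev BB (I : Type u) : Type u := RO (Cond I)

instance : Nontrivial (BB I) := ⟨⟨emb ⊤, ⊥, emb_ne_bot _⟩⟩

noncomputable def sg (i : I) (ε : Bool) : BB I := emb (single i ε)

lemma emb_le_sg {p : Cond I} {i : I} {ε : Bool} : emb p ≤ sg i ε ↔ p.f i = some ε := by
  refine ⟨fun h => ?_, fun h => emb_mono (le_single.2 h)⟩
  by_contra hn
  obtain ⟨r, hr, hr', -⟩ := p.exists_ext i (!ε) (by simpa using hn)
  obtain ⟨s, hs, hs'⟩ := emb_compat (p := r) (q := single i ε) (by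
    rw [inf_eq_left.2 (show emb r ≤ emb (single i ε) from (emb_mono hr).trans h)]
    exact emb_ne_bot r)
  have := eq_of_le hs hs' hr' (single_f.2 ⟨rfl, rfl⟩)
  simp at this

lemma le_emb {b : BB I} {d : Cond I} (h : ∀ i ε, d.f i = some ε → b ≤ sg i ε) : b ≤ emb d := by
  by_contra hn
  obtain ⟨r, hr⟩ := exists_emb_le (inf_compl_ne_bot hn)
  have h1 : r ≤ d := fun i ε hi => emb_le_sg.1 ((hr.trans inf_le_left).trans (h i ε hi))
  exact emb_ne_bot r (eq_bot_of_le_compl (emb_mono h1) (hr.trans inf_le_right))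

lemma distrib_nat (E : ℕ → BB I → Prop) (h1 : ∀ n, ∀ b ≠ ⊥, ∃ b' ≤ b, b' ≠ ⊥ ∧ E n b')
    (h2 : ∀ n b b', b' ≤ b → E n b → E n b') (b : BB I) (hb : b ≠ ⊥) :
    ∃ b' ≤ b, b' ≠ ⊥ ∧ ∀ n, E n b' := by
  have step : ∀ (n : ℕ) (p : Cond I), ∃ p' ≤ p, E n (emb p') := by
    intro n p
    obtain ⟨b', hb', hb0, hE⟩ := h1 n _ (emb_ne_bot p)
    obtain ⟨p', hp', h⟩ := exists_emb_le' (b := b') (p := p) (by rwa [inf_eq_left.2 hb'])
    exact ⟨p', hp', h2 n _ _ h hE⟩
  choose st hst1 hst2 using step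
  obtain ⟨p0, hp0⟩ := exists_emb_le hb
  let s : ℕ → Cond I := fun n => Nat.rec p0 (fun n p => st n p) n
  have hanti : Antitone s := antitone_nat_of_succ_le fun n => hst1 n (s n)
  obtain ⟨r, hr⟩ := exists_lb_chain s fun m n => (le_total n m).imp (@hanti _ _) (@hanti _ _)
  exact ⟨emb r, (emb_mono (hr 0)).trans hp0, emb_ne_bot r,
    fun n => h2 n _ _ (emb_mono (hr (n + 1))) (hst2 n (s n))⟩

lemma distrib_cnt {T : Type v} {S : Set T} (hS : S.Countable) (E : T → BB I → Prop)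
    (h1 : ∀ t, ∀ b ≠ ⊥, ∃ b' ≤ b, b' ≠ ⊥ ∧ E t b')
    (h2 : ∀ t b b', b' ≤ b → E t b → E t b') (b : BB I) (hb : b ≠ ⊥) :
    ∃ b' ≤ b, b' ≠ ⊥ ∧ ∀ t ∈ S, E t b' := by
  rcases S.eq_empty_or_nonempty with rfl | hne
  · exact ⟨b, le_rfl, hb, by simp⟩
  obtain ⟨f, rfl⟩ := hS.exists_eq_range hne
  obtain ⟨b', k1, k2, k3⟩ := distrib_nat (fun n => E (f n)) (fun n => h1 _) (fun n => h2 _) b hb
  exact ⟨b', k1, k2, by rintro _ ⟨n, rfl⟩; exact k3 n⟩

lemma bits_differ {L Γ : Type u} [LinearOrder Γ] (hΓ : ∀ δ : Γ, ¬ (Ioi δ).Countable)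
    (l l' : L) (h : l ≠ l') (δ : Γ) :
    ⨅ (ζ : Γ) (_ : δ < ζ), sg (l, ζ) true ⇔ sg (l', ζ) true = ⊥ := by
  by_contra hne
  obtain ⟨p, hp⟩ := exists_emb_le hne
  obtain ⟨ζ, hζ, hn⟩ : ∃ ζ, δ < ζ ∧ ζ ∉ Prod.snd '' {i | ∃ ε, p.f i = some ε} := by
    by_contra hn
    push Not at hn
    exact hΓ δ ((p.cnt'.image _).mono hn)
  obtain ⟨r, hr, hr1, hr2⟩ := p.exists_ext (l, ζ) true fun h => hn ⟨_, ⟨_, h⟩, rfl⟩
  have h1 : emb r ≤ sg (l', ζ) true :=
    (le_inf ((emb_mono hr).trans (hp.trans (iInf₂_le ζ hζ))) (emb_le_sg.2 hr1)).trans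
      (le_bi_iff'.1 le_rfl).1
  rcases hr2 _ _ (emb_le_sg.1 h1) with h2 | h2
  · exact h (Prod.mk.inj h2).1.symm
  · exact hn ⟨_, ⟨_, h2⟩, rfl⟩

section germs

variable {K : Type u} (U : Ultrafilter K)

/-- `R` is a set of representatives of the non-constant classes of maps `K → I` modulo `U`. -/
def Reps (R : Set (K → I)) : Prop :=
  (∀ g ∈ R, ∀ g' ∈ R, g ≠ g' → ∀ᶠ α in U, g α ≠ g' α) ∧ (∀ g ∈ R, ∀ i, ∀ᶠ α in U, g α ≠ i) ∧
    ∀ f : K → I, (∃ i, ∀ᶠ α in U, f α = i) ∨ ∃ g ∈ R, ∀ᶠ α in U, f α = g α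

lemma exists_reps : ∃ R : Set (K → I), Reps U R := by
  let st : Setoid (K → I) := (U : Filter K).germSetoid I
  let rp : (K → I) → K → I := fun f => (Quotient.mk st f).out
  have h1 : ∀ f, ∀ᶠ α in U, rp f α = f α := fun f => Quotient.mk_out (s := st) f
  have h2 : ∀ f g, (∀ᶠ α in U, f α = g α) → rp f = rp g := fun f g h =>
    congrArg Quotient.out (Quotient.sound (s := st) h)
  refine ⟨{g | rp g = g ∧ ∀ i, ∀ᶠ α in U, g α ≠ i}, fun g hg g' hg' hne => ?_,
    fun g hg => hg.2, fun f => ?_⟩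
  · rw [Ultrafilter.eventually_not]
    exact fun h => hne (hg.1.symm.trans ((h2 _ _ h).trans hg'.1))
  · by_cases h : ∃ i, ∀ᶠ α in U, f α = i
    · exact Or.inl h
    · refine Or.inr ⟨rp f, ⟨h2 _ _ (h1 f), fun i => ?_⟩, (h1 f).mono fun _ h => h.symm⟩
      rw [Ultrafilter.eventually_not]
      exact fun h' => h ⟨i, (h'.and (h1 f)).mono fun _ k => k.2.symm.trans k.1⟩

variable {U} {R : Set (K → I)}

noncomputable def ext (q : Cond R) (α : K) : BB I :=
  ⨅ (g : R) (ε : Bool) (_ : q.f g = some ε), sg (g.1 α) ε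

lemma ext_le {q : Cond R} {g : R} {ε : Bool} (h : q.f g = some ε) (α : K) :
    ext q α ≤ sg (g.1 α) ε := iInf_le_of_le g (iInf₂_le ε h)

lemma ext_mono {q q' : Cond R} (h : q' ≤ q) (α : K) : ext q' α ≤ ext q α :=
  le_iInf fun g => le_iInf₂ fun ε hg => ext_le (h g ε hg) α

variable [CountableInterFilter (U : Filter K)]

lemma ev_ext_ne_bot (hR : Reps U R) {b : BB I} (hb : b ≠ ⊥) (q : Cond R) :
    ∀ᶠ α in U, b ⊓ ext q α ≠ ⊥ := by
  obtain ⟨p, hp⟩ := exists_emb_le hb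
  have h1 : ∀ᶠ α in U, ∀ g ∈ {g | ∃ ε, q.f g = some ε}, ∀ g' ∈ {g | ∃ ε, q.f g = some ε},
      g.1 α = g'.1 α → g = g' :=
    (eventually_countable_ball q.cnt').2 fun g _ => (eventually_countable_ball q.cnt').2
      fun g' _ => by
        by_cases h : g = g'
        · exact Eventually.of_forall fun _ _ => h
        · exact (hR.1 _ g.2 _ g'.2 (Subtype.coe_injective.ne h)).mono fun _ h h' => (h h').elim
  have h2 : ∀ᶠ α in U, ∀ g ∈ {g | ∃ ε, q.f g = some ε}, ∀ i ∈ {i | ∃ ε, p.f i = some ε},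
      g.1 α ≠ i :=
    (eventually_countable_ball q.cnt').2 fun g _ => (eventually_countable_ball p.cnt').2
      fun i _ => hR.2.1 _ g.2 i
  filter_upwards [h1, h2] with α h1 h2
  obtain ⟨r, hr⟩ := exists_of_rel
    (fun i ε => p.f i = some ε ∨ ∃ g : R, q.f g = some ε ∧ g.1 α = i) (by
      rintro i e e' (k | ⟨g, k, rfl⟩) (k' | ⟨g', k', k''⟩)
      · exact eq_of_le le_rfl le_rfl k k'
      · exact (h2 g' ⟨_, k'⟩ i ⟨_, k⟩ k'').elim
      · exact (h2 g ⟨_, k⟩ _ ⟨_, k'⟩ rfl).elim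
      · rw [h1 g' ⟨_, k'⟩ g ⟨_, k⟩ k''] at k'
        exact eq_of_le le_rfl le_rfl k k')
    ((p.cnt'.union (q.cnt'.image fun g => g.1 α)).mono (by
      rintro i ⟨e, k | ⟨g, k, rfl⟩⟩
      · exact Or.inl ⟨e, k⟩
      · exact Or.inr ⟨g, ⟨e, k⟩, rfl⟩))
  intro h0
  refine emb_ne_bot r (le_bot_iff.1 (h0 ▸ le_inf ((emb_mono fun i ε h => ?_).trans hp) ?_))
  · exact (hr i ε).2 (Or.inl h)
  · exact le_iInf fun g => le_iInf₂ fun ε hg => emb_le_sg.2 ((hr _ ε).2 (Or.inr ⟨g, hg, rfl⟩))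

lemma exists_ev_eq {T : Type v} [Countable T] (h : K → T) : ∃ t, ∀ᶠ α in U, h α = t := by
  by_contra hn
  push Not at hn
  have : ∀ᶠ α in U, ∀ t, h α ≠ t :=
    eventually_countable_forall.2 hn
  obtain ⟨α, hα⟩ := this.exists
  exact hα _ rfl

lemma analyze [Nonempty I] (hR : Reps U R) (r : K → Cond I) : ∃ (p' : Cond I) (q' : Cond R),
    (∀ i ε, (∀ᶠ α in U, (r α).f i = some ε) → p'.f i = some ε) ∧
    (∀ (g : R) ε, (∀ᶠ α in U, (r α).f (g.1 α) = some ε) → q'.f g = some ε) ∧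
    ∀ᶠ α in U, emb p' ⊓ ext q' α ≤ emb (r α) := by
  choose en hen using fun α => countable_iff_exists_subset_range.1 (r α).cnt'
  have hfun : ∀ (g : K → I) (e e' : Bool), (∀ᶠ α in U, (r α).f (g α) = some e) →
      (∀ᶠ α in U, (r α).f (g α) = some e') → e = e' := fun g e e' h h' => by
    obtain ⟨α, k, k'⟩ := (h.and h').exists
    exact eq_of_le le_rfl le_rfl k k'
  have hidx : ∀ (g : K → I) (e : Bool), (∀ᶠ α in U, (r α).f (g α) = some e) →
      ∃ n, ∀ᶠ α in U, en α n = g α := fun g e h => by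
    by_contra hn
    push Not at hn
    have : ∀ᶠ α in U, ∀ n, en α n ≠ g α :=
      eventually_countable_forall.2 hn
    obtain ⟨α, k, k'⟩ := (h.and this).exists
    obtain ⟨n, hn⟩ := hen α ⟨e, k⟩
    exact k' n hn
  obtain ⟨p', hp'⟩ := exists_of_rel (fun i ε => ∀ᶠ α in U, (r α).f i = some ε)
    (fun i => hfun fun _ => i) (by
      refine (countable_iUnion fun n : ℕ => Set.Subsingleton.countable
        (s := {i | ∀ᶠ α in U, en α n = i}) ?_).mono ?_
      · intro i hi j hj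
        obtain ⟨α, k, k'⟩ := (Filter.Eventually.and hi hj).exists
        exact k.symm.trans k'
      · rintro i ⟨e, h⟩
        exact mem_iUnion.2 (hidx (fun _ => i) e h))
  obtain ⟨q', hq'⟩ := exists_of_rel (fun (g : R) ε => ∀ᶠ α in U, (r α).f (g.1 α) = some ε)
    (fun g => hfun g.1) (by
      refine (countable_iUnion fun n : ℕ => Set.Subsingleton.countable
        (s := {g : R | ∀ᶠ α in U, en α n = g.1 α}) ?_).mono ?_
      · intro g hg g' hg'
        by_contra hne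
        obtain ⟨α, ⟨k, k'⟩, k''⟩ := ((Filter.Eventually.and hg hg').and
          (hR.1 _ g.2 _ g'.2 (Subtype.coe_injective.ne hne))).exists
        exact k'' (k.symm.trans k')
      · rintro g ⟨e, h⟩
        exact mem_iUnion.2 (hidx g.1 e h))
  refine ⟨p', q', fun i ε => (hp' i ε).2, fun g ε => (hq' g ε).2, ?_⟩
  · have key : ∀ᶠ α in U, ∀ n, ∀ ε, (r α).f (en α n) = some ε →
        emb p' ⊓ ext q' α ≤ sg (en α n) ε := by
      refine eventually_countable_forall.2 fun n => ?_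
      obtain ⟨v, hv⟩ := exists_ev_eq (U := U) fun α => (r α).f (en α n)
      rcases hR.2.2 (fun α => en α n) with ⟨i, hi⟩ | ⟨g, hg, hi⟩
      · filter_upwards [hv, hi] with α k k' ε h
        rw [k']
        refine inf_le_left.trans (emb_le_sg.2 ((hp' i ε).2 ?_))
        filter_upwards [hv, hi] with β j j'
        rw [← j', j, ← k, h]
      · filter_upwards [hv, hi] with α k k' ε h
        rw [k']
        refine inf_le_right.trans (ext_le (g := ⟨g, hg⟩) ((hq' _ ε).2 ?_) α)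
        filter_upwards [hv, hi] with β j j'
        rw [← j', j, ← k, h]
    filter_upwards [key] with α k
    refine le_emb fun i ε h => ?_
    obtain ⟨n, rfl⟩ := hen α ⟨ε, h⟩
    exact k n ε h

lemma ext_dense [Nonempty I] (hR : Reps U R) (D : K → BB I → Prop)
    (hD : ∀ α, ∀ b ≠ ⊥, ∃ b' ≤ b, b' ≠ ⊥ ∧ D α b') {b : BB I} (hb : b ≠ ⊥) (q : Cond R) :
    ∃ b' ≤ b, b' ≠ ⊥ ∧ ∃ q' ≤ q, ∃ d : K → BB I, (∀ α, D α (d α)) ∧
      ∀ᶠ α in U, b' ⊓ ext q' α ≤ d α := by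
  obtain ⟨p, hp⟩ := exists_emb_le hb
  have hex : ∀ α, ∃ (d : BB I) (r : Cond I), D α d ∧ emb r ≤ d ∧
      (emb p ⊓ ext q α ≠ ⊥ → emb r ≤ emb p ⊓ ext q α) := by
    intro α
    by_cases h : emb p ⊓ ext q α = ⊥
    · obtain ⟨d, -, h0, hd⟩ := hD α ⊤ top_ne_bot
      obtain ⟨r, hr⟩ := exists_emb_le h0
      exact ⟨d, r, hd, hr, fun h' => (h' h).elim⟩
    · obtain ⟨d, h1, h0, hd⟩ := hD α _ h
      obtain ⟨r, hr⟩ := exists_emb_le h0
      exact ⟨d, r, hd, hr, fun _ => hr.trans h1⟩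
  choose d r hd hrd hr using hex
  have hr' : ∀ᶠ α in U, emb (r α) ≤ emb p ⊓ ext q α :=
    (ev_ext_ne_bot hR (emb_ne_bot p) q).mono hr
  obtain ⟨p', q', hp', hq', h⟩ := analyze hR r
  refine ⟨emb p', (emb_mono fun i ε h => hp' i ε ?_).trans hp, emb_ne_bot _, q',
    fun g ε h => hq' g ε ?_, d, hd, h.mono fun α k => k.trans (hrd α)⟩
  · exact hr'.mono fun α k => emb_le_sg.1 ((k.trans inf_le_left).trans (emb_le_sg.2 h))
  · exact hr'.mono fun α k => emb_le_sg.1 ((k.trans inf_le_right).trans (ext_le h α))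

/-- The chain condition coming from the ultrafilter. -/
lemma cc_of_reps [Nonempty I] (hR : Reps U R) (b : K → BB I) (hb : ∀ α, b α ≠ ⊥) :
    ∀ᶠ α0 in U, ∀ᶠ α in U, b α0 ⊓ b α ≠ ⊥ := by
  choose r hr using fun α => exists_emb_le (hb α)
  obtain ⟨p', q', -, -, h⟩ := analyze hR r
  filter_upwards [h, ev_ext_ne_bot hR (emb_ne_bot p') q'] with α0 k k'
  filter_upwards [h, ev_ext_ne_bot hR k' q'] with α j j' h0
  refine j' (le_bot_iff.1 (h0 ▸ le_inf (inf_le_left.trans (k.trans (hr α0))) ?_))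
  exact (inf_le_inf_right _ inf_le_left).trans (j.trans (hr α))

end germs

end Pool.Agent.Lib.MP_446da5_lc.Full
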