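import Mathlib

set_option autoImplicit false

namespace Pool.Agent.Lib.MP_446da5_lc.Full

open ZFSet

/-- Formulas of the language of set theory (de Bruijn variables). -/
inductive Fm : Type
  | mem (i j : ℕ) : Fm
  | eq (i j : ℕ) : Fm
  | fls : Fm
  | imp (φ ψ : Fm) : Fm
  | all (φ : Fm) : Fm

/-- Satisfaction in the structure `(N, ∈)`. -/
def Sat (N : Set ZFSet.{0}) : Fm → List ZFSet.{0} → Prop
  | .mem i j, v => v.getD i ∅ ∈ v.getD j ∅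
  | .eq i j, v => v.getD i ∅ = v.getD j ∅
  | .fls, _ => False
  | .imp φ ψ, v => Sat N φ v → Sat N ψ v
  | .all φ, v => ∀ x ∈ N, Sat N φ (x :: v)

/-- `N` is a transitive model of ZFC: transitivity (which gives Extensionality and Foundation),
Infinity, Pairing, Union, Power Set, the Separation and Collection schemes, and Choice. -/
def IsModel (N : Set ZFSet.{0}) : Prop :=
  (∀ x ∈ N, ∀ y ∈ x, y ∈ N) ∧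
  omega ∈ N ∧
  (∀ a ∈ N, ∀ b ∈ N, ({a, b} : ZFSet) ∈ N) ∧
  (∀ a ∈ N, sUnion a ∈ N) ∧
  (∀ a ∈ N, ∃ y ∈ N, ∀ z ∈ N, z ⊆ a → z ∈ y) ∧
  (∀ (φ : Fm) (v : List ZFSet), (∀ x ∈ v, x ∈ N) → ∀ a ∈ N,
    ZFSet.sep (fun x => Sat N φ (x :: v)) a ∈ N) ∧
  (∀ (φ : Fm) (v : List ZFSet), (∀ x ∈ v, x ∈ N) → ∀ a ∈ N,
    (∀ x ∈ a, ∃ y ∈ N, Sat N φ (y :: x :: v)) → ∃ b ∈ N, ∀ x ∈ a, ∃ y ∈ b, Sat N φ (y :: x :: v)) ∧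
  (∀ a ∈ N, ∅ ∉ a → ∃ f ∈ N, ∀ x ∈ a, (∃! y, pair x y ∈ f) ∧ ∀ y, pair x y ∈ f → y ∈ x)

/-- `κ` is an ordinal of `N` and no function in `N` from a smaller ordinal is cofinal in it. -/
def RegularIn (N : Set ZFSet.{0}) (κ : ZFSet.{0}) : Prop :=
  κ ∈ N ∧ κ.IsOrdinal ∧
    ∀ δ ∈ κ, ∀ f ∈ N, IsFunc δ κ f → ∃ β ∈ κ, ∀ ξ y, pair ξ y ∈ f → y ∈ β

/-- `(P, R)` is a nonempty preorder in `N` (`pair p q ∈ R` means `p ≤ q`) in which every decreasing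
sequence in `N` of length below `γ` has a lower bound. -/
def ClosedForcing (N : Set ZFSet.{0}) (γ P R : ZFSet.{0}) : Prop :=
  P ∈ N ∧ R ∈ N ∧ P ≠ ∅ ∧ R ⊆ prod P P ∧ (∀ p ∈ P, pair p p ∈ R) ∧
  (∀ p q r, pair p q ∈ R → pair q r ∈ R → pair p r ∈ R) ∧
  ∀ δ ∈ γ, ∀ f ∈ N, IsFunc δ P f →
    (∀ ξ η p q, ξ ∈ η → pair ξ p ∈ f → pair η q ∈ f → pair q p ∈ R) →
    ∃ r ∈ P, ∀ ξ p, pair ξ p ∈ f → pair r p ∈ R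

/-- `H` is a filter on `(P, R)` meeting every dense subset of `P` that lies in `N`. -/
def Generic (N : Set ZFSet.{0}) (P R : ZFSet.{0}) (H : Set ZFSet.{0}) : Prop :=
  (∀ p ∈ H, p ∈ P) ∧ (∀ p ∈ H, ∀ q, pair p q ∈ R → q ∈ H) ∧
  (∀ p ∈ H, ∀ q ∈ H, ∃ r ∈ H, pair r p ∈ R ∧ pair r q ∈ R) ∧
  ∀ D ∈ N, D ⊆ P → (∀ p ∈ P, ∃ q ∈ D, pair q p ∈ R) → ∃ q ∈ D, q ∈ H

/-- `U` is a uniform `N`-normal `N`-ultrafilter on `κ` and the ultrapower of `N` by `U` is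
well-founded. -/
def GoodUltrafilter (N : Set ZFSet.{0}) (κ : ZFSet.{0}) (U : Set ZFSet.{0}) : Prop :=
  (∀ A ∈ U, A ∈ N ∧ A ⊆ κ) ∧ (∀ A ∈ U, ∀ B ∈ N, A ⊆ B → B ⊆ κ → B ∈ U) ∧
  (∀ A ∈ U, ∀ B ∈ U, A ∩ B ∈ U) ∧ (∀ A ∈ N, A ⊆ κ → A ∈ U ∨ κ \ A ∈ U) ∧
  (∀ β ∈ κ, β ∉ U) ∧
  (∀ f ∈ N, IsFunc κ κ f → ∀ A ∈ U, (∀ α ∈ A, ∀ y, pair α y ∈ f → y ∈ α) →
    ∃ β, ∃ A' ∈ U, ∀ α ∈ A', pair α β ∈ f) ∧
  WellFounded fun f g : {f // f ∈ N ∧ ∃ Y, IsFunc κ Y f} =>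
    ∃ A ∈ U, ∀ α ∈ A, ∀ s t, pair α s ∈ f.1 → pair α t ∈ g.1 → s ∈ t

/-- `val` evaluates `P`-names by `H`; the generic extension `N[H]` is the image of `N`. -/
def IsValuation (H : Set ZFSet.{0}) (val : ZFSet.{0} → ZFSet.{0}) : Prop :=
  ∀ τ x, x ∈ val τ ↔ ∃ ρ q, q ∈ H ∧ pair ρ q ∈ τ ∧ x = val ρ

/-- In every generic extension `N[H]` by `(P, R)` there is such an ultrafilter on `κ`. -/
def GenMeasurable (N : Set ZFSet.{0}) (κ P R : ZFSet.{0}) : Prop :=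
  ∀ H, Generic N P R H → ∃ val, IsValuation H val ∧
    ∃ τ ∈ N, GoodUltrafilter N κ {A | A ∈ val τ}

/-- Choose has a winning strategy `σ ∈ N` in the game `U(κ, ≤γ)` of `N`. In round `ξ` Cut splits
the current set `D` into `a` and `D \ a`, where `a` is the value of `A` at `ξ`; Choose takes `a` if
`A` restricted to `ξ + 1` lies in `σ`, and `D \ a` otherwise; `C` lists the chosen sets. -/
def ChooseWinsIn (N : Set ZFSet.{0}) (κ γ : ZFSet.{0}) : Prop :=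
  ∃ σ ∈ N, ∀ A ∈ N, ∀ C ∈ N, IsFunc γ (powerset κ) A → IsFunc γ (powerset κ) C →
    (∀ ξ a c D, pair ξ a ∈ A → pair ξ c ∈ C →
      (∀ x, x ∈ D ↔ x ∈ κ ∧ ∀ η ∈ ξ, ∀ c', pair η c' ∈ C → x ∈ c') →
      a ⊆ D ∧ (A ∩ prod (insert ξ ξ) (powerset κ) ∈ σ → c = a) ∧
        (A ∩ prod (insert ξ ξ) (powerset κ) ∉ σ → c = D \ a)) →
    (∀ ξ x, pair ξ {x} ∉ C) ∧ ∃ x, ∀ ξ c, pair ξ c ∈ C → x ∈ c

end Pool.Agent.Lib.MP_446da5_lc.Full
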