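import Pool.Agent.Lib.MP_446da5_lc.Full.Meas

set_option autoImplicit false

open Filter Set Cardinal

namespace Pool.Agent.Lib.MP_446da5_lc.Full

universe u v

open Name

section build

variable {K : Type u} [LinearOrder K] [WellFoundedLT K]

lemma exists_omega_pos (h : Ordinal.omega0 < Ordinal.type (α := K) (· < ·)) :
    ∃ (e : ℕ → K) (w : K), (∀ n x, x < e n ↔ ∃ m < n, e m = x) ∧ ∀ x, x < w ↔ ∃ n, e n = x := by
  have hn : ∀ n : ℕ, (n : Ordinal) < Ordinal.type (α := K) (· < ·) := fun n =>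
    (Ordinal.natCast_lt_omega0 n).trans h
  refine ⟨fun n => Ordinal.enum (α := K) (· < ·) ⟨n, hn n⟩,
    Ordinal.enum (α := K) (· < ·) ⟨Ordinal.omega0, h⟩, fun n x => ?_, fun x => ?_⟩
  · obtain ⟨⟨o, ho⟩, rfl⟩ := (Ordinal.enum (α := K) (· < ·)).surjective x
    rw [Ordinal.enum_lt_enum (r := ((· < ·) : K → K → Prop))]
    simp only [Subtype.mk_lt_mk, Ordinal.enum_inj, Subtype.mk.injEq]
    constructor
    · intro k
      obtain ⟨m, rfl⟩ := Ordinal.lt_omega0.1 (k.trans (Ordinal.natCast_lt_omega0 n))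
      exact ⟨m, by exact_mod_cast k, rfl⟩
    · rintro ⟨m, hm, rfl⟩
      exact_mod_cast hm
  · obtain ⟨⟨o, ho⟩, rfl⟩ := (Ordinal.enum (α := K) (· < ·)).surjective x
    rw [Ordinal.enum_lt_enum (r := ((· < ·) : K → K → Prop))]
    simp only [Subtype.mk_lt_mk, Ordinal.enum_inj, Subtype.mk.injEq, Ordinal.lt_omega0, eq_comm]

lemma exists_normal (U : Ultrafilter K) [CountableInterFilter (U : Filter K)]
    (hU : ∀ f : K → K, (∀ x, ∀ᶠ y in U, f y ≠ x) → ∀ x, ∀ᶠ y in U, x < f y)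
    (h0 : ∀ x : K, ∀ᶠ y : K in U, y ≠ x) :
    ∃ V : Ultrafilter K, CountableInterFilter (V : Filter K) ∧ (∀ x : K, ∀ᶠ y : K in V, x < y) ∧
      ∀ h : K → K, (∀ᶠ y in V, h y < y) → ∃ x, ∀ᶠ y in V, h y = x := by
  obtain ⟨f, hf, hmin⟩ := (wf_ev_lt (Y := K) (U : Filter K)).has_min
    {f | ∀ x, ∀ᶠ y in U, f y ≠ x} ⟨id, h0⟩
  refine ⟨U.map f, inferInstanceAs (CountableInterFilter (Filter.map f U)), hU f hf, fun h hh => ?_⟩
  by_contra hn
  refine hmin (fun y => h (f y)) (fun x => ?_) hh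
  rw [Ultrafilter.eventually_not]
  exact fun k => hn ⟨x, k⟩

omit [WellFoundedLT K] in
lemma exists_unc_Iio [Uncountable K] (U : Ultrafilter K) [CountableInterFilter (U : Filter K)]
    (hU : ∀ x : K, ∀ᶠ y : K in U, x < y) : ∃ g : K, ¬ (Iio g).Countable := by
  by_contra hn
  push Not at hn
  choose i hi using fun g => countable_iff_exists_injOn.1 (hn g)
  choose n hn using fun x => exists_ev_eq (U := U) fun y => i y x
  refine not_countable (α := K) (Function.Injective.countable (f := n) fun x x' h => ?_)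
  obtain ⟨y, ⟨k1, k2⟩, k3, k4⟩ := (((hn x).and (hn x')).and ((hU x).and (hU x'))).exists
  exact hi y k3 k4 (k1.trans (h.trans k2.symm))

lemma exists_setup [Uncountable K] (hK : ∀ x : K, #(Iic x) < #K) (U : Ultrafilter K)
    (h0 : ∀ x, {x} ∉ U) [CardinalInterFilter (U : Filter K) #K] : Nonempty (Setup K) := by
  have := CardinalInterFilter.toCountableInterFilter (U : Filter K) (aleph0_lt_mk (α := K))
  obtain ⟨V, h1, h2, h3⟩ := exists_normal U (fun f hf x =>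
    ((eventually_cardinal_ball (hK x)).2 fun z _ => hf z).mono fun y k =>
      lt_of_not_ge fun k' => k _ k' rfl) fun x => Ultrafilter.eventually_not.2 (h0 x)
  obtain ⟨g, hg, hmin⟩ := (wellFounded_lt (α := K)).has_min _ (exists_unc_Iio V h2)
  obtain ⟨R, hR⟩ := exists_reps (I := Set K × Iio g) V
  refine ⟨⟨V, h1, h2, h3, g, fun x hx => ?_, hg, R, hR⟩⟩
  rw [← Iio_insert]
  exact (not_not.1 fun k => hmin x k hx).insert x

end build

theorem main (K : Type u) (U : Ultrafilter K) [Uncountable K] (h0 : ∀ x, {x} ∉ U)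
    (hU : CardinalInterFilter (U : Filter K) #K) :
    ∃ N : Set ZFSet.{0}, N.Countable ∧ IsModel N ∧ ∃ γ κ P R, ZFSet.omega ∈ γ ∧ γ ∈ κ ∧
      RegularIn N γ ∧ RegularIn N κ ∧ ClosedForcing N γ P R ∧ GenMeasurable N κ P R ∧
      ¬ ChooseWinsIn N κ γ := by
  obtain ⟨_, _, hK⟩ := exists_ord_eq_type_lt K
  obtain ⟨s⟩ := exists_setup (fun x => mk_Iic_lt x hK (aleph0_le_mk K)) U h0
  obtain ⟨e, w, he, hw⟩ := exists_omega_pos (K := K) (by
    rw [← hK, ← ord_aleph0, ord_lt_ord]; exact aleph0_lt_mk)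
  have hwg : w < s.g0 := lt_of_not_ge fun h =>
    s.unc ((countable_range e).mono fun x hx => (hw x).1 (lt_of_lt_of_le hx h))
  obtain ⟨C, hC⟩ : ∃ C : Ctx s.B, IsModel C.N ∧ ZFSet.omega ∈ C.o s.g0 ∧ C.o s.g0 ∈ C.kap K ∧
      RegularIn C.N (C.o s.g0) ∧ RegularIn C.N (C.kap K) ∧
      ClosedForcing C.N (C.o s.g0) (C.val (Pn s.B s.P)) (C.val (Rn s.B s.P)) ∧
      GenMeasurable C.N (C.kap K) (C.val (Pn s.B s.P)) (C.val (Rn s.B s.P)) ∧
      ¬ ChooseWinsIn C.N (C.kap K) (C.o s.g0) := by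
    refine Filter.Eventually.exists (f := gen s.B) ?_
    filter_upwards [ev_model s.B, ev_omega (B := s.B) e w he hw, cl0 s.B w, cl0 s.B s.g0,
      ev_on s.B K, s.ev_regular_gamma, s.ev_regular_kappa, s.ev_closed, s.ev_genMeasurable,
      s.ev_not_wins] with C h1 h2 h3 h4 h5 h6 h7 h8 h9 h10
    exact ⟨h1 (h2 ▸ Ctx.val_mem_N (h5 w h3)), h2 ▸ C.o_mem_o_of_lt h3 hwg, C.o_mem_kap h4,
      h6, h7, h8, h9, h10⟩
  exact ⟨C.N, C.N_countable, hC.1, _, _, _, _, hC.2⟩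

end Pool.Agent.Lib.MP_446da5_lc.Full
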