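import Pool.Agent.Lib.MP_446da5_lc.Full.Link

set_option autoImplicit false

open Filter Set

namespace Pool.Agent.Lib.MP_446da5_lc.Full

universe u v

open Name

lemma exists_valuation (H : Set ZFSet.{0}) : ∃ val, IsValuation H val := by
  have hlt : ∀ {ρ q τ : ZFSet.{0}}, ZFSet.pair ρ q ∈ τ → ρ.rank < τ.rank := by
    intro ρ q τ h
    have h1 : ({ρ} : ZFSet.{0}) ∈ ZFSet.pair ρ q := by simp [ZFSet.pair]
    exact ((ZFSet.rank_lt_of_mem (ZFSet.mem_singleton.2 rfl)).trans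
      (ZFSet.rank_lt_of_mem h1)).trans (ZFSet.rank_lt_of_mem h)
  have hsm : ∀ τ : ZFSet.{0}, Small.{0} {ρ : ZFSet.{0} // ∃ q, q ∈ H ∧ ZFSet.pair ρ q ∈ τ} := by
    intro τ
    refine small_of_injective (β := (ZFSet.sUnion (ZFSet.sUnion τ)))
      (f := fun ρ => ⟨ρ.1, ?_⟩) fun a b h => Subtype.ext (Subtype.mk.inj h)
    obtain ⟨q, -, h⟩ := ρ.2
    exact ZFSet.mem_sUnion.2 ⟨{ρ.1}, ZFSet.mem_sUnion.2 ⟨_, h, by simp [ZFSet.pair]⟩, by simp⟩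
  let wf : WellFounded fun a b : ZFSet.{0} => a.rank < b.rank :=
    InvImage.wf ZFSet.rank wellFounded_lt
  refine ⟨wf.fix fun τ rec => ZFSet.range
    fun ρ : {ρ : ZFSet.{0} // ∃ q, q ∈ H ∧ ZFSet.pair ρ q ∈ τ} =>
      rec ρ.1 (hlt ρ.2.choose_spec.2), fun τ x => ?_⟩
  rw [WellFounded.fix_eq, ZFSet.mem_range]
  constructor
  · rintro ⟨⟨ρ, q, h1, h2⟩, rfl⟩
    exact ⟨ρ, q, h1, h2, rfl⟩
  · rintro ⟨ρ, q, h1, h2, rfl⟩
    exact ⟨⟨ρ, q, h1, h2⟩, rfl⟩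

lemma wf_ev_lt {K : Type u} {Y : Type v} [Preorder Y] [WellFoundedLT Y] (F : Filter K) [NeBot F]
    [CountableInterFilter F] : WellFounded fun f g : K → Y => ∀ᶠ α in F, f α < g α := by
  rw [wellFounded_iff_isEmpty_descending_chain]
  refine ⟨fun ⟨f, hf⟩ => ?_⟩
  obtain ⟨α, hα⟩ := (eventually_countable_forall.2 hf).exists
  exact (wellFounded_iff_isEmpty_descending_chain.1 (wellFounded_lt (α := Y))).false
    ⟨fun n => f n α, hα⟩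

section general

variable {B : Type u} [CompleteBooleanAlgebra B]

/-- The canonical name, for a second forcing with largest element named `t`, of a set. -/
noncomputable def chk (t : Name B) : Name B → Name B
  | .mk ι A b => .mk ι (fun i => op (chk t (A i)) t) b

variable (B) in
lemma ev_chk : ∀ᶠ C in gen B, ∀ (H : Set ZFSet.{0}) val, IsValuation H val →
    ∀ t : Name B, C.val t ∈ H → ∀ x : Name B, val (C.val (chk t x)) = C.val x := by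
  filter_upwards [ev_op B] with C hop H val hval t ht x
  induction x with
  | mk ι A b ih =>
    ext z
    rw [hval, C.mem_val_mk]
    simp only [chk, C.mem_val_mk, hop, ZFSet.pair_inj]
    constructor
    · rintro ⟨_, _, -, ⟨i, hi, hb, rfl, rfl⟩, rfl⟩
      exact ⟨i, hi, hb, (ih i).symm⟩
    · rintro ⟨i, hi, hb, rfl⟩
      exact ⟨_, _, ht, ⟨i, hi, hb, rfl, rfl⟩, (ih i).symm⟩

variable (P : Type u) [Preorder P]

variable (B) in
noncomputable def Pn : Name B := Name.mk P (pn B) fun _ => ⊤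

variable (B) in
noncomputable def Rn : Name B :=
  Name.mk (P × P) (fun k => op (pn B k.1) (pn B k.2)) fun k => tv B (k.1 ≤ k.2)

variable {P}

noncomputable def Ctx.c (C : Ctx B) (p : P) : ZFSet.{0} := C.val (pn B p)

omit [Preorder P] in
lemma Ctx.mem_Pn (C : Ctx B) (z : ZFSet.{0}) :
    z ∈ C.val (Pn B P) ↔ ∃ p : P, C.In p ∧ C.c p = z := by
  simp [Pn, C.mem_val_mk, C.top_mem, Ctx.c]

variable (B P) in
lemma ev_Rn : ∀ᶠ C in gen B, ∀ z, z ∈ C.val (Rn B P) ↔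
    ∃ p q : P, C.In p ∧ C.In q ∧ p ≤ q ∧ ZFSet.pair (C.c p) (C.c q) = z := by
  filter_upwards [ev_op B, cl1 B (S2 := fun _ => P) (fun k : P × P => k.1),
    cl1 B (S2 := fun _ => P) (fun k : P × P => k.2),
    cl2 B (S3 := fun _ _ => P × P) (fun p q : P => (p, q))] with C hop h1 h2 h3 z
  simp only [Rn, C.mem_val_mk, hop, C.tv_mem]
  constructor
  · rintro ⟨k, hk, h, rfl⟩
    exact ⟨k.1, k.2, h1 k hk, h2 k hk, h, rfl⟩
  · rintro ⟨p, q, hp, hq, h, rfl⟩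
    exact ⟨(p, q), h3 p hp q hq, h, rfl⟩

variable (B P) in
lemma ev_Rn' : ∀ᶠ C in gen B, (∀ x y, ZFSet.pair x y ∈ C.val (Rn B P) →
    ∃ p q : P, C.In p ∧ C.In q ∧ p ≤ q ∧ C.c p = x ∧ C.c q = y) ∧
    ∀ p q : P, C.In p → C.In q → (ZFSet.pair (C.c p) (C.c q) ∈ C.val (Rn B P) ↔ p ≤ q) := by
  filter_upwards [ev_Rn B P] with C h
  refine ⟨fun x y hxy => by simpa only [h, ZFSet.pair_inj] using hxy, fun p q hp hq => ?_⟩
  rw [h]
  refine ⟨?_, fun h => ⟨p, q, hp, hq, h, rfl⟩⟩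
  rintro ⟨p', q', hp', hq', h, he⟩
  rw [ZFSet.pair_inj] at he
  rwa [← C.pn_inj hp' hp he.1, ← C.pn_inj hq' hq he.2]

end general

namespace Setup

variable {K : Type u} [LinearOrder K] [WellFoundedLT K] (s : Setup K)

lemma ev_closed : ∀ᶠ C in gen s.B,
    ClosedForcing C.N (C.o s.g0) (C.val (Pn s.B s.P)) (C.val (Rn s.B s.P)) := by
  have : Nonempty s.P := ⟨⊤⟩
  filter_upwards [ev_Rn s.B s.P, ev_Rn' s.B s.P, cl0 s.B (Pn s.B s.P), cl0 s.B (Rn s.B s.P),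
    cl0 s.B (⊤ : s.P), ev_capture (I := Set K × s.Γ) (K := K) (fun t : s.P => pn s.B t),
    sk2 s.B (S3 := fun _ _ => K × K) (fun (h : K → s.P) (d : K) k =>
      k.1 < k.2 ∧ k.2 < d ∧ ¬ h k.2 ≤ h k.1),
    cl1 s.B (S2 := fun _ => K) (fun k : K × K => k.1),
    cl1 s.B (S2 := fun _ => K) (fun k : K × K => k.2),
    sk2 s.B (S3 := fun _ _ => s.P) (fun (h : K → s.P) (d : K) r => ∀ ξ < d, r ≤ h ξ)]
    with C hR hR' h1 h2 h3 hcap hsk hf1 hf2 hlb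
  refine ⟨Ctx.val_mem_N h1, Ctx.val_mem_N h2, fun h => ?_, fun z hz => ?_, fun z hz => ?_,
    fun x y z hxy hyz => ?_, fun δ hδ => ?_⟩
  · exact ZFSet.notMem_empty _ (h ▸ (C.mem_Pn _).2 ⟨⊤, h3, rfl⟩)
  · obtain ⟨p, q, hp, hq, -, rfl⟩ := (hR z).1 hz
    exact ZFSet.pair_mem_prod.2 ⟨(C.mem_Pn _).2 ⟨p, hp, rfl⟩, (C.mem_Pn _).2 ⟨q, hq, rfl⟩⟩
  · obtain ⟨p, hp, rfl⟩ := (C.mem_Pn _).1 hz
    exact (hR'.2 p p hp hp).2 le_rfl
  · obtain ⟨p, q, hp, hq, h, rfl, rfl⟩ := hR'.1 _ _ hxy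
    obtain ⟨q', r, hq', hr, h', he, rfl⟩ := hR'.1 _ _ hyz
    obtain rfl := C.pn_inj hq' hq he
    exact (hR'.2 p r hp hr).2 (h.trans h')
  rintro _ ⟨f, hf, rfl⟩ hfun hdec
  obtain ⟨d, hd, hdg, rfl⟩ := (C.mem_o _ _).1 hδ
  have hc : (Iio d).Countable := (s.cnt_lt d hdg).mono Iio_subset_Iic_self
  obtain ⟨h, hh, hcap⟩ := hcap f hf d hd hc
  have hval : ∀ ξ < d, C.In ξ → ZFSet.pair (C.o ξ) (C.c (h ξ)) ∈ C.val f := by
    intro ξ hξ hξ'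
    obtain ⟨y, hy, -⟩ := hfun.2 _ (C.o_mem_o_of_lt hξ' hξ)
    obtain ⟨p, hp, rfl⟩ := (C.mem_Pn _).1 (ZFSet.pair_mem_prod.1 (hfun.1 hy)).2
    exact (hcap ξ hξ hξ').2 p hp hy
  have hmono : ∀ ξ η, ξ < η → η < d → h η ≤ h ξ := by
    by_contra hn
    push Not at hn
    obtain ⟨ξ, η, k⟩ := hn
    obtain ⟨k, hk, k1, k2, k3⟩ := hsk h hh d hd ⟨(ξ, η), k⟩
    have j1 := hf1 k hk
    have j2 := hf2 k hk
    exact k3 ((hR'.2 _ _ (hcap _ k2 j2).1 (hcap _ (k1.trans k2) j1).1).1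
      (hdec _ _ _ _ (C.o_mem_o_of_lt j1 k1) (hval _ (k1.trans k2) j1) (hval _ k2 j2)))
  obtain ⟨r, hr, hr'⟩ := hlb h hh d hd (by
    have := hc.to_subtype
    obtain ⟨r, hr⟩ := Cond.exists_lb_chain (fun ξ : Iio d => h ξ.1) fun ξ η => by
      rcases lt_trichotomy ξ.1 η.1 with k | k | k
      · exact Or.inr (hmono _ _ k η.2)
      · rw [k]; exact Or.inl le_rfl
      · exact Or.inl (hmono _ _ k ξ.2)
    exact ⟨r, fun ξ hξ => hr ⟨ξ, hξ⟩⟩)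
  refine ⟨_, (C.mem_Pn _).2 ⟨r, hr, rfl⟩, fun ξ p hp => ?_⟩
  obtain ⟨ξ, hξ, hξd, rfl⟩ := (C.mem_o _ _).1 (ZFSet.pair_mem_prod.1 (hfun.1 hp)).1
  rw [IsFunc_unique hfun hp (hval ξ hξd hξ)]
  exact (hR'.2 _ _ hr (hcap _ hξd hξ).1).2 (hr' ξ hξd)

end Setup

end Pool.Agent.Lib.MP_446da5_lc.Full
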