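import Mathlib

set_option autoImplicit false

open Filter Set

namespace Pool.Agent.Lib.MP_446da5_lc.Full

universe u v w

/-- A big type into which all objects of interest are coded. -/
def Obj : Type (u + 2) := (T : Type (u + 1)) × T

instance : Inhabited Obj.{u} := ⟨⟨PUnit, PUnit.unit⟩⟩

/-- Types whose elements are coded as objects. -/
class Cd (B : Type u) (T : Type v) where
  c : T → Obj.{u}
  inj : Function.Injective c

instance cdBig (B : Type u) (T : Type (u + 1)) : Cd B T where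
  c t := ⟨T, t⟩
  inj := fun _ _ h => eq_of_heq (Sigma.mk.inj h).2

instance cdSmall (B : Type u) (T : Type u) : Cd B T where
  c t := ⟨ULift.{u + 1} T, ULift.up t⟩
  inj := fun _ _ h => ULift.up_injective (eq_of_heq (Sigma.mk.inj h).2)

/-- A countable set of objects together with a filter on `B`. -/
structure Ctx (B : Type u) [CompleteBooleanAlgebra B] where
  X : Set Obj.{u}
  G : Set B
  cnt : X.Countable
  top_mem : ⊤ ∈ G
  bot_notMem : ⊥ ∉ G
  up : ∀ {a b}, a ∈ G → a ≤ b → b ∈ G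
  inf_mem : ∀ {a b}, a ∈ G → b ∈ G → a ⊓ b ∈ G

variable {B : Type u} [CompleteBooleanAlgebra B]

namespace Ctx

def In (C : Ctx B) {T : Type v} (t : T) [Cd B T] : Prop := Cd.c B t ∈ C.X

def Meets (C : Ctx B) (r : Obj.{u} → B) : Prop := (⨆ o, r o)ᶜ ∈ C.G ∨ ∃ o ∈ C.X, r o ∈ C.G

def Has (C : Ctx B) (F : List Obj.{u} → Obj.{u} → B) : Prop :=
  ∀ l : List Obj.{u}, (∀ o ∈ l, o ∈ C.X) → C.Meets (F l)

lemma countable_In (C : Ctx B) (T : Type v) [Cd B T] : {t : T | C.In t}.Countable :=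
  C.cnt.preimage_of_injOn (Cd.inj (B := B)).injOn

lemma ne_bot (C : Ctx B) {b : B} (hb : b ∈ C.G) : b ≠ ⊥ := fun h => C.bot_notMem (h ▸ hb)

lemma not_both (C : Ctx B) {b : B} (h : b ∈ C.G) (h' : bᶜ ∈ C.G) : False :=
  C.ne_bot (C.inf_mem h h') (by simp)

lemma inf_iff (C : Ctx B) {a b : B} : a ⊓ b ∈ C.G ↔ a ∈ C.G ∧ b ∈ C.G :=
  ⟨fun h => ⟨C.up h inf_le_left, C.up h inf_le_right⟩, fun h => C.inf_mem h.1 h.2⟩

lemma mp (C : Ctx B) {a b : B} (h : a ⇨ b ∈ C.G) (ha : a ∈ C.G) : b ∈ C.G :=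
  C.up (C.inf_mem h ha) himp_inf_le

lemma himp_of_right (C : Ctx B) {a b : B} (h : b ∈ C.G) : a ⇨ b ∈ C.G := C.up h le_himp

lemma himp_of_compl (C : Ctx B) {a b : B} (h : aᶜ ∈ C.G) : a ⇨ b ∈ C.G :=
  C.up h (by rw [himp_eq]; exact le_sup_right)

lemma sup_of (C : Ctx B) {K : Sort*} {b : K → B} (k : K) (h : b k ∈ C.G) : ⨆ k, b k ∈ C.G :=
  C.up h (le_iSup b k)

lemma of_inf (C : Ctx B) {K : Sort*} {b : K → B} (h : ⨅ k, b k ∈ C.G) (k : K) : b k ∈ C.G :=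
  C.up h (iInf_le b k)

end Ctx

lemma exists_idx (L : List Obj.{u}) : ∀ l : List Obj.{u}, (∀ o ∈ l, o ∈ L) →
    ∃ idx : List ℕ, ∀ L', L <+: L' → idx.map (fun j => L'.getD j default) = l
  | [], _ => ⟨[], fun _ _ => rfl⟩
  | o :: l, h => by
    obtain ⟨idx, hidx⟩ := exists_idx L l (fun o ho => h o (List.mem_cons_of_mem _ ho))
    obtain ⟨j, hj, rfl⟩ := List.getElem_of_mem (h o List.mem_cons_self)
    refine ⟨j :: idx, fun L' hL => ?_⟩
    rw [List.map_cons, hidx L' hL]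
    obtain ⟨t, rfl⟩ := hL
    simp [List.getD, List.getElem?_append_left hj, List.getElem?_eq_getElem hj]

lemma exists_step (r : Obj.{u} → B) (p : B) (hp : p ≠ ⊥) :
    ∃ (q : B) (o : Obj.{u}), q ≠ ⊥ ∧ q ≤ p ∧ (q ≤ (⨆ o, r o)ᶜ ∨ q ≤ r o) := by
  by_cases h : p ⊓ (⨆ o, r o) = ⊥
  · exact ⟨p, default, hp, le_rfl, Or.inl (le_compl_iff_disjoint_right.2 (disjoint_iff.2 h))⟩
  · rw [inf_iSup_eq, iSup_eq_bot] at h
    push Not at h
    obtain ⟨o, ho⟩ := h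
    exact ⟨p ⊓ r o, o, ho, inf_le_left, Or.inr inf_le_right⟩

theorem exists_ctx [Nontrivial B] (R : ℕ → List Obj.{u} → Obj.{u} → B) :
    ∃ C : Ctx B, ∀ i, C.Has (R i) := by
  choose! q o hq0 hq1 hq2 using exists_step (B := B)
  obtain ⟨dec, hdec⟩ := exists_surjective_nat (ℕ × List ℕ)
  let task : ℕ → List Obj.{u} → Obj.{u} → B := fun n L =>
    R (dec n.unpair.1).1 ((dec n.unpair.1).2.map (fun j => L.getD j default))
  let s : ℕ → B × List Obj.{u} := fun n => Nat.rec (⊤, [])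
    (fun n st => (q (task n st.2) st.1, st.2 ++ [o (task n st.2) st.1])) n
  have hs : ∀ n, s (n + 1) =
      (q (task n (s n).2) (s n).1, (s n).2 ++ [o (task n (s n).2) (s n).1]) := fun _ => rfl
  have hne : ∀ n, (s n).1 ≠ ⊥ := by
    intro n
    induction n with
    | zero => exact top_ne_bot
    | succ n ih => rw [hs]; exact hq0 _ _ ih
  have hanti : Antitone fun n => (s n).1 :=
    antitone_nat_of_succ_le fun n => by rw [hs]; exact hq1 _ _ (hne n)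
  have hpre : ∀ m n, m ≤ n → (s m).2 <+: (s n).2 := by
    intro m n hmn
    induction hmn with
    | refl => exact List.prefix_rfl
    | step _ ih => rw [hs]; exact ih.trans (List.prefix_append _ _)
  refine ⟨⟨{o | ∃ n, o ∈ (s n).2}, {b | ∃ n, (s n).1 ≤ b}, ?_, ⟨0, le_top⟩, ?_, ?_, ?_⟩, ?_⟩
  · rw [show {o | ∃ n, o ∈ (s n).2} = ⋃ n, {o | o ∈ (s n).2} by ext; simp]
    exact countable_iUnion fun n => (List.finite_toSet _).countable
  · rintro ⟨n, hn⟩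
    exact hne n (le_bot_iff.1 hn)
  · rintro a b ⟨n, hn⟩ hab
    exact ⟨n, hn.trans hab⟩
  · rintro a b ⟨m, hm⟩ ⟨n, hn⟩
    exact ⟨max m n, le_inf ((hanti (le_max_left _ _)).trans hm)
      ((hanti (le_max_right _ _)).trans hn)⟩
  · intro i l hl
    have hex : ∃ n, ∀ o ∈ l, o ∈ (s n).2 := by
      induction l with
      | nil => exact ⟨0, by simp⟩
      | cons a l ih =>
        obtain ⟨n, hn⟩ := ih (fun o ho => hl o (List.mem_cons_of_mem _ ho))
        obtain ⟨m, hm⟩ := hl a List.mem_cons_self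
        refine ⟨max m n, fun o ho => ?_⟩
        rcases List.mem_cons.1 ho with rfl | ho
        · exact (hpre _ _ (le_max_left _ _)).subset hm
        · exact (hpre _ _ (le_max_right _ _)).subset (hn o ho)
    obtain ⟨n, hn⟩ := hex
    obtain ⟨idx, hidx⟩ := exists_idx _ l hn
    obtain ⟨a, ha⟩ := hdec (i, idx)
    set m := Nat.pair a n with hm
    have htask : task m (s m).2 = R i l := by
      simp only [task, hm, Nat.unpair_pair, ha]
      rw [hidx _ (hpre _ _ (Nat.right_le_pair a n))]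
    rcases hq2 (task m (s m).2) (s m).1 (hne m) with h | h
    · left
      refine ⟨m + 1, ?_⟩
      rw [hs, ← htask]
      exact h
    · right
      refine ⟨o (task m (s m).2) (s m).1, ⟨m + 1, by rw [hs]; simp⟩, m + 1, ?_⟩
      rw [hs, ← htask]
      exact h

/-- The filter of properties shared by all sufficiently closed and generic contexts. -/
def gen (B : Type u) [CompleteBooleanAlgebra B] : Filter (Ctx B) where
  sets := {P | ∃ R : Set (List Obj.{u} → Obj.{u} → B), R.Countable ∧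
    ∀ C : Ctx B, (∀ F ∈ R, C.Has F) → C ∈ P}
  univ_sets := ⟨∅, countable_empty, fun _ _ => trivial⟩
  sets_of_superset := fun ⟨R, hR, h⟩ hPQ => ⟨R, hR, fun C hC => hPQ (h C hC)⟩
  inter_sets := fun ⟨R, hR, h⟩ ⟨R', hR', h'⟩ => ⟨R ∪ R', hR.union hR', fun C hC =>
    ⟨h C fun F hF => hC F (Or.inl hF), h' C fun F hF => hC F (Or.inr hF)⟩⟩

instance : CountableInterFilter (gen B) where
  countable_sInter_mem S hS h := by
    choose! R hR h using h
    exact ⟨⋃ P ∈ S, R P, hS.biUnion hR, fun C hC P hP =>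
      h P hP C fun F hF => hC F (mem_biUnion hP hF)⟩

instance [Nontrivial B] : NeBot (gen B) := by
  refine ⟨fun h => ?_⟩
  have : (∅ : Set (Ctx B)) ∈ gen B := by rw [h]; exact mem_bot
  obtain ⟨R, hR, h⟩ := this
  obtain ⟨f, hf⟩ := (hR.insert (fun _ _ => ⊥)).exists_eq_range (insert_nonempty _ _)
  obtain ⟨C, hC⟩ := exists_ctx f
  refine h C fun F hF => ?_
  obtain ⟨i, rfl⟩ : F ∈ range f := hf ▸ mem_insert_of_mem _ hF
  exact hC i

lemma ev_has (F : List Obj.{u} → Obj.{u} → B) : ∀ᶠ C in gen B, C.Has F :=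
  ⟨{F}, countable_singleton _, fun _ hC => hC F rfl⟩

open Classical in
noncomputable def gcons {S : Type v} (f : S → List Obj.{u} → Obj.{u} → B) [Cd B S] :
    List Obj.{u} → Obj.{u} → B
  | [] => fun _ => ⊥
  | o :: l => if h : ∃ s : S, Cd.c B s = o then f h.choose l else fun _ => ⊥

lemma gcons_cons {S : Type v} [Cd B S] (f : S → List Obj.{u} → Obj.{u} → B) (s : S)
    (l : List Obj.{u}) : gcons f (Cd.c B s :: l) = f s l := by
  have h : ∃ s' : S, Cd.c B s' = Cd.c B s := ⟨s, rfl⟩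
  simp only [gcons, dif_pos h]
  rw [Cd.inj (B := B) h.choose_spec]

lemma Ctx.Has.cons {C : Ctx B} {S : Type v} [Cd B S] {f : S → List Obj.{u} → Obj.{u} → B}
    (h : C.Has (gcons f)) {s : S} (hs : C.In s) : C.Has (f s) := by
  intro l hl
  rw [← gcons_cons f s l]
  apply h
  intro o ho
  rcases List.mem_cons.1 ho with rfl | ho
  · exact hs
  · exact hl o ho

/-- `C` decides the supremum of the family `b`, with a witness in `C`. -/
def Ctx.Dec (C : Ctx B) {K : Type v} (b : K → B) [Cd B K] : Prop :=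
  (⨆ k, b k)ᶜ ∈ C.G ∨ ∃ k, C.In k ∧ b k ∈ C.G

noncomputable def gnil {K : Type v} (b : K → B) [Cd B K] : List Obj.{u} → Obj.{u} → B :=
  fun _ o => ⨆ (k : K) (_ : Cd.c B k = o), b k

lemma Ctx.Has.nil {C : Ctx B} {K : Type v} [Cd B K] {b : K → B} (h : C.Has (gnil b)) :
    C.Dec b := by
  rcases h [] (by simp) with h | ⟨o, ho, h⟩
  · left
    convert h using 2
    simp only [gnil]
    rw [iSup_comm]
    simp
  · right
    have h1 := C.ne_bot h
    simp only [gnil, ne_eq, iSup_eq_bot, not_forall] at h1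
    obtain ⟨k, rfl, -⟩ := h1
    refine ⟨k, ho, C.up h ?_⟩
    simp only [gnil, iSup_le_iff]
    intro k' hk'
    rw [Cd.inj (B := B) hk']

lemma Ctx.Dec.sup {C : Ctx B} {K : Type v} [Cd B K] {b : K → B} (h : C.Dec b)
    (hb : ⨆ k, b k ∈ C.G) : ∃ k, C.In k ∧ b k ∈ C.G :=
  h.resolve_left (C.not_both hb)

lemma Ctx.Dec.of_top {C : Ctx B} {K : Type v} [Cd B K] {b : K → B} (h : C.Dec b)
    (hb : ⨆ k, b k = ⊤) : ∃ k, C.In k ∧ b k ∈ C.G :=
  h.sup (hb ▸ C.top_mem)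

lemma Ctx.Dec.inf {C : Ctx B} {K : Type v} [Cd B K] {b : K → B} (h : C.Dec fun k => (b k)ᶜ)
    (hb : ∀ k, C.In k → b k ∈ C.G) : ⨅ k, b k ∈ C.G := by
  rcases h with h | ⟨k, hk, h⟩
  · rwa [← compl_iInf, compl_compl] at h
  · exact (C.not_both (hb k hk) h).elim

section ev

universe v1 v2 v3 v4 v5

variable {S1 : Type v1} {S2 : S1 → Type v2} {S3 : ∀ a, S2 a → Type v3}
  {S4 : ∀ a b, S3 a b → Type v4} {S5 : ∀ a b c, S4 a b c → Type v5}

lemma dec0 (b : S1 → B)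
    [Cd B S1] : ∀ᶠ C in gen B, C.Dec b :=
  (ev_has (gnil b)).mono fun _ h => h.nil

lemma dec1 (b : ∀ a, S2 a → B)
    [Cd B S1] [∀ a, Cd B (S2 a)] : ∀ᶠ C in gen B, ∀ a, C.In a → C.Dec (b a) :=
  (ev_has (gcons fun a => gnil (b a))).mono fun _ h _ ha => (h.cons ha).nil

lemma dec2 (b : ∀ a a', S3 a a' → B)
    [Cd B S1] [∀ a, Cd B (S2 a)] [∀ a b, Cd B (S3 a b)] :
    ∀ᶠ C in gen B, ∀ a, C.In a → ∀ a', C.In a' → C.Dec (b a a') :=
  (ev_has (gcons fun a => gcons fun a' => gnil (b a a'))).mono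
    fun _ h _ ha _ ha' => ((h.cons ha).cons ha').nil

lemma dec3 (b : ∀ a a' a'', S4 a a' a'' → B)
    [Cd B S1] [∀ a, Cd B (S2 a)] [∀ a b, Cd B (S3 a b)]
    [∀ a b c, Cd B (S4 a b c)] :
    ∀ᶠ C in gen B, ∀ a, C.In a → ∀ a', C.In a' → ∀ a'', C.In a'' → C.Dec (b a a' a'') :=
  (ev_has (gcons fun a => gcons fun a' => gcons fun a'' => gnil (b a a' a''))).mono
    fun _ h _ ha _ ha' _ ha'' => (((h.cons ha).cons ha').cons ha'').nil

lemma dec4 (b : ∀ a1 a2 a3 a4, S5 a1 a2 a3 a4 → B)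
    [Cd B S1] [∀ a, Cd B (S2 a)] [∀ a b, Cd B (S3 a b)]
    [∀ a b c, Cd B (S4 a b c)] [∀ a b c d, Cd B (S5 a b c d)] :
    ∀ᶠ C in gen B, ∀ a1, C.In a1 → ∀ a2, C.In a2 → ∀ a3, C.In a3 → ∀ a4, C.In a4 →
      C.Dec (b a1 a2 a3 a4) :=
  (ev_has (gcons fun a1 => gcons fun a2 => gcons fun a3 => gcons fun a4 =>
    gnil (b a1 a2 a3 a4))).mono
    fun _ h _ h1 _ h2 _ h3 _ h4 => ((((h.cons h1).cons h2).cons h3).cons h4).nil

open Classical in
lemma Ctx.Dec.skolem {C : Ctx B} {K : Type v} [Cd B K] {φ : K → Prop}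
    (h : C.Dec fun k => if φ k then (⊤ : B) else ⊥) (hφ : ∃ k, φ k) : ∃ k, C.In k ∧ φ k := by
  obtain ⟨k, hk⟩ := hφ
  obtain ⟨k', hk', h'⟩ := h.of_top (top_le_iff.1 (le_iSup_of_le k (by simp [hk])))
  refine ⟨k', hk', ?_⟩
  by_contra hn
  exact C.ne_bot h' (by simp [hn])

variable (B) in
lemma sk0 (φ : S1 → Prop)
    [Cd B S1] : ∀ᶠ C in gen B, (∃ k, φ k) → ∃ k, C.In k ∧ φ k :=
  (dec0 _).mono fun _ h => h.skolem

variable (B) in
lemma sk1 (φ : ∀ a, S2 a → Prop)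
    [Cd B S1] [∀ a, Cd B (S2 a)] :
    ∀ᶠ C in gen B, ∀ a, C.In a → (∃ k, φ a k) → ∃ k, C.In k ∧ φ a k :=
  (dec1 _).mono fun _ h a ha => (h a ha).skolem

variable (B) in
lemma sk2 (φ : ∀ a a', S3 a a' → Prop)
    [Cd B S1] [∀ a, Cd B (S2 a)] [∀ a b, Cd B (S3 a b)] :
    ∀ᶠ C in gen B, ∀ a, C.In a → ∀ a', C.In a' → (∃ k, φ a a' k) → ∃ k, C.In k ∧ φ a a' k :=
  (dec2 _).mono fun _ h a ha a' ha' => (h a ha a' ha').skolem

variable (B) in
lemma sk3 (φ : ∀ a a' a'', S4 a a' a'' → Prop)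
    [Cd B S1] [∀ a, Cd B (S2 a)] [∀ a b, Cd B (S3 a b)]
    [∀ a b c, Cd B (S4 a b c)] :
    ∀ᶠ C in gen B, ∀ a, C.In a → ∀ a', C.In a' → ∀ a'', C.In a'' →
      (∃ k, φ a a' a'' k) → ∃ k, C.In k ∧ φ a a' a'' k :=
  (dec3 _).mono fun _ h a ha a' ha' a'' ha'' => (h a ha a' ha' a'' ha'').skolem

variable (B) in
lemma cl0 (t : S1)
    [Cd B S1] : ∀ᶠ C in gen B, C.In t :=
  (sk0 B (fun k => k = t)).mono fun _ h => by
    obtain ⟨k, hk, rfl⟩ := h ⟨t, rfl⟩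
    exact hk

variable (B) in
lemma cl1 (f : ∀ a, S2 a)
    [Cd B S1] [∀ a, Cd B (S2 a)] : ∀ᶠ C in gen B, ∀ a, C.In a → C.In (f a) :=
  (sk1 B (fun a k => k = f a)).mono fun _ h a ha => by
    obtain ⟨k, hk, rfl⟩ := h a ha ⟨_, rfl⟩
    exact hk

variable (B) in
lemma cl2 (f : ∀ a a', S3 a a')
    [Cd B S1] [∀ a, Cd B (S2 a)] [∀ a b, Cd B (S3 a b)] :
    ∀ᶠ C in gen B, ∀ a, C.In a → ∀ a', C.In a' → C.In (f a a') :=
  (sk2 B (fun a a' k => k = f a a')).mono fun _ h a ha a' ha' => by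
    obtain ⟨k, hk, rfl⟩ := h a ha a' ha' ⟨_, rfl⟩
    exact hk

variable (B) in
lemma cl3 (f : ∀ a a' a'', S4 a a' a'')
    [Cd B S1] [∀ a, Cd B (S2 a)] [∀ a b, Cd B (S3 a b)]
    [∀ a b c, Cd B (S4 a b c)] :
    ∀ᶠ C in gen B, ∀ a, C.In a → ∀ a', C.In a' → ∀ a'', C.In a'' → C.In (f a a' a'') :=
  (sk3 B (fun a a' a'' k => k = f a a' a'')).mono fun _ h a ha a' ha' a'' ha'' => by
    obtain ⟨k, hk, rfl⟩ := h a ha a' ha' a'' ha'' ⟨_, rfl⟩
    exact hk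

end ev

variable (B) in
/-- `G` decides every element of `B` that lies in the hull. -/
lemma ev_ultra : ∀ᶠ C in gen B, ∀ b : B, C.In b → b ∈ C.G ∨ bᶜ ∈ C.G :=
  (dec1 (S2 := fun _ : B => PUnit.{u + 1}) (fun b _ => b)).mono fun _ h b hb => by
    rcases h b hb with h | ⟨_, _, h⟩
    · right; simpa using h
    · exact Or.inl h

end Pool.Agent.Lib.MP_446da5_lc.Full
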