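import Pool.Agent.Lib.MP_446da5_lc.Full.Setup

set_option autoImplicit false

open Filter Set
open scoped symmDiff

namespace Pool.Agent.Lib.MP_446da5_lc.Full

universe u v

open Name

section general

variable {B : Type u} [CompleteBooleanAlgebra B]

lemma le_bi_bmem {x x' y : Name B} {b : B} (h : b ≤ beq x x') : b ≤ bmem x y ⇔ bmem x' y :=
  le_bi_iff'.2 ⟨(inf_le_inf_right _ h).trans (bmem_congr_left _ _ _),
    (inf_le_inf_right _ (beq_symm x x' ▸ h)).trans (bmem_congr_left _ _ _)⟩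

lemma Ctx.bi_iff (C : Ctx B) {a b : B} (ha : a ∈ C.G ∨ aᶜ ∈ C.G) (hb : b ∈ C.G ∨ bᶜ ∈ C.G) :
    a ⇔ b ∈ C.G ↔ (a ∈ C.G ↔ b ∈ C.G) := by
  constructor
  · intro h
    exact ⟨fun h' => C.up (C.inf_mem h h') (le_bi_iff'.1 le_rfl).1,
      fun h' => C.up (C.inf_mem h h') (le_bi_iff'.1 le_rfl).2⟩
  · intro h
    rcases ha with ha | ha
    · exact C.up (C.inf_mem ha (h.1 ha)) inf_le_bihimp
    · rcases hb with hb | hb
      · exact (C.not_both (h.2 hb) ha).elim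
      · refine C.up (C.inf_mem ha hb) (le_bi_iff'.2 ⟨?_, ?_⟩)
        · rw [inf_right_comm]; simp
        · rw [inf_assoc]; simp

variable {K : Type u} [LinearOrder K] [WellFoundedLT K] {g0 : K}

noncomputable def DD (a : Iio g0 → K → B) (g : Iio g0 → B) (ζ : Iio g0) (x : K) : B :=
  ⨅ (η : Iio g0) (_ : η < ζ), a η x ⇔ g η

noncomputable def seqN (F : Iio g0 → K → B) (l : Iio g0 → B) : Name B :=
  Name.mk (Iio g0) (fun ζ => op (on B ζ.1) (sub (F ζ))) l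

noncomputable def posn (a : Iio g0 → K → B) (g : Iio g0 → B) (ξ : Iio g0) : Name B :=
  seqN (fun ζ x => DD a g ζ x ⊓ a ζ x) fun ζ => tv B (ζ ≤ ξ)

lemma posn_congr {a a' : Iio g0 → K → B} {g g' : Iio g0 → B} {ξ : Iio g0} {b : B}
    (ha : ∀ ζ ≤ ξ, ∀ x, b ≤ a ζ x ⇔ a' ζ x) (hg : ∀ η < ξ, b ≤ g η ⇔ g' η) :
    b ≤ beq (posn a g ξ) (posn a' g' ξ) := by
  refine le_beq_mk (fun _ => inf_le_right) (fun _ => inf_le_right) fun ζ => ?_
  by_cases hζ : ζ ≤ ξ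
  swap
  · rw [tv_neg hζ]; simp
  refine inf_le_left.trans (le_beq_op (by rw [beq_refl]; exact le_top) ?_)
  have key : ∀ {a a' : Iio g0 → K → B} {g g' : Iio g0 → B},
      (∀ ζ ≤ ξ, ∀ x, b ≤ a ζ x ⇔ a' ζ x) → (∀ η < ξ, b ≤ g η ⇔ g' η) → ∀ x,
      b ⊓ (DD a g ζ x ⊓ a ζ x) ≤ DD a' g' ζ x ⊓ a' ζ x := by
    intro a a' g g' ha hg x
    refine le_inf (le_iInf₂ fun η hη => ?_) ?_
    · exact bi_trans (bi_symm (inf_le_left.trans (ha η (hη.le.trans hζ) x)))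
        (bi_trans ((inf_le_right.trans inf_le_left).trans (iInf₂_le η hη))
          (inf_le_left.trans (hg η (hη.trans_le hζ))))
    · exact (inf_le_inf_left _ inf_le_right).trans (le_bi_iff'.1 (ha ζ hζ x)).1
  exact le_beq_mk (key ha hg) (key (fun ζ h x => bi_symm (ha ζ h x)) fun η h => bi_symm (hg η h))
    fun _ => by rw [beq_refl]; exact le_top

/-- The Boolean-valued strategy induced by a name. -/
noncomputable def strat (σ : Name B) (a : Iio g0 → K → B) : Iio g0 → B :=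
  (exists_fix (fun ξ g => bmem (posn a g ξ) σ) ⊥).choose

lemma strat_eq (σ : Name B) (a : Iio g0 → K → B) (ξ : Iio g0) :
    strat σ a ξ = bmem (posn a (strat σ a) ξ) σ := by
  have h := (exists_fix (fun ξ g => bmem (posn a g ξ) σ) ⊥).choose_spec ξ
  refine h.trans ?_
  have := le_bi_iff.1 (le_bi_bmem (y := σ) (posn_congr (b := ⊤) (a := a) (a' := a) (ξ := ξ)
    (g := fun ζ => if ζ < ξ then strat σ a ζ else ⊥) (g' := strat σ a)
    (fun _ _ _ => bi_refl) fun η hη => by rw [if_pos hη]; exact bi_refl))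
  rwa [top_inf_eq, top_inf_eq] at this

lemma strat_local (σ : Name B) : Local (strat (g0 := g0) σ) := by
  intro a a' ξ b
  induction ξ using (wellFounded_lt (α := Iio g0)).induction with
  | _ ξ ih =>
    intro h
    rw [strat_eq, strat_eq σ a']
    exact le_bi_bmem (posn_congr h fun η hη => ih η hη fun ζ hζ => h ζ (hζ.trans hη.le))

omit [WellFoundedLT K] in
lemma CC_eq (S : (Iio g0 → K → B) → Iio g0 → B) (a : Iio g0 → K → B) (ζ : Iio g0) (x : K) :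
    CC S a ζ x = DD a (S a) ζ x ⊓ (a ζ x ⇔ S a ζ) := by
  apply le_antisymm
  · exact le_inf (le_iInf₂ fun η hη => CC_le a x hη.le) (CC_le a x le_rfl)
  · refine le_iInf₂ fun η hη => ?_
    rcases hη.eq_or_lt with rfl | hη
    · exact inf_le_right
    · exact inf_le_left.trans (iInf₂_le η hη)

variable (B g0)

lemma ev_seqN : ∀ᶠ C in gen B, ∀ (F : Iio g0 → K → B) (l : Iio g0 → B) (z : ZFSet.{0}),
    z ∈ C.val (seqN F l) ↔ ∃ ζ : Iio g0, C.In ζ ∧ l ζ ∈ C.G ∧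
      z = ZFSet.pair (C.o ζ.1) (C.val (sub (F ζ))) := by
  filter_upwards [ev_op B] with C h F l z
  simp only [seqN, C.mem_val_mk, h, eq_comm (a := z)]
  rfl

lemma ev_gam : ∀ᶠ C in gen B, (∀ ζ : Iio g0, C.In ζ → C.In ζ.1) ∧
    ∀ z, z ∈ C.o g0 ↔ ∃ ζ : Iio g0, C.In ζ ∧ C.o ζ.1 = z := by
  filter_upwards [cl1 B (S2 := fun _ => K) (fun t : Iio g0 => t.1),
    sk1 B (S2 := fun _ => Iio g0) (fun (y : K) (t : Iio g0) => t.1 = y)] with C h1 h2
  refine ⟨h1, fun z => ?_⟩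
  rw [C.mem_o]
  constructor
  · rintro ⟨y, hy, h, rfl⟩
    obtain ⟨t, ht, rfl⟩ := h2 y hy ⟨⟨y, h⟩, rfl⟩
    exact ⟨t, ht, rfl⟩
  · rintro ⟨t, ht, rfl⟩
    exact ⟨t.1, h1 t ht, t.2, rfl⟩

lemma ev_seq_func : ∀ᶠ C in gen B, ∀ F : Iio g0 → K → B,
    ZFSet.IsFunc (C.o g0) (ZFSet.powerset (C.kap K)) (C.val (seqN F fun _ => ⊤)) ∧
    ∀ ξ y, ZFSet.pair ξ y ∈ C.val (seqN F fun _ => ⊤) ↔
      ∃ ζ : Iio g0, C.In ζ ∧ ξ = C.o ζ.1 ∧ y = C.val (sub (F ζ)) := by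
  filter_upwards [ev_seqN B g0, ev_gam B g0] with C h1 h2 F
  have key : ∀ ξ y, ZFSet.pair ξ y ∈ C.val (seqN F fun _ => ⊤) ↔
      ∃ ζ : Iio g0, C.In ζ ∧ ξ = C.o ζ.1 ∧ y = C.val (sub (F ζ)) := by
    intro ξ y
    simp [h1, C.top_mem]
  refine ⟨⟨fun z hz => ?_, fun z hz => ?_⟩, key⟩
  · obtain ⟨ζ, hζ, -, rfl⟩ := (h1 _ _ _).1 hz
    exact ZFSet.pair_mem_prod.2 ⟨(h2.2 _).2 ⟨ζ, hζ, rfl⟩, ZFSet.mem_powerset.2 (C.sub_subset _)⟩
  · obtain ⟨ζ, hζ, rfl⟩ := (h2.2 _).1 hz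
    refine ⟨_, (key _ _).2 ⟨ζ, hζ, rfl, rfl⟩, fun y hy => ?_⟩
    obtain ⟨ζ', hζ', k1, rfl⟩ := (key _ _).1 hy
    rw [Subtype.ext (C.o_inj (h2.1 _ hζ) (h2.1 _ hζ') k1)]

lemma ev_not_wins [Nonempty (Iio g0)]
    (htop : ∀ σ : Name B, ⨆ a : Iio g0 → K → B, bad (strat σ) a = ⊤) :
    ∀ᶠ C in gen B, ¬ ChooseWinsIn C.N (C.kap K) (C.o g0) := by
  filter_upwards [ev_seqN B g0, ev_gam B g0, ev_seq_func B g0, ev_bmem B, ev_ultra B,
    cl0 B (Classical.arbitrary (Iio g0)),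
    dec1 (S2 := fun _ => Iio g0 → K → B) (fun (σ : Name B) a => bad (strat σ) a),
    cl2 B (S3 := fun _ _ => Name B) (fun (σ : Name B) (a : Iio g0 → K → B) =>
      seqN (fun ζ x => DD a (strat σ a) ζ x ⊓ a ζ x) fun _ => ⊤),
    cl2 B (S3 := fun _ _ => Name B) (fun (σ : Name B) (a : Iio g0 → K → B) =>
      seqN (CC (strat σ) a) fun _ => ⊤),
    cl3 B (S4 := fun _ _ _ => Name B) (fun (σ : Name B) (a : Iio g0 → K → B) (ξ : Iio g0) =>
      posn a (strat σ a) ξ),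
    cl3 B (S4 := fun _ _ _ => B) (fun (σ : Name B) (a : Iio g0 → K → B) (ξ : Iio g0) =>
      strat σ a ξ),
    cl3 B (S4 := fun _ _ _ => B) (fun (a : Iio g0 → K → B) (ξ : Iio g0) (x : K) => a ξ x),
    dec4 (S5 := fun _ _ _ _ => Iio g0) (fun (σ : Name B) (a : Iio g0 → K → B) (ξ : Iio g0)
      (x : K) η => (⨅ (_ : η < ξ), a η x ⇔ strat σ a η)ᶜ),
    dec3 (S4 := fun _ _ _ => Iio g0) (fun (σ : Name B) (a : Iio g0 → K → B)
      (x : K) η => (a η x ⇔ strat σ a η)ᶜ),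
    cl2 B (S3 := fun _ _ => B) (fun (σ : Name B) (a : Iio g0 → K → B) =>
      ⨆ x, FF (strat σ) a x),
    dec2 (S3 := fun _ _ => Iio g0 × K) (fun (σ : Name B) (a : Iio g0 → K → B) k =>
      CC (strat σ) a k.1 k.2 ⊓ (⨆ (y : K) (_ : y ≠ k.2), CC (strat σ) a k.1 y)ᶜ),
    cl1 B (S2 := fun _ => Iio g0) (fun k : Iio g0 × K => k.1),
    cl1 B (S2 := fun _ => K) (fun k : Iio g0 × K => k.2)]
    with C hseq hgam hfun hmem hult h0 hbad hA hC hpos hS ha hD hF hX hY hfst hsnd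
  rintro ⟨_, ⟨σ, hσ, rfl⟩, hwin⟩
  obtain ⟨a, haX, hb⟩ := (hbad σ hσ).of_top (htop σ)
  have hDD : ∀ ζ : Iio g0, C.In ζ → ∀ x : K, C.In x → (DD a (strat σ a) ζ x ∈ C.G ↔
      ∀ η : Iio g0, C.In η → η < ζ → CC (strat σ) a η x ∈ C.G) := by
    intro ζ hζ x hx
    constructor
    · intro h η _ hη
      exact C.up h (le_iInf₂ fun η' hη' => iInf₂_le
        (f := fun (η : Iio g0) (_ : η < ζ) => a η x ⇔ strat σ a η) η' (lt_of_le_of_lt hη' hη))
    · intro h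
      refine (hD σ hσ a haX ζ hζ x hx).inf fun η hη => ?_
      by_cases k : η < ζ
      · rw [iInf_pos k]; exact C.up (h η hη k) (CC_le a x le_rfl)
      · rw [iInf_neg k]; exact C.top_mem
  obtain ⟨w1, x, w2⟩ := hwin _ (Ctx.val_mem_N (hA σ hσ a haX)) _ (Ctx.val_mem_N (hC σ hσ a haX))
    (hfun _).1 (hfun _).1 (by
    intro ξ a' c D k1 k2 hDdef
    obtain ⟨ζ, hζ, rfl, rfl⟩ := ((hfun _).2 _ _).1 k1
    obtain ⟨ζ', hζ', k3, rfl⟩ := ((hfun _).2 _ _).1 k2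
    obtain rfl : ζ = ζ' := Subtype.ext (C.o_inj (hgam.1 _ hζ) (hgam.1 _ hζ') k3)
    have hD' : ∀ z, z ∈ D ↔ ∃ x : K, C.In x ∧ DD a (strat σ a) ζ x ∈ C.G ∧ C.o x = z := by
      intro z
      rw [hDdef, C.mem_kap]
      constructor
      · rintro ⟨⟨x, hx, rfl⟩, h⟩
        refine ⟨x, hx, (hDD ζ hζ x hx).2 fun η hη hlt => ?_, rfl⟩
        exact (C.o_mem_sub _ hx).1 (h _ (C.o_mem_o_of_lt (hgam.1 _ hη) hlt) _
          (((hfun _).2 _ _).2 ⟨η, hη, rfl, rfl⟩))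
      · rintro ⟨x, hx, h, rfl⟩
        refine ⟨⟨x, hx, rfl⟩, fun η' hη' c' hc' => ?_⟩
        obtain ⟨η, hη, rfl, rfl⟩ := ((hfun _).2 _ _).1 hc'
        exact (C.o_mem_sub _ hx).2 ((hDD ζ hζ x hx).1 h η hη
          ((C.o_mem_o (hgam.1 _ hη)).1 hη'))
    have hres : C.val (seqN (fun ζ x => DD a (strat σ a) ζ x ⊓ a ζ x) fun _ => ⊤) ∩
        ZFSet.prod (insert (C.o ζ.1) (C.o ζ.1)) (ZFSet.powerset (C.kap K)) =
        C.val (posn a (strat σ a) ζ) := by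
      ext z
      rw [ZFSet.mem_inter, posn, hseq, hseq]
      constructor
      · rintro ⟨⟨η, hη, -, rfl⟩, h⟩
        refine ⟨η, hη, C.tv_mem.2 ?_, rfl⟩
        rcases ZFSet.mem_insert_iff.1 (ZFSet.pair_mem_prod.1 h).1 with h | h
        · exact (Subtype.ext (C.o_inj (hgam.1 _ hη) (hgam.1 _ hζ) h)).le
        · exact ((C.o_mem_o (hgam.1 _ hη)).1 h).le
      · rintro ⟨η, hη, h, rfl⟩
        refine ⟨⟨η, hη, C.top_mem, rfl⟩, ZFSet.pair_mem_prod.2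
          ⟨?_, ZFSet.mem_powerset.2 (C.sub_subset _)⟩⟩
        rcases (C.tv_mem.1 h).eq_or_lt with rfl | h
        · exact ZFSet.mem_insert _ _
        · exact ZFSet.mem_insert_of_mem _ (C.o_mem_o_of_lt (hgam.1 _ hη) h)
    rw [hres, ← hmem _ (hpos σ hσ a haX ζ hζ) _ hσ, ← strat_eq]
    have hbi : ∀ x : K, C.In x → (a ζ x ⇔ strat σ a ζ ∈ C.G ↔ (a ζ x ∈ C.G ↔ strat σ a ζ ∈ C.G)) :=
      fun x hx => C.bi_iff (hult _ (ha a haX ζ hζ x hx)) (hult _ (hS σ hσ a haX ζ hζ))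
    refine ⟨fun z hz => ?_, fun h => ?_, fun h => ?_⟩
    · obtain ⟨x, hx, h, rfl⟩ := (C.mem_sub _ _).1 hz
      exact (hD' _).2 ⟨x, hx, (C.inf_iff.1 h).1, rfl⟩
    · ext z
      simp only [C.mem_sub, CC_eq, C.inf_iff]
      refine exists_congr fun x => and_congr_right fun hx => ?_
      rw [hbi x hx, iff_true_intro h, iff_true]
    · ext z
      rw [ZFSet.mem_sdiff, hD', C.mem_sub]
      constructor
      · rintro ⟨x, hx, k, rfl⟩
        rw [CC_eq, C.inf_iff, hbi x hx] at k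
        refine ⟨⟨x, hx, k.1, rfl⟩, fun k' => ?_⟩
        exact h (k.2.1 (C.inf_iff.1 ((C.o_mem_sub _ hx).1 k')).2)
      · rintro ⟨⟨x, hx, k, rfl⟩, k'⟩
        refine ⟨x, hx, ?_, rfl⟩
        rw [CC_eq, C.inf_iff, hbi x hx]
        exact ⟨k, iff_of_false (fun j => k' ((C.o_mem_sub _ hx).2 (C.inf_mem k j))) h⟩)
  rcases hult _ (hX σ hσ a haX) with h | h
  · have hY' := C.up (C.inf_mem hb h) (show _ ≤ ⨆ k : Iio g0 × K, CC (strat σ) a k.1 k.2 ⊓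
        (⨆ (y : K) (_ : y ≠ k.2), CC (strat σ) a k.1 y)ᶜ by
      rw [bad, inf_sup_right, compl_inf_eq_bot, bot_sup_eq]; exact inf_le_left)
    obtain ⟨k, hk, j⟩ := (hY σ hσ a haX).sup hY'
    rw [C.inf_iff] at j
    refine w1 (C.o k.1.1) (C.o k.2) (((hfun _).2 _ _).2 ⟨k.1, hfst k hk, rfl, ?_⟩)
    ext z
    rw [ZFSet.mem_singleton, C.mem_sub]
    constructor
    · rintro rfl
      exact ⟨k.2, hsnd k hk, j.1, rfl⟩
    · rintro ⟨y, -, j', rfl⟩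
      by_contra hne
      exact C.not_both (C.sup_of y (C.sup_of (fun h : y = k.2 => hne (h ▸ rfl)) j')) j.2
  · obtain ⟨x0, hx0, -, rfl⟩ := (C.mem_sub _ _).1
      (w2 _ _ (((hfun _).2 _ _).2 ⟨_, h0, rfl, rfl⟩))
    refine C.not_both (C.sup_of x0 ((hF σ hσ a haX x0 hx0).inf fun η hη => ?_)) h
    exact C.up ((C.o_mem_sub _ hx0).1 (w2 _ _ (((hfun _).2 _ _).2 ⟨η, hη, rfl, rfl⟩)))
      (CC_le a x0 le_rfl)

end general

namespace Setup

variable {K : Type u} [LinearOrder K] [WellFoundedLT K] (s : Setup K)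

include s in
lemma pigeonhole (f : Set K → K) :
    ∃ x, ∃ e : K → Set K, Function.Injective e ∧ ∀ α, f (e α) = x := by
  have hinf : Infinite K := by
    by_contra h
    rw [not_infinite_iff_finite] at h
    exact s.unc (Set.to_countable _)
  have h0 := Cardinal.aleph0_le_mk K
  obtain ⟨x, hx⟩ := Cardinal.infinite_pigeonhole_card f (Order.succ (Cardinal.mk K))
    (by rw [Cardinal.mk_set]; exact Order.succ_le_of_lt (Cardinal.cantor _))
    (h0.trans (Order.le_succ _))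
    (by rw [(Cardinal.isRegular_succ h0).cof_ord]; exact Order.lt_succ _)
  obtain ⟨e⟩ := Cardinal.le_def _ _ |>.1 ((Order.le_succ _).trans hx)
  exact ⟨x, fun α => (e α).1, Subtype.val_injective.comp e.injective, fun α => (e α).2⟩

lemma ev_not_wins : ∀ᶠ C in gen s.B, ¬ ChooseWinsIn C.N (C.kap K) (C.o s.g0) := by
  refine Full.ev_not_wins s.B s.g0 fun σ => ?_
  refine iSup_bad (L := Set K) (c := fun l ζ => sg (l, ζ) true) (e := fun x => {x})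
    (strat_local σ) s.distrib s.bdd singleton_injective (bits_differ s.unc_Ioi) fun f p hp => ?_
  obtain ⟨x, e, he, hx⟩ := s.pigeonhole f
  obtain ⟨α0, h⟩ := (cc_of_reps s.reps (fun α => p (e α)) fun α => hp _).exists
  obtain ⟨α, k1, k2⟩ := (h.and (s.unif α0)).exists
  exact ⟨e α0, e α, he.ne k2.ne, (hx _).trans (hx _).symm, k1⟩

end Setup

end Pool.Agent.Lib.MP_446da5_lc.Full
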