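import Pool.Agent.Lib.MP_446da5_lc.Full.Forcing

set_option autoImplicit false

open Filter Set

namespace Pool.Agent.Lib.MP_446da5_lc.Full

universe u v

open Name

namespace Setup

variable {K : Type u} [LinearOrder K] [WellFoundedLT K] (s : Setup K)

/-- Boolean value of: the condition `q` puts the set named by `a` into the generic ultrafilter. -/
noncomputable def lab (a : K → s.B) (q : s.P) : s.B :=
  ⨆ b : s.B, tv s.B (∀ᶠ α in s.U, b ⊓ ext q α ≤ a α) ⊓ b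

variable {s}

lemma le_lab {a : K → s.B} {q : s.P} {b : s.B} (h : ∀ᶠ α in s.U, b ⊓ ext q α ≤ a α) :
    b ≤ s.lab a q :=
  le_iSup_of_le b (by rw [tv_pos h, top_inf_eq])

lemma lab_le {a : K → s.B} {q : s.P} {c d : s.B}
    (h : ∀ b, (∀ᶠ α in s.U, b ⊓ ext q α ≤ a α) → c ⊓ b ≤ d) : c ⊓ s.lab a q ≤ d := by
  rw [lab, inf_iSup_eq]
  refine iSup_le fun b => ?_
  by_cases hb : ∀ᶠ α in s.U, b ⊓ ext q α ≤ a α
  · rw [tv_pos hb, top_inf_eq]; exact h b hb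
  · rw [tv_neg hb]; simp

lemma lab_inf {a a' : K → s.B} {q q' r : s.P} (h : r ≤ q) (h' : r ≤ q') :
    s.lab a q ⊓ s.lab a' q' ≤ s.lab (fun α => a α ⊓ a' α) r := by
  refine lab_le fun b' hb' => ?_
  rw [inf_comm]
  refine lab_le fun b hb => le_lab ?_
  filter_upwards [hb, hb'] with α k k'
  exact le_inf ((inf_le_inf inf_le_right (ext_mono h α)).trans k)
    ((inf_le_inf inf_le_left (ext_mono h' α)).trans k')

lemma lab_mono {a a' : K → s.B} {q : s.P} {c : s.B} (h : ∀ᶠ α in s.U, c ⊓ a α ≤ a' α) :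
    c ⊓ s.lab a q ≤ s.lab a' q := by
  refine lab_le fun b hb => le_lab ?_
  filter_upwards [hb, h] with α k k'
  rw [inf_assoc]
  exact (inf_le_inf_left _ k).trans k'

lemma lab_bot {a : K → s.B} {q : s.P} (h : ∀ᶠ α in s.U, a α = ⊥) : s.lab a q = ⊥ := by
  rw [← le_bot_iff, ← top_inf_eq (s.lab a q)]
  refine lab_le fun b hb => ?_
  rw [top_inf_eq, le_bot_iff]
  by_contra hne
  obtain ⟨α, ⟨k, k'⟩, k''⟩ := ((hb.and h).and (ev_ext_ne_bot s.reps hne q)).exists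
  exact k'' (le_bot_iff.1 (k' ▸ k))

/-- The set named by `a` is in the generic ultrafilter. -/
def Big (C : Ctx s.B) (H : Set ZFSet.{0}) (a : K → s.B) : Prop :=
  ∃ q : s.P, C.In q ∧ C.c q ∈ H ∧ s.lab a q ∈ C.G

variable {C : Ctx s.B} {H : Set ZFSet.{0}}

lemma Big.mono' {a a' : K → s.B} {c : s.B} (hc : c ∈ C.G) (h : ∀ᶠ α in s.U, c ⊓ a α ≤ a' α)
    (ha : Big C H a) : Big C H a' := by
  obtain ⟨q, h1, h2, h3⟩ := ha
  exact ⟨q, h1, h2, C.up (C.inf_mem hc h3) (lab_mono h)⟩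

lemma Big.mono {a a' : K → s.B} (h : ∀ᶠ α in s.U, a α ≤ a' α) (ha : Big C H a) : Big C H a' :=
  ha.mono' C.top_mem (h.mono fun _ k => inf_le_right.trans k)

lemma Big.not_bot {a : K → s.B} (ha : Big C H a) : ¬ ∀ᶠ α in s.U, a α = ⊥ := by
  obtain ⟨q, -, -, h3⟩ := ha
  exact fun h => C.ne_bot h3 (lab_bot h)

lemma Big.tv {p : K → Prop} {a : K → s.B} (ha : Big C H fun α => tv s.B (p α) ⊓ a α) :
    ∀ᶠ α in s.U, p α := by
  by_contra hn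
  rw [← Ultrafilter.eventually_not] at hn
  exact ha.not_bot (hn.mono fun α k => by simp [tv_neg k])

variable (s)

/-- `H` is generic over the model of `C`. -/
abbrev Gen (C : Ctx s.B) (H : Set ZFSet.{0}) : Prop :=
  Generic C.N (C.val (Pn s.B s.P)) (C.val (Rn s.B s.P)) H

lemma ev_top : ∀ᶠ C in gen s.B, ∀ H, s.Gen C H → C.c (⊤ : s.P) ∈ H ∧ Big C H fun _ => ⊤ := by
  filter_upwards [ev_Rn' s.B s.P, cl0 s.B (Pn s.B s.P), cl0 s.B (⊤ : s.P)] with C hR h1 h2 H hH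
  obtain ⟨z, hz, hzH⟩ := hH.2.2.2 _ (Ctx.val_mem_N h1) (fun _ h => h) fun z hz => ⟨z, hz, by
    obtain ⟨p, hp, rfl⟩ := (C.mem_Pn _).1 hz
    exact (hR.2 p p hp hp).2 le_rfl⟩
  obtain ⟨p, hp, rfl⟩ := (C.mem_Pn _).1 hz
  have h := hH.2.1 _ hzH _ ((hR.2 p ⊤ hp h2).2 le_top)
  exact ⟨h, ⊤, h2, h, C.up C.top_mem (le_lab (Eventually.of_forall fun _ => le_top))⟩

lemma ev_inf : ∀ᶠ C in gen s.B, ∀ H, s.Gen C H → ∀ a a', Big C H a → Big C H a' →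
    Big C H fun α => a α ⊓ a' α := by
  filter_upwards [ev_Rn' s.B s.P] with C hR H hH
  rintro a a' ⟨q, h1, h2, h3⟩ ⟨q', h1', h2', h3'⟩
  obtain ⟨z, hz, k, k'⟩ := hH.2.2.1 _ h2 _ h2'
  obtain ⟨r, hr, rfl⟩ := (C.mem_Pn _).1 (hH.1 z hz)
  exact ⟨r, hr, hz, C.up (C.inf_mem h3 h3')
    (lab_inf ((hR.2 _ _ hr h1).1 k) ((hR.2 _ _ hr h1').1 k'))⟩

lemma ev_mono_in : ∀ᶠ C in gen s.B, ∀ H (a a' : K → s.B), C.In a → C.In a' →
    (∀ α, C.In α → a α ∈ C.G → a' α ∈ C.G) → Big C H a → Big C H a' := by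
  filter_upwards [dec2 (S3 := fun _ _ => K) (fun (a a' : K → s.B) α => (a α ⇨ a' α)ᶜ),
    ev_ultra s.B, cl2 s.B (S3 := fun _ _ => s.B) (fun (a : K → s.B) (α : K) => a α)]
    with C h1 h2 h3 H a a' ha ha' h hb
  have := (h1 a ha a' ha').inf fun α hα => (h2 _ (h3 a ha α hα)).elim
    (fun k => C.himp_of_right (h α hα k)) C.himp_of_compl
  exact hb.mono' this (Eventually.of_forall fun α => le_himp_iff.1 (iInf_le _ α))

lemma ev_dense : ∀ᶠ C in gen s.B, ∀ H, s.Gen C H → ∀ D : K → s.B → Prop, C.In D →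
    (∀ α, ∀ b ≠ ⊥, ∃ b' ≤ b, b' ≠ ⊥ ∧ D α b') →
    ∃ d : K → s.B, C.In d ∧ (∀ α, D α (d α)) ∧ Big C H d := by
  filter_upwards [ev_Rn' s.B s.P,
    cl1 s.B (S2 := fun _ => Name s.B) (fun D : K → s.B → Prop => Name.mk s.P (pn s.B)
      fun q => ⨆ d : K → s.B, tv s.B (∀ α, D α (d α)) ⊓ s.lab d q),
    dec2 (S3 := fun _ _ => s.P) (fun (D : K → s.B → Prop) (q q' : s.P) =>
      tv s.B (q' ≤ q) ⊓ ⨆ d : K → s.B, tv s.B (∀ α, D α (d α)) ⊓ s.lab d q'),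
    dec2 (S3 := fun _ _ => K → s.B) (fun (D : K → s.B → Prop) (q : s.P) d =>
      tv s.B (∀ α, D α (d α)) ⊓ s.lab d q)] with C hR h1 h2 h3 H hH D hD hd
  obtain ⟨z, hz, hzH⟩ := hH.2.2.2 _ (Ctx.val_mem_N (h1 D hD)) (fun z hz => by
      obtain ⟨q, hq, -, rfl⟩ := (C.mem_val_mk _ _ _ _).1 hz
      exact (C.mem_Pn _).2 ⟨q, hq, rfl⟩) fun z hz => by
    obtain ⟨q, hq, rfl⟩ := (C.mem_Pn _).1 hz
    obtain ⟨q', hq', h⟩ := (h2 D hD q hq).of_top (by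
      by_contra hne
      obtain ⟨b', k1, k2, q', k3, d, k4, k5⟩ :=
        ext_dense s.reps D hd (compl_eq_bot.not.2 hne) q
      refine k2 (eq_bot_of_le_compl (le_iSup_of_le q' ?_) k1)
      rw [tv_pos k3, top_inf_eq]
      refine le_iSup_of_le d ?_
      rw [tv_pos k4, top_inf_eq]
      exact le_lab k5)
    rw [C.inf_iff, C.tv_mem] at h
    exact ⟨_, (C.mem_val_mk _ _ _ _).2 ⟨q', hq', h.2, rfl⟩, (hR.2 _ _ hq' hq).2 h.1⟩
  obtain ⟨q, hq, hG, rfl⟩ := (C.mem_val_mk _ _ _ _).1 hz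
  obtain ⟨d, k1, k2⟩ := (h3 D hD q hq).sup hG
  rw [C.inf_iff, C.tv_mem] at k2
  exact ⟨d, k1, k2.1, q, hq, hzH, k2.2⟩

lemma ev_big_ultra : ∀ᶠ C in gen s.B, ∀ H, s.Gen C H → ∀ a : K → s.B, C.In a →
    Big C H a ∨ Big C H fun α => (a α)ᶜ := by
  filter_upwards [s.ev_dense, cl1 s.B (S2 := fun _ => K → s.B → Prop)
    (fun (a : K → s.B) α b => b ≤ a α ∨ b ≤ (a α)ᶜ)] with C h1 h2 H hH a ha
  obtain ⟨d, -, k, k'⟩ := h1 H hH _ (h2 a ha) fun α b hb => by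
    by_cases h : b ≤ a α
    · exact ⟨b, le_rfl, hb, Or.inl h⟩
    · exact ⟨_, inf_le_left, inf_compl_ne_bot h, Or.inr inf_le_right⟩
  exact (Ultrafilter.eventually_or.1 (Eventually.of_forall k)).imp k'.mono k'.mono

lemma ev_los (Y : Type v) [Nonempty Y] [Cd s.B (K → Y → s.B)] [Cd s.B (K → Y)] :
    ∀ᶠ C in gen s.B, ∀ H, s.Gen C H → ∀ e : K → Y → s.B, C.In e →
      (Big C H fun α => ⨆ y, e α y) → ∃ g : K → Y, C.In g ∧ Big C H fun α => e α (g α) := by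
  filter_upwards [s.ev_dense, s.ev_inf, cl1 s.B (S2 := fun _ => K → s.B → Prop)
    (fun (e : K → Y → s.B) α b => (∃ y, b ≤ e α y) ∨ b ≤ (⨆ y, e α y)ᶜ),
    sk2 s.B (S3 := fun _ _ => K → Y) (fun (e : K → Y → s.B) (d : K → s.B) g =>
      ∀ᶠ α in s.U, d α ≤ e α (g α))] with C h1 hinf h2 h3 H hH e he hb
  obtain ⟨d, hd, k, k'⟩ := h1 H hH _ (h2 e he) fun α b hb => by
    by_cases h : b ⊓ ⨆ y, e α y = ⊥
    · exact ⟨b, le_rfl, hb, Or.inr (le_compl_iff_disjoint_right.2 (disjoint_iff.2 h))⟩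
    · obtain ⟨y, hy⟩ := exists_inf_ne_bot h inf_le_right
      exact ⟨_, inf_le_left.trans inf_le_left, hy, Or.inl ⟨y, inf_le_right⟩⟩
  rcases Ultrafilter.eventually_or.1 (Eventually.of_forall k) with h | h
  · obtain ⟨g, hg, h'⟩ := h3 e he d hd (Filter.skolem.1 h)
    exact ⟨g, hg, k'.mono h'⟩
  · exact ((hinf H hH _ _ hb (k'.mono h)).not_bot (Eventually.of_forall fun _ => by simp)).elim

/-- The name of the generic ultrafilter. -/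
noncomputable def Un : Name s.B :=
  Name.mk ((K → s.B) × s.P) (fun k => op (chk (pn s.B (⊤ : s.P)) (sub k.1)) (pn s.B k.2))
    fun k => s.lab k.1 k.2

lemma ev_Un : ∀ᶠ C in gen s.B, ∀ H, s.Gen C H → ∀ val, IsValuation H val → ∀ A,
    A ∈ val (C.val s.Un) ↔ ∃ a : K → s.B, C.In a ∧ Big C H a ∧ C.val (sub a) = A := by
  filter_upwards [ev_op s.B, ev_chk s.B, s.ev_top,
    cl1 s.B (S2 := fun _ => K → s.B) (fun k : (K → s.B) × s.P => k.1),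
    cl1 s.B (S2 := fun _ => s.P) (fun k : (K → s.B) × s.P => k.2),
    cl2 s.B (S3 := fun _ _ => (K → s.B) × s.P) (fun (a : K → s.B) (q : s.P) => (a, q))]
    with C hop hchk htop h1 h2 h3 H hH val hval A
  have hc := hchk H val hval _ (htop H hH).1
  rw [hval]
  simp only [Un, C.mem_val_mk, hop, ZFSet.pair_inj]
  constructor
  · rintro ⟨_, _, hq, ⟨k, hk, hb, rfl, rfl⟩, rfl⟩
    exact ⟨k.1, h1 k hk, ⟨k.2, h2 k hk, hq, hb⟩, (hc _).symm⟩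
  · rintro ⟨a, ha, ⟨q, hq, hqH, hb⟩, rfl⟩
    exact ⟨_, _, hqH, ⟨(a, q), h3 a ha q hq, hb, rfl, rfl⟩, (hc _).symm⟩

lemma ev_subset : ∀ᶠ C in gen s.B, ∀ A ∈ C.N, A ⊆ C.kap K →
    ∃ a : K → s.B, C.In a ∧ C.val (sub a) = A := by
  filter_upwards [ev_mem_on s.B K, cl1 s.B (S2 := fun _ => K → s.B)
    (fun (f : Name s.B) (α : K) => bmem (on s.B α) f)] with C h1 h2
  rintro _ ⟨f, hf, rfl⟩ hsub
  refine ⟨_, h2 f hf, ?_⟩
  ext z
  rw [C.mem_sub]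
  constructor
  · rintro ⟨y, hy, h, rfl⟩
    exact (h1 f hf y hy).1 h
  · intro hz
    obtain ⟨y, hy, rfl⟩ := (C.mem_kap _).1 (hsub hz)
    exact ⟨y, hy, (h1 f hf y hy).2 hz, rfl⟩

lemma ev_normal : ∀ᶠ C in gen s.B, ∀ H, s.Gen C H → ∀ f ∈ C.N,
    ZFSet.IsFunc (C.kap K) (C.kap K) f → ∀ a : K → s.B, C.In a → Big C H a →
    (∀ α ∈ C.val (sub a), ∀ y, ZFSet.pair α y ∈ f → y ∈ α) →
    ∃ β, ∃ a' : K → s.B, C.In a' ∧ Big C H a' ∧ ∀ α ∈ C.val (sub a'), ZFSet.pair α β ∈ f := by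
  have : Nonempty K := ⟨s.g0⟩
  filter_upwards [s.ev_los K, s.ev_mono_in, ev_fv s.B K, ev_on s.B K,
    cl1 s.B (S2 := fun _ => K → K → s.B) (fun (f : Name s.B) (α y : K) =>
      tv s.B (y < α) ⊓ bmem (op (on s.B α) (on s.B y)) f),
    cl1 s.B (S2 := fun _ => K → s.B) (fun (e : K → K → s.B) (α : K) => ⨆ y, e α y),
    sk1 s.B (S2 := fun _ => K) (fun (g : K → K) β => ∀ᶠ α in s.U, g α = β),
    cl2 s.B (S3 := fun _ _ => K → s.B) (fun (f : Name s.B) (β α : K) =>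
      bmem (op (on s.B α) (on s.B β)) f)] with C hlos hmono hfv hon h1 h2 h3 h4 H hH
  rintro _ ⟨f, hf, rfl⟩ hfun a ha hb hreg
  obtain ⟨g, hg, hb'⟩ := hlos H hH _ (h1 f hf) (hmono H _ _ ha (h2 _ (h1 f hf)) (by
    intro α hα h
    obtain ⟨z, hz, -⟩ := hfun.2 _ (C.o_mem_kap hα)
    obtain ⟨y, hy, rfl⟩ := (C.mem_kap _).1 (ZFSet.pair_mem_prod.1 (hfun.1 hz)).2
    exact C.sup_of y (C.inf_mem
      (C.tv_mem.2 ((C.o_mem_o hy).1 (hreg _ ((C.o_mem_sub _ hα).2 h) _ hz)))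
      ((hfv f hf α hα _ (hon y hy)).2 hz))) hb)
  obtain ⟨β, hβ, h⟩ := h3 g hg (s.norm g hb'.tv)
  refine ⟨C.o β, _, h4 f hf β hβ, hb'.mono (h.mono fun α k => k ▸ inf_le_right), fun z hz => ?_⟩
  obtain ⟨α, hα, k, rfl⟩ := (C.mem_sub _ _).1 hz
  exact (hfv f hf α hα _ (hon β hβ)).1 k

lemma ev_wf : ∀ᶠ C in gen s.B, ∀ H, s.Gen C H →
    WellFounded fun f g : {f // f ∈ C.N ∧ ∃ Y, ZFSet.IsFunc (C.kap K) Y f} =>
      ∃ a : K → s.B, C.In a ∧ Big C H a ∧ ∀ α ∈ C.val (sub a), ∀ x y,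
        ZFSet.pair α x ∈ f.1 → ZFSet.pair α y ∈ g.1 → x ∈ y := by
  filter_upwards [s.ev_los (Name s.B), s.ev_mono_in, s.ev_inf, s.ev_top, ev_fv s.B K,
    ev_trans s.B, ev_child s.B, cl0 s.B (fun _ : K => (⊤ : s.B)),
    cl1 s.B (S2 := fun _ => K → Name s.B → s.B) (fun (f : Name s.B) (α : K) τ =>
      bmem (op (on s.B α) τ) f),
    cl2 s.B (S3 := fun _ _ => K → Name s.B → s.B) (fun (f : Name s.B) (g : K → Name s.B) α τ =>
      tv s.B (τ.rank < (g α).rank) ⊓ bmem (op (on s.B α) τ) f),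
    cl1 s.B (S2 := fun _ => K → s.B) (fun (e : K → Name s.B → s.B) (α : K) => ⨆ y, e α y),
    cl2 s.B (S3 := fun _ _ => Name s.B) (fun (g : K → Name s.B) (α : K) => g α),
    cl3 s.B (S4 := fun _ _ _ => K → s.B) (fun (a : K → s.B) (f : Name s.B) (g : K → Name s.B) α =>
      a α ⊓ bmem (op (on s.B α) (g α)) f)]
    with C hlos hmono hinf htop hfv htr hch h0 h1 h2 h3 h4 h5 H hH
  have hN : ∀ f ∈ C.N, ∀ x y, ZFSet.pair x y ∈ f → y ∈ C.N := fun f hf x y h =>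
    htr _ (htr _ (htr _ hf _ h) {x, y} (by simp [ZFSet.pair])) _ (by simp)
  have key : ∀ g : K → Name s.B, C.In g → ∀ (f : Name s.B) (hf : C.In f)
      (hY : ∃ Y, ZFSet.IsFunc (C.kap K) Y (C.val f)),
      (Big C H fun α => bmem (op (on s.B α) (g α)) f) →
      Acc (fun f g : {f // f ∈ C.N ∧ ∃ Y, ZFSet.IsFunc (C.kap K) Y f} =>
        ∃ a : K → s.B, C.In a ∧ Big C H a ∧ ∀ α ∈ C.val (sub a), ∀ x y,
          ZFSet.pair α x ∈ f.1 → ZFSet.pair α y ∈ g.1 → x ∈ y) ⟨_, Ctx.val_mem_N hf, hY⟩ := by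
    intro g
    induction g using (InvImage.wf (fun (g : K → Name s.B) α => (g α).rank)
      (wf_ev_lt (s.U : Filter K))).induction with
    | _ g ih =>
      intro hg f hf hY hb
      refine ⟨_, ?_⟩
      rintro ⟨_, ⟨f', hf', rfl⟩, Y, hY'⟩ ⟨a, ha, hba, hlt⟩
      obtain ⟨g', hg', hb'⟩ := hlos H hH _ (h2 f' hf' g hg) (hmono H _ _ (h5 a ha f hf g hg)
        (h3 _ (h2 f' hf' g hg)) (by
          intro α hα h
          rw [C.inf_iff, hfv f hf α hα _ (h4 g hg α hα)] at h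
          obtain ⟨z, hz, -⟩ := hY'.2 _ (C.o_mem_kap hα)
          obtain ⟨i, hi, -, rfl⟩ := (C.mem_val _ _).1
            (hlt _ ((C.o_mem_sub _ hα).2 h.1) _ _ hz h.2)
          exact C.sup_of _ (C.inf_mem (C.tv_mem.2 (rank_lt _ i))
            ((hfv f' hf' α hα _ (hch _ (h4 g hg α hα) i hi)).2 hz))) (hinf H hH _ _ hba hb))
      exact ih g' hb'.tv hg' f' hf' ⟨Y, hY'⟩
        (hb'.mono (Eventually.of_forall fun _ => inf_le_right))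
  refine ⟨?_⟩
  rintro ⟨_, ⟨f, hf, rfl⟩, Y, hY⟩
  obtain ⟨g, hg, hb⟩ := hlos H hH _ (h1 f hf) (hmono H _ _ h0 (h3 _ (h1 f hf)) (by
    intro α hα _
    obtain ⟨z, hz, -⟩ := hY.2 _ (C.o_mem_kap hα)
    obtain ⟨τ, hτ, rfl⟩ := hN _ (Ctx.val_mem_N hf) _ _ hz
    exact C.sup_of τ ((hfv f hf α hα _ hτ).2 hz)) (htop H hH).2)
  exact key g hg f hf ⟨Y, hY⟩ hb

theorem ev_genMeasurable : ∀ᶠ C in gen s.B,
    GenMeasurable C.N (C.kap K) (C.val (Pn s.B s.P)) (C.val (Rn s.B s.P)) := by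
  filter_upwards [s.ev_Un, s.ev_subset, s.ev_normal, s.ev_wf, s.ev_big_ultra, s.ev_mono_in,
    s.ev_inf, cl0 s.B s.Un, ev_ultra s.B,
    cl1 s.B (S2 := fun _ => Name s.B) (fun a : K → s.B => sub a),
    cl2 s.B (S3 := fun _ _ => K → s.B) (fun (a a' : K → s.B) α => a α ⊓ a' α),
    cl1 s.B (S2 := fun _ => K → s.B) (fun (a : K → s.B) α => (a α)ᶜ),
    cl1 s.B (S2 := fun _ => K → s.B) (fun (y α : K) => tv s.B (α < y) ⊓ ⊤),
    cl2 s.B (S3 := fun _ _ => s.B) (fun (a : K → s.B) (α : K) => a α)]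
    with C hU hsub hnorm hwf hul hmono hinf h0 hG h1 h2 h3 h4 h5 H hH
  obtain ⟨val, hval⟩ := exists_valuation H
  refine ⟨val, hval, _, Ctx.val_mem_N h0, ?_⟩
  have hU := hU H hH val hval
  simp only [GoodUltrafilter, mem_ofPred_eq, hU]
  refine ⟨?_, ?_, ?_, ?_, ?_, ?_, ?_⟩
  · rintro _ ⟨a, ha, -, rfl⟩
    exact ⟨Ctx.val_mem_N (h1 a ha), C.sub_subset a⟩
  · rintro _ ⟨a, ha, hb, rfl⟩ A hA k k'
    obtain ⟨a', ha', rfl⟩ := hsub A hA k'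
    exact ⟨a', ha', hmono H a a' ha ha' (fun α hα h =>
      (C.o_mem_sub _ hα).1 (k ((C.o_mem_sub _ hα).2 h))) hb, rfl⟩
  · rintro _ ⟨a, ha, hb, rfl⟩ _ ⟨a', ha', hb', rfl⟩
    refine ⟨_, h2 a ha a' ha', hinf H hH _ _ hb hb', ?_⟩
    ext z
    rw [ZFSet.mem_inter, C.mem_sub]
    constructor
    · rintro ⟨α, hα, h, rfl⟩
      rwa [C.o_mem_sub _ hα, C.o_mem_sub _ hα, ← C.inf_iff]
    · rintro ⟨k, k'⟩
      obtain ⟨α, hα, h, rfl⟩ := (C.mem_sub _ _).1 k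
      exact ⟨α, hα, C.inf_mem h ((C.o_mem_sub _ hα).1 k'), rfl⟩
  · intro A hA k
    obtain ⟨a, ha, rfl⟩ := hsub A hA k
    refine (hul H hH a ha).imp (fun h => ⟨a, ha, h, rfl⟩) fun h => ⟨_, h3 a ha, h, ?_⟩
    ext z
    rw [ZFSet.mem_sdiff, C.mem_sub, C.mem_kap]
    constructor
    · rintro ⟨α, hα, h, rfl⟩
      exact ⟨⟨α, hα, rfl⟩, fun h' => C.not_both ((C.o_mem_sub _ hα).1 h') h⟩
    · rintro ⟨⟨α, hα, rfl⟩, h⟩
      exact ⟨α, hα, (hG _ (h5 a ha α hα)).resolve_left fun h' => h ((C.o_mem_sub _ hα).2 h'), rfl⟩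
  · rintro β hβ ⟨a, ha, hb, he⟩
    obtain ⟨y, hy, rfl⟩ := (C.mem_kap _).1 hβ
    have := (hmono H a _ ha (h4 y hy) (fun α hα h => C.inf_mem (C.tv_mem.2
      ((C.o_mem_o hα).1 (he ▸ (C.o_mem_sub _ hα).2 h))) C.top_mem) hb).tv
    obtain ⟨α, k, k'⟩ := (this.and (s.unif y)).exists
    exact lt_asymm k k'
  · rintro f hf hfun _ ⟨a, ha, hb, rfl⟩ hreg
    obtain ⟨β, a', ha', hb', h⟩ := hnorm H hH f hf hfun a ha hb hreg
    exact ⟨β, _, ⟨a', ha', hb', rfl⟩, h⟩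
  · refine Subrelation.wf ?_ (hwf H hH)
    rintro f g ⟨_, ⟨a, ha, hb, rfl⟩, h⟩
    exact ⟨a, ha, hb, h⟩

end Setup

end Pool.Agent.Lib.MP_446da5_lc.Full
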