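import Pool.Agent.Lib.MP_446da5_lc.Full.Hull
import Pool.Agent.Lib.MP_446da5_lc.Full.Defs

set_option autoImplicit false

open Filter Set

namespace Pool.Agent.Lib.MP_446da5_lc.Full

universe u v

/-- `B`-valued names. -/
inductive Name (B : Type u) : Type (u + 1)
  | mk (ι : Type u) (A : ι → Name B) (b : ι → B) : Name B

variable {B : Type u}

namespace Name

def ι : Name B → Type u | mk ι _ _ => ι
def A : (x : Name B) → x.ι → Name B | mk _ A _ => A
def b : (x : Name B) → x.ι → B | mk _ _ b => b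

@[simp] lemma mk_A (ι : Type u) (A : ι → Name B) (b : ι → B) : (mk ι A b).A = A := rfl
@[simp] lemma mk_b (ι : Type u) (A : ι → Name B) (b : ι → B) : (mk ι A b).b = b := rfl

noncomputable def rank : Name B → Ordinal.{u}
  | mk _ A _ => ⨆ i, Order.succ (rank (A i))

lemma rank_lt (x : Name B) (i : x.ι) : (x.A i).rank < x.rank := by
  cases x with
  | mk ι A b =>
    exact Order.succ_le_iff.1 (Ordinal.le_iSup (fun i : ι => Order.succ (rank (A i))) i)

variable [CompleteBooleanAlgebra B]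

noncomputable def beq : Name B → Name B → B
  | mk _ A b, y => (⨅ i, b i ⇨ ⨆ j, y.b j ⊓ beq (A i) (y.A j)) ⊓
      (⨅ j, y.b j ⇨ ⨆ i, b i ⊓ beq (A i) (y.A j))

noncomputable def bmem (x y : Name B) : B := ⨆ j, y.b j ⊓ beq x (y.A j)

lemma beq_def (x y : Name B) : beq x y = (⨅ i, x.b i ⇨ ⨆ j, y.b j ⊓ beq (x.A i) (y.A j)) ⊓
    (⨅ j, y.b j ⇨ ⨆ i, x.b i ⊓ beq (x.A i) (y.A j)) := by
  cases x; rfl

lemma beq_refl (x : Name B) : beq x x = ⊤ := by
  induction x with
  | mk ι A b ih =>
    rw [beq_def, ← top_le_iff]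
    simp only [le_inf_iff, le_iInf_iff, le_himp_iff, top_inf_eq]
    exact ⟨fun i => le_iSup_of_le i (by simp [ih]), fun i => le_iSup_of_le i (by simp [ih])⟩

lemma beq_symm (x y : Name B) : beq x y = beq y x := by
  induction x generalizing y with
  | mk ι A b ih =>
    rw [beq_def, beq_def, inf_comm]
    simp only [mk_A, mk_b, ih]

lemma beq_le_left (x y : Name B) (i : x.ι) : beq x y ⊓ x.b i ≤ bmem (x.A i) y := by
  rw [← le_himp_iff, beq_def]
  exact inf_le_left.trans (iInf_le _ i)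

lemma le_beq {x y : Name B} {p : B} (h1 : ∀ i, p ⊓ x.b i ≤ bmem (x.A i) y)
    (h2 : ∀ j, p ⊓ y.b j ≤ bmem (y.A j) x) : p ≤ beq x y := by
  rw [beq_def]
  simp only [le_inf_iff, le_iInf_iff, le_himp_iff]
  refine ⟨h1, fun j => ?_⟩
  simpa only [bmem, beq_symm] using h2 j

lemma beq_trans (x y z : Name B) : beq x y ⊓ beq y z ≤ beq x z := by
  induction x generalizing y z with
  | mk ι A b ih =>
    apply le_beq
    · intro i
      have h1 : beq (mk ι A b) y ⊓ beq y z ⊓ b i ≤ bmem (A i) y ⊓ beq y z :=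
        le_inf ((inf_le_inf_right _ inf_le_left).trans (beq_le_left (mk ι A b) y i))
          (inf_le_left.trans inf_le_right)
      refine h1.trans ?_
      rw [bmem, iSup_inf_eq]
      refine iSup_le fun j => ?_
      have h2 : y.b j ⊓ beq (A i) (y.A j) ⊓ beq y z ≤ bmem (y.A j) z ⊓ beq (A i) (y.A j) :=
        le_inf ((le_inf inf_le_right (inf_le_left.trans inf_le_left)).trans (beq_le_left y z j))
          (inf_le_left.trans inf_le_right)
      refine h2.trans ?_
      rw [bmem, iSup_inf_eq]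
      refine iSup_le fun k => le_iSup_of_le k ?_
      rw [inf_assoc, inf_comm (beq (y.A j) _)]
      exact inf_le_inf_left _ (ih i _ _)
    · intro k
      have h1 : beq (mk ι A b) y ⊓ beq y z ⊓ z.b k ≤ bmem (z.A k) y ⊓ beq y (mk ι A b) := by
        refine le_inf ((inf_le_inf_right _ inf_le_right).trans ?_) ?_
        · rw [beq_symm]; exact beq_le_left z y k
        · rw [beq_symm y (mk ι A b)]; exact inf_le_left.trans inf_le_left
      refine h1.trans ?_
      rw [bmem, iSup_inf_eq]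
      refine iSup_le fun j => ?_
      have h2 : y.b j ⊓ beq (z.A k) (y.A j) ⊓ beq y (mk ι A b) ≤
          bmem (y.A j) (mk ι A b) ⊓ beq (z.A k) (y.A j) :=
        le_inf ((le_inf inf_le_right (inf_le_left.trans inf_le_left)).trans (beq_le_left y _ j))
          (inf_le_left.trans inf_le_right)
      refine h2.trans ?_
      rw [bmem, iSup_inf_eq]
      refine iSup_le fun i => le_iSup_of_le i ?_
      rw [inf_assoc]
      refine inf_le_inf_left _ ?_
      rw [beq_symm (y.A j), beq_symm (z.A k) (y.A j), beq_symm (z.A k)]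
      exact ih i _ _

lemma b_le_bmem (y : Name B) (j : y.ι) : y.b j ≤ bmem (y.A j) y :=
  le_iSup_of_le j (by simp [beq_refl])

lemma bmem_congr_left (x x' y : Name B) : beq x x' ⊓ bmem x y ≤ bmem x' y := by
  rw [bmem, inf_iSup_eq]
  refine iSup_le fun j => le_iSup_of_le j ?_
  rw [inf_left_comm, beq_symm x x']
  exact inf_le_inf_left _ (beq_trans _ _ _)

lemma bmem_congr_right (x y y' : Name B) : beq y y' ⊓ bmem x y ≤ bmem x y' := by
  rw [bmem, inf_iSup_eq]
  refine iSup_le fun j => ?_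
  refine le_trans ?_ (bmem_congr_left (y.A j) x y')
  refine le_inf ?_ ?_
  · rw [beq_symm (y.A j)]; exact inf_le_right.trans inf_le_right
  · exact (inf_le_inf_left _ inf_le_left).trans (beq_le_left y y' j)

lemma le_beq_mk {T : Type u} {A A' : T → Name B} {l l' : T → B} {p : B}
    (hl : ∀ t, p ⊓ l t ≤ l' t) (hl' : ∀ t, p ⊓ l' t ≤ l t)
    (hA : ∀ t, p ⊓ l t ≤ beq (A t) (A' t)) : p ≤ beq (mk T A l) (mk T A' l') := by
  apply le_beq
  · intro t
    exact le_iSup_of_le t (le_inf (hl t) (hA t))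
  · intro t
    refine le_iSup_of_le t (le_inf (hl' t) ?_)
    rw [beq_symm]
    exact (le_inf inf_le_left (hl' t)).trans (hA t)

def empty : Name B := mk PEmpty.{u + 1} (fun e => e.elim) (fun e => e.elim)

instance : Inhabited (Name B) := ⟨empty⟩

def upair (x y : Name B) : Name B :=
  mk (ULift.{u} Bool) (fun t => bif t.down then x else y) (fun _ => ⊤)

def op (x y : Name B) : Name B := upair (upair x x) (upair x y)

lemma le_beq_upair {x x' y y' : Name B} {p : B} (hx : p ≤ beq x x') (hy : p ≤ beq y y') :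
    p ≤ beq (upair x y) (upair x' y') := by
  refine le_beq_mk (fun _ => le_top) (fun _ => le_top) ?_
  rintro ⟨_ | _⟩
  · exact inf_le_left.trans hy
  · exact inf_le_left.trans hx

lemma le_beq_op {x x' y y' : Name B} {p : B} (hx : p ≤ beq x x') (hy : p ≤ beq y y') :
    p ≤ beq (op x y) (op x' y') :=
  le_beq_upair (le_beq_upair hx hx) (le_beq_upair hx hy)

/-- Boolean value of a formula. -/
noncomputable def bval : Fm → List (Name B) → B
  | .mem i j, l => bmem (l.getD i empty) (l.getD j empty)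
  | .eq i j, l => beq (l.getD i empty) (l.getD j empty)
  | .fls, _ => ⊥
  | .imp φ ψ, l => bval φ l ⇨ bval ψ l
  | .all φ, l => ⨅ x : Name B, bval φ (x :: l)

end Name

open Name

variable [CompleteBooleanAlgebra B]

namespace Ctx

instance small_In (C : Ctx B) (T : Type u) (p : T → Prop) :
    Small.{0} {i : T // C.In i ∧ p i} :=
  haveI : Countable {i : T // C.In i ∧ p i} :=
    ((C.countable_In T).mono (fun _ h => h.1) : {i : T | C.In i ∧ p i}.Countable).to_subtype
  Countable.toSmall _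

noncomputable def val (C : Ctx B) : Name B → ZFSet.{0}
  | .mk ι A b => ZFSet.range fun i : {i : ι // C.In i ∧ b i ∈ C.G} => val C (A i)

lemma mem_val (C : Ctx B) (x : Name B) (y : ZFSet.{0}) :
    y ∈ C.val x ↔ ∃ i, C.In i ∧ x.b i ∈ C.G ∧ C.val (x.A i) = y := by
  cases x with
  | mk ι A b =>
    simp only [val, ZFSet.mem_range, Subtype.exists, mk_A, mk_b, exists_prop, and_assoc]
    rfl

lemma mem_val_mk (C : Ctx B) (T : Type u) (A : T → Name B) (b : T → B) (y : ZFSet.{0}) :
    y ∈ C.val (.mk T A b) ↔ ∃ i : T, C.In i ∧ b i ∈ C.G ∧ C.val (A i) = y :=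
  C.mem_val _ _

lemma val_empty (C : Ctx B) : C.val empty = ∅ := by
  ext y
  simp [Name.empty, mem_val_mk]

def N (C : Ctx B) : Set ZFSet.{0} := {y | ∃ x : Name B, C.In x ∧ C.val x = y}

lemma val_mem_N {C : Ctx B} {x : Name B} (h : C.In x) : C.val x ∈ C.N := ⟨x, h, rfl⟩

lemma N_countable (C : Ctx B) : C.N.Countable :=
  (C.countable_In (Name B)).image C.val

end Ctx

variable (B)

lemma ev_child : ∀ᶠ C in gen B, ∀ x : Name B, C.In x → ∀ i : x.ι, C.In i → C.In (x.A i) :=
  cl2 B (S3 := fun _ _ => Name B) fun (x : Name B) (i : x.ι) => x.A i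

lemma ev_upair : ∀ᶠ C in gen B, ∀ x y : Name B, C.val (upair x y) = {C.val x, C.val y} := by
  filter_upwards [cl0 B (ULift.up.{u} true), cl0 B (ULift.up.{u} false)]
    with C h1 h2 x y
  ext z
  simp only [upair, Ctx.mem_val_mk, ZFSet.mem_pair]
  constructor
  · rintro ⟨⟨_ | _⟩, -, -, rfl⟩ <;> simp
  · rintro (rfl | rfl)
    · exact ⟨_, h1, C.top_mem, rfl⟩
    · exact ⟨_, h2, C.top_mem, rfl⟩

lemma ev_op : ∀ᶠ C in gen B, ∀ x y : Name B,
    C.val (op x y) = ZFSet.pair (C.val x) (C.val y) := by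
  filter_upwards [ev_upair B] with C h x y
  simp [op, h, ZFSet.pair]

lemma ev_beq : ∀ᶠ C in gen B, ∀ x : Name B, C.In x → ∀ y : Name B, C.In y →
    (beq x y ∈ C.G ↔ C.val x = C.val y) := by
  filter_upwards [ev_child B,
    dec3 (S4 := fun (_ : Name B) (y : Name B) _ => y.ι)
      (fun (x : Name B) (y : Name B) (i : x.ι) j => y.b j ⊓ beq (x.A i) (y.A j)),
    dec3 (S4 := fun (x : Name B) (_ : Name B) _ => x.ι)
      (fun (x : Name B) (y : Name B) (j : y.ι) i => x.b i ⊓ beq (x.A i) (y.A j)),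
    dec2 (S3 := fun (x : Name B) (_ : Name B) => x.ι)
      (fun (x : Name B) (y : Name B) i => (x.b i ⇨ ⨆ j, y.b j ⊓ beq (x.A i) (y.A j))ᶜ),
    dec2 (S3 := fun (_ : Name B) (y : Name B) => y.ι)
      (fun (x : Name B) (y : Name B) j => (y.b j ⇨ ⨆ i, x.b i ⊓ beq (x.A i) (y.A j))ᶜ),
    ev_ultra B,
    cl2 B (S3 := fun _ _ => B) (fun (x : Name B) (i : x.ι) => x.b i)]
    with C hch h1 h2 h3 h4 hu hb x
  induction x with
  | mk ι A b ih =>
    intro hx y hy
    have ih' : ∀ i : ι, C.In i → ∀ j : y.ι, C.In j →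
        (beq (A i) (y.A j) ∈ C.G ↔ C.val (A i) = C.val (y.A j)) :=
      fun i hi j hj => ih i (hch _ hx i hi) _ (hch _ hy j hj)
    rw [beq_def, C.inf_iff]
    constructor
    · rintro ⟨ha, ha'⟩
      ext z
      rw [C.mem_val, C.mem_val]
      constructor
      · rintro ⟨i, hi, hbi, rfl⟩
        obtain ⟨j, hj, h⟩ := (h1 _ hx _ hy i hi).sup (C.mp (C.up ha (iInf_le _ i)) hbi)
        rw [C.inf_iff] at h
        exact ⟨j, hj, h.1, ((ih' i hi j hj).1 h.2).symm⟩
      · rintro ⟨j, hj, hbj, rfl⟩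
        obtain ⟨i, hi, h⟩ := (h2 _ hx _ hy j hj).sup (C.mp (C.up ha' (iInf_le _ j)) hbj)
        rw [C.inf_iff] at h
        exact ⟨i, hi, h.1, (ih' i hi j hj).1 h.2⟩
    · intro h
      constructor
      · refine (h3 _ hx _ hy).inf fun i hi => ?_
        rcases hu _ (hb _ hx i hi) with hbi | hbi
        · have : C.val (A i) ∈ C.val y := h ▸ (C.mem_val _ _).2 ⟨i, hi, hbi, rfl⟩
          obtain ⟨j, hj, hbj, he⟩ := (C.mem_val _ _).1 this
          exact C.himp_of_right (C.sup_of j (C.inf_mem hbj ((ih' i hi j hj).2 he.symm)))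
        · exact C.himp_of_compl hbi
      · refine (h4 _ hx _ hy).inf fun j hj => ?_
        rcases hu _ (hb _ hy j hj) with hbj | hbj
        · have : C.val (y.A j) ∈ C.val (mk ι A b) := h ▸ (C.mem_val _ _).2 ⟨j, hj, hbj, rfl⟩
          obtain ⟨i, hi, hbi, he⟩ := (C.mem_val _ _).1 this
          exact C.himp_of_right (C.sup_of i (C.inf_mem hbi ((ih' i hi j hj).2 he)))
        · exact C.himp_of_compl hbj

lemma ev_bmem : ∀ᶠ C in gen B, ∀ x : Name B, C.In x → ∀ y : Name B, C.In y →
    (bmem x y ∈ C.G ↔ C.val x ∈ C.val y) := by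
  filter_upwards [ev_child B, ev_beq B,
    dec2 (S3 := fun (_ : Name B) (y : Name B) => y.ι)
      (fun (x : Name B) (y : Name B) j => y.b j ⊓ beq x (y.A j))] with C hch he h x hx y hy
  rw [C.mem_val]
  constructor
  · intro hm
    obtain ⟨j, hj, h⟩ := (h _ hx _ hy).sup hm
    rw [C.inf_iff] at h
    exact ⟨j, hj, h.1, ((he _ hx _ (hch _ hy j hj)).1 h.2).symm⟩
  · rintro ⟨j, hj, hb, h⟩
    exact C.up (C.inf_mem hb ((he _ hx _ (hch _ hy j hj)).2 h.symm)) (le_iSup_of_le j le_rfl)

variable {B} in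
/-- A list of names in the hull all of whose entries are in the hull. -/
def Ctx.InL (C : Ctx B) (l : List (Name B)) : Prop := C.In l ∧ ∀ x ∈ l, C.In x

lemma ev_cons : ∀ᶠ C in gen B, ∀ x : Name B, C.In x → ∀ l : List (Name B), C.InL l →
    C.InL (x :: l) := by
  filter_upwards [cl2 B (S3 := fun _ _ => List (Name B))
    (fun (x : Name B) (l : List (Name B)) => x :: l)] with C h x hx l hl
  refine ⟨h x hx l hl.1, fun y hy => ?_⟩
  rcases List.mem_cons.1 hy with rfl | hy
  · exact hx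
  · exact hl.2 y hy

lemma ev_list : ∀ᶠ C in gen B, ∀ v : List ZFSet.{0}, (∀ x ∈ v, x ∈ C.N) →
    ∃ l : List (Name B), C.InL l ∧ l.map C.val = v := by
  filter_upwards [ev_cons B, cl0 B ([] : List (Name B))] with C h h0 v
  induction v with
  | nil => exact fun _ => ⟨[], ⟨h0, by simp⟩, rfl⟩
  | cons a v ih =>
    intro hv
    obtain ⟨l, hl, rfl⟩ := ih fun x hx => hv x (List.mem_cons_of_mem _ hx)
    obtain ⟨x, hx, rfl⟩ := hv a List.mem_cons_self
    exact ⟨x :: l, h x hx l hl, rfl⟩

lemma ev_bval : ∀ᶠ C in gen B, ∀ (φ : Fm) (l : List (Name B)), C.InL l →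
    (bval φ l ∈ C.G ↔ Sat C.N φ (l.map C.val)) := by
  have hc : Countable Fm := by
    let f : Fm → ℕ := fun φ => Fm.rec (fun i j => Nat.pair 0 (Nat.pair i j))
      (fun i j => Nat.pair 1 (Nat.pair i j)) (Nat.pair 2 0)
      (fun _ _ a b => Nat.pair 3 (Nat.pair a b)) (fun _ a => Nat.pair 4 a) φ
    refine Function.Injective.countable (f := f) ?_
    intro φ
    induction φ with
    | mem i j => intro ψ; cases ψ <;> simp [f, Nat.pair_eq_pair]
    | eq i j => intro ψ; cases ψ <;> simp [f, Nat.pair_eq_pair]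
    | fls => intro ψ; cases ψ <;> simp [f, Nat.pair_eq_pair]
    | imp a b iha ihb =>
      intro ψ; cases ψ <;> simp only [f, Nat.pair_eq_pair] <;> simp
      exact fun h1 h2 => ⟨iha h1, ihb h2⟩
    | all a iha =>
      intro ψ; cases ψ <;> simp only [f, Nat.pair_eq_pair] <;> simp
      exact fun h1 => iha h1
  filter_upwards [ev_beq B, ev_bmem B, ev_cons B, ev_ultra B,
    cl0 B (empty : Name B),
    eventually_countable_forall.2 fun φ : Fm =>
      cl1 B (S2 := fun _ => B) (fun l : List (Name B) => bval φ l),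
    eventually_countable_forall.2 fun φ : Fm =>
      dec1 (S2 := fun _ => Name B) (fun (l : List (Name B)) x => (bval φ (x :: l))ᶜ)]
    with C he hm hcons hu h0 hb hd φ
  have hget : ∀ (l : List (Name B)), C.InL l → ∀ i, C.In (l.getD i empty) ∧
      (l.map C.val).getD i ∅ = C.val (l.getD i empty) := by
    intro l hl i
    rw [← C.val_empty, List.getD_map]
    refine ⟨?_, rfl⟩
    by_cases hi : i < l.length
    · rw [List.getD_eq_getElem _ _ hi]; exact hl.2 _ (List.getElem_mem hi)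
    · rw [List.getD_eq_default _ _ (not_lt.1 hi)]; exact h0
  induction φ with
  | mem i j =>
    intro l hl
    simp only [bval, Sat, (hget l hl _).2]
    exact hm _ (hget l hl i).1 _ (hget l hl j).1
  | eq i j =>
    intro l hl
    simp only [bval, Sat, (hget l hl _).2]
    exact he _ (hget l hl i).1 _ (hget l hl j).1
  | fls => intro l _; simpa [bval, Sat] using C.bot_notMem
  | imp φ ψ ih1 ih2 =>
    intro l hl
    simp only [bval, Sat, ← ih1 l hl, ← ih2 l hl]
    refine ⟨C.mp, fun h => ?_⟩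
    rcases hu _ (hb φ l hl.1) with h1 | h1
    · exact C.up (h h1) le_himp
    · exact C.up h1 (by rw [himp_eq]; exact le_sup_right)
  | all φ ih =>
    intro l hl
    simp only [bval, Sat]
    constructor
    · rintro h _ ⟨x, hx, rfl⟩
      exact (ih (x :: l) (hcons x hx l hl)).1 (C.up h (iInf_le _ x))
    · intro h
      exact (hd φ l hl.1).inf fun x hx =>
        (ih (x :: l) (hcons x hx l hl)).2 (h _ (Ctx.val_mem_N hx))

end Pool.Agent.Lib.MP_446da5_lc.Full
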