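import Pool.Agent.Lib.MP_446da5_lc.Full.ZFC
import Pool.Agent.Lib.MP_446da5_lc.Full.Alg

set_option autoImplicit false

open Filter Set

namespace Pool.Agent.Lib.MP_446da5_lc.Full

universe u v

open Name

variable {B : Type u} [CompleteBooleanAlgebra B]

open Classical in
/-- truth value of a ground-model statement -/
noncomputable def tv (B : Type u) [CompleteBooleanAlgebra B] (p : Prop) : B :=
  if p then ⊤ else ⊥

lemma tv_pos {p : Prop} (h : p) : tv B p = ⊤ := if_pos h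
lemma tv_neg {p : Prop} (h : ¬ p) : tv B p = ⊥ := if_neg h

lemma Ctx.tv_mem (C : Ctx B) {p : Prop} : tv B p ∈ C.G ↔ p := by
  by_cases h : p
  · rw [tv_pos h]; exact iff_of_true C.top_mem h
  · rw [tv_neg h]; exact iff_of_false C.bot_notMem h

section on

variable {T : Type u} [LinearOrder T] [WellFoundedLT T]

variable (B) in
noncomputable def on : T → Name B :=
  (exists_fix (fun (ξ : T) (h : T → Name B) => Name.mk T h fun y => tv B (y < ξ)) empty).choose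

lemma on_eq (t : T) : on B t =
    Name.mk T (fun y => if y < t then on B y else empty) fun y => tv B (y < t) :=
  (exists_fix (fun (ξ : T) (h : T → Name B) => Name.mk T h fun y => tv B (y < ξ))
    empty).choose_spec t

noncomputable def Ctx.o (C : Ctx B) (t : T) : ZFSet.{0} := C.val (on B t)

lemma Ctx.mem_o (C : Ctx B) (t : T) (z : ZFSet.{0}) :
    z ∈ C.o t ↔ ∃ y, C.In y ∧ y < t ∧ C.o y = z := by
  rw [Ctx.o, on_eq, C.mem_val_mk]
  refine exists_congr fun y => and_congr_right fun _ => ?_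
  rw [C.tv_mem]
  exact and_congr_right fun h => by rw [if_pos h]; rfl

lemma Ctx.o_mem_o_of_lt (C : Ctx B) {x y : T} (hx : C.In x) (h : x < y) : C.o x ∈ C.o y :=
  (C.mem_o _ _).2 ⟨x, hx, h, rfl⟩

lemma Ctx.o_inj (C : Ctx B) {x y : T} (hx : C.In x) (hy : C.In y) (h : C.o x = C.o y) :
    x = y := by
  rcases lt_trichotomy x y with h' | h' | h'
  · exact (ZFSet.mem_irrefl _ (h ▸ C.o_mem_o_of_lt hx h')).elim
  · exact h'
  · exact (ZFSet.mem_irrefl _ (h ▸ C.o_mem_o_of_lt hy h')).elim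

lemma Ctx.o_mem_o (C : Ctx B) {x y : T} (hx : C.In x) : C.o x ∈ C.o y ↔ x < y := by
  refine ⟨fun h => ?_, C.o_mem_o_of_lt hx⟩
  obtain ⟨z, hz, h1, h2⟩ := (C.mem_o _ _).1 h
  rwa [← C.o_inj hz hx h2]

lemma Ctx.isOrdinal_o (C : Ctx B) (t : T) : (C.o t).IsOrdinal := by
  induction t using (wellFounded_lt (α := T)).induction with
  | _ t ih =>
    rw [ZFSet.isOrdinal_iff_forall_mem_isOrdinal]
    constructor
    · intro y hy z hz
      obtain ⟨y', -, h1, rfl⟩ := (C.mem_o _ _).1 hy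
      obtain ⟨z', hz', h2, rfl⟩ := (C.mem_o _ _).1 hz
      exact C.o_mem_o_of_lt hz' (h2.trans h1)
    · intro y hy
      obtain ⟨y', -, h1, rfl⟩ := (C.mem_o _ _).1 hy
      exact ih y' h1

/-- the name of the subset of `T` with Boolean characteristic function `a` -/
noncomputable def sub (a : T → B) : Name B := Name.mk T (on B) a

lemma Ctx.mem_sub (C : Ctx B) (a : T → B) (z : ZFSet.{0}) :
    z ∈ C.val (sub a) ↔ ∃ y, C.In y ∧ a y ∈ C.G ∧ C.o y = z := C.mem_val_mk _ _ _ _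

lemma Ctx.o_mem_sub (C : Ctx B) (a : T → B) {x : T} (hx : C.In x) :
    C.o x ∈ C.val (sub a) ↔ a x ∈ C.G := by
  rw [C.mem_sub]
  refine ⟨?_, fun h => ⟨x, hx, h, rfl⟩⟩
  rintro ⟨y, hy, h1, h2⟩
  rwa [← C.o_inj hy hx h2]

variable (T) in
noncomputable def Ctx.kap (C : Ctx B) : ZFSet.{0} := C.val (sub fun _ : T => ⊤)

lemma Ctx.mem_kap (C : Ctx B) (z : ZFSet.{0}) : z ∈ C.kap T ↔ ∃ y : T, C.In y ∧ C.o y = z := by
  simp [Ctx.kap, C.mem_sub, C.top_mem]

lemma Ctx.o_mem_kap (C : Ctx B) {x : T} (hx : C.In x) : C.o x ∈ C.kap T :=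
  (C.mem_kap _).2 ⟨x, hx, rfl⟩

lemma Ctx.sub_subset (C : Ctx B) (a : T → B) : C.val (sub a) ⊆ C.kap T := by
  intro z hz
  obtain ⟨y, hy, -, rfl⟩ := (C.mem_sub _ _).1 hz
  exact C.o_mem_kap hy

lemma Ctx.isOrdinal_kap (C : Ctx B) : (C.kap T).IsOrdinal := by
  rw [ZFSet.isOrdinal_iff_forall_mem_isOrdinal]
  constructor
  · intro y hy z hz
    obtain ⟨y', -, rfl⟩ := (C.mem_kap _).1 hy
    obtain ⟨z', hz', -, rfl⟩ := (C.mem_o _ _).1 hz
    exact C.o_mem_kap hz'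
  · intro y hy
    obtain ⟨y', -, rfl⟩ := (C.mem_kap _).1 hy
    exact C.isOrdinal_o y'

lemma ev_omega (e : ℕ → T) (w : T) (he : ∀ n x, x < e n ↔ ∃ m < n, e m = x)
    (hw : ∀ x, x < w ↔ ∃ n, e n = x) : ∀ᶠ C in gen B, C.o w = ZFSet.omega := by
  filter_upwards [eventually_countable_forall.2 fun n => cl0 B (e n)] with C h
  have h1 : ∀ n, C.o (e n) = ZFSet.mk (PSet.ofNat n) := by
    intro n
    induction n with
    | zero =>
      ext z
      simp only [C.mem_o, he]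
      constructor
      · rintro ⟨_, _, ⟨_, h, _⟩, _⟩; omega
      · intro h; exact (ZFSet.notMem_empty z h).elim
    | succ n ih =>
      have : ZFSet.mk (PSet.ofNat (n + 1)) =
          insert (ZFSet.mk (PSet.ofNat n)) (ZFSet.mk (PSet.ofNat n)) := rfl
      rw [this, ← ih]
      ext z
      simp only [ZFSet.mem_insert_iff, C.mem_o, he]
      constructor
      · rintro ⟨_, hy, ⟨m, hm, rfl⟩, rfl⟩
        rcases Nat.lt_succ_iff_lt_or_eq.1 hm with hm | rfl
        · exact Or.inr ⟨_, hy, ⟨m, hm, rfl⟩, rfl⟩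
        · exact Or.inl rfl
      · rintro (rfl | ⟨_, hy, ⟨m, hm, rfl⟩, rfl⟩)
        · exact ⟨_, h n, ⟨n, by omega, rfl⟩, rfl⟩
        · exact ⟨_, hy, ⟨m, by omega, rfl⟩, rfl⟩
  ext z
  simp only [C.mem_o, hw]
  constructor
  · rintro ⟨_, -, ⟨n, rfl⟩, rfl⟩
    rw [h1]
    exact ZFSet.mk_mem_iff.2 ⟨⟨n⟩, PSet.Equiv.refl _⟩
  · intro hz
    induction z using Quotient.inductionOn with
    | _ z =>
      obtain ⟨⟨n⟩, hn⟩ := ZFSet.mk_mem_iff.1 hz
      exact ⟨_, h n, ⟨n, rfl⟩, (h1 n).trans (ZFSet.sound hn).symm⟩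

variable (B T) in
/-- truth lemma for: the pair of the ordinal `x` and `y` belongs to `f` -/
lemma ev_fv : ∀ᶠ C in gen B, ∀ f : Name B, C.In f → ∀ x : T, C.In x → ∀ y : Name B, C.In y →
    (bmem (op (on B x) y) f ∈ C.G ↔ ZFSet.pair (C.o x) (C.val y) ∈ C.val f) := by
  filter_upwards [ev_bmem B, ev_op B,
    cl2 B (S3 := fun _ _ => Name B) (fun (x : T) (y : Name B) => op (on B x) y)]
    with C h1 h2 h3 f hf x hx y hy
  rw [h1 _ (h3 x hx y hy) _ hf, h2]
  rfl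

variable (B T) in
lemma ev_on : ∀ᶠ C in gen B, ∀ x : T, C.In x → C.In (on B x) :=
  cl1 B (S2 := fun _ => Name B) (on B)

variable (B T) in
lemma ev_mem_on : ∀ᶠ C in gen B, ∀ f : Name B, C.In f → ∀ x : T, C.In x →
    (bmem (on B x) f ∈ C.G ↔ C.o x ∈ C.val f) := by
  filter_upwards [ev_bmem B, ev_on B T] with C h1 h2 f hf x hx
  exact h1 _ (h2 x hx) _ hf

end on

/-- A type equipped with some well-order. -/
def WO (T : Type u) : Type u := T

noncomputable instance (T : Type u) : LinearOrder (WO T) := (exists_wellFoundedLT T).choose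
instance (T : Type u) : WellFoundedLT (WO T) := (exists_wellFoundedLT T).choose_spec

variable (B) in
/-- pairwise distinct names for the elements of a type -/
noncomputable def pn {T : Type u} (t : T) : Name B := on B (T := WO T) t

lemma Ctx.pn_inj (C : Ctx B) {T : Type u} {x y : T} (hx : C.In x) (hy : C.In y)
    (h : C.val (pn B x) = C.val (pn B y)) : x = y :=
  C.o_inj (T := WO T) hx hy h

/-- Functions on a countable ordinal are captured by ground-model functions. -/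
lemma ev_capture {I K T : Type u} [LinearOrder K] [WellFoundedLT K] [Nonempty T]
    (nm : T → Name (BB I)) : ∀ᶠ C in gen (BB I), ∀ f : Name (BB I), C.In f → ∀ d : K, C.In d →
      (Iio d).Countable → ∃ h : K → T, C.In h ∧ ∀ ξ < d, C.In ξ → C.In (h ξ) ∧ ∀ t, C.In t →
        ZFSet.pair (C.o ξ) (C.val (nm t)) ∈ C.val f →
        ZFSet.pair (C.o ξ) (C.val (nm (h ξ))) ∈ C.val f := by
  filter_upwards [ev_fv (BB I) K, cl1 (BB I) (S2 := fun _ => Name (BB I)) nm,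
    cl2 (BB I) (S3 := fun _ _ => T) (fun (h : K → T) (ξ : K) => h ξ),
    dec2 (S3 := fun _ _ => K → T) (fun (f : Name (BB I)) (d : K) (h : K → T) =>
      ⨅ (ξ : K) (_ : ξ < d), (⨆ t, bmem (op (on _ ξ) (nm t)) f) ⇨
        bmem (op (on _ ξ) (nm (h ξ))) f)] with C h1 h2 h3 h4 f hf d hd hc
  obtain ⟨h, hh, hG⟩ := (h4 f hf d hd).of_top (by
    by_contra hne
    obtain ⟨b, k1, k2, k3⟩ := distrib_cnt hc
      (fun ξ b => ∃ t', b ≤ (⨆ t, bmem (op (on _ ξ) (nm t)) f) ⇨ bmem (op (on _ ξ) (nm t')) f)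
      (fun ξ b hb => by
        by_cases h0 : b ⊓ (⨆ t, bmem (op (on _ ξ) (nm t)) f) = ⊥
        · exact ⟨b, le_rfl, hb, Classical.arbitrary T, le_himp_iff.2 (h0 ▸ bot_le)⟩
        · obtain ⟨t, ht⟩ := exists_inf_ne_bot h0 inf_le_right
          exact ⟨_, inf_le_left.trans inf_le_left, ht, t, inf_le_right.trans le_himp⟩)
      (fun _ _ _ h ⟨t, h'⟩ => ⟨t, h.trans h'⟩) _ (compl_eq_bot.not.2 hne)
    choose! h hh using k3
    exact k2 (eq_bot_of_le_compl (le_iSup_of_le h (le_iInf₂ hh)) k1))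
  refine ⟨h, hh, fun ξ hξ hξ' => ⟨h3 h hh ξ hξ', fun t ht hp => ?_⟩⟩
  exact (h1 f hf ξ hξ' _ (h2 _ (h3 h hh ξ hξ'))).1
    (C.mp (C.of_inf (C.of_inf hG ξ) hξ) (C.sup_of t ((h1 f hf ξ hξ' _ (h2 t ht)).2 hp)))

lemma IsFunc_unique {x y f a b c : ZFSet.{0}} (h : ZFSet.IsFunc x y f)
    (h1 : ZFSet.pair a b ∈ f) (h2 : ZFSet.pair a c ∈ f) : b = c :=
  (h.2 a (ZFSet.pair_mem_prod.1 (h.1 h1)).1).unique h1 h2

end Pool.Agent.Lib.MP_446da5_lc.Full
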