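import Pool.Agent.Lib.MP_446da5_lc.Full.Ord

set_option autoImplicit false

open Filter Set

namespace Pool.Agent.Lib.MP_446da5_lc.Full

universe u v

open Name

/-- The data from which the model is built. -/
structure Setup (K : Type u) [LinearOrder K] [WellFoundedLT K] where
  U : Ultrafilter K
  cnt : CountableInterFilter (U : Filter K)
  unif : ∀ x : K, ∀ᶠ y : K in U, x < y
  norm : ∀ h : K → K, (∀ᶠ y in U, h y < y) → ∃ x, ∀ᶠ y in U, h y = x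
  g0 : K
  cnt_lt : ∀ x < g0, (Iic x).Countable
  unc : ¬ (Iio g0).Countable
  R : Set (K → Set K × Iio g0)
  reps : Reps U R

namespace Setup

variable {K : Type u} [LinearOrder K] [WellFoundedLT K] (s : Setup K)

abbrev Γ : Type u := Iio s.g0
abbrev B : Type u := BB (Set K × s.Γ)
abbrev P : Type u := Cond s.R

instance : CountableInterFilter (s.U : Filter K) := s.cnt

instance : Nonempty s.Γ := by
  by_contra h
  rw [not_nonempty_iff] at h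
  exact s.unc (Set.to_countable _)

lemma bound {S : Set K} (hS : S.Countable) (h : ∀ x ∈ S, x < s.g0) :
    ∃ β < s.g0, ∀ x ∈ S, x < β := by
  by_contra hn
  push Not at hn
  refine s.unc ((hS.biUnion fun x hx => s.cnt_lt x (h x hx)).mono fun β hβ => ?_)
  obtain ⟨x, hx, h'⟩ := hn β hβ
  exact mem_biUnion hx h'

lemma cnt_Iic (ξ : s.Γ) : (Iic ξ).Countable :=
  ((s.cnt_lt ξ.1 ξ.2).preimage Subtype.val_injective).mono fun _ h => h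

lemma bdd : Bdd s.Γ := fun ξ f => by
  obtain ⟨β, h1, h2⟩ := s.bound (((s.cnt_Iic ξ).image f).image Subtype.val)
    (by rintro _ ⟨x, -, rfl⟩; exact x.2)
  exact ⟨⟨β, h1⟩, fun ζ hζ => h2 _ ⟨_, ⟨ζ, hζ, rfl⟩, rfl⟩⟩

instance : NoMaxOrder s.Γ := ⟨fun ξ => by
  obtain ⟨δ, h⟩ := s.bdd ξ id
  exact ⟨δ, h ξ le_rfl⟩⟩

lemma unc_Ioi (δ : s.Γ) : ¬ (Ioi δ).Countable := fun h => by
  have h1 : (univ : Set s.Γ).Countable := by
    rw [← Iic_union_Ioi (a := δ)]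
    exact (s.cnt_Iic δ).union h
  exact s.unc (countable_coe_iff.1 (countable_univ_iff.1 h1))

lemma distrib : Distrib s.B s.Γ := fun ξ E h1 h2 b hb => distrib_cnt (s.cnt_Iic ξ) E h1 h2 b hb

lemma ev_regular_gamma : ∀ᶠ C in gen s.B, RegularIn C.N (C.o s.g0) := by
  filter_upwards [ev_capture (I := Set K × s.Γ) (K := K) (fun t : s.Γ => on s.B t.1),
    cl0 s.B (on s.B s.g0), cl1 s.B (S2 := fun _ => K) (fun t : s.Γ => t.1),
    sk1 s.B (S2 := fun _ => s.Γ) (fun (y : K) (t : s.Γ) => t.1 = y),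
    sk2 s.B (S3 := fun _ _ => K) (fun (h : K → s.Γ) (d : K) β =>
      β < s.g0 ∧ ∀ ξ < d, (h ξ).1 < β)] with C h1 h2 h3 h4 h5
  refine ⟨Ctx.val_mem_N h2, C.isOrdinal_o _, fun δ hδ => ?_⟩
  rintro _ ⟨f, hf, rfl⟩ hfun
  obtain ⟨d, hd, hdg, rfl⟩ := (C.mem_o _ _).1 hδ
  have hc : (Iio d).Countable := (s.cnt_lt d hdg).mono Iio_subset_Iic_self
  obtain ⟨h, hh, hcap⟩ := h1 f hf d hd hc
  obtain ⟨β, hβ, k1, k2⟩ := h5 h hh d hd (by
    obtain ⟨β, k1, k2⟩ := s.bound (hc.image fun ξ => (h ξ).1)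
      (by rintro _ ⟨x, -, rfl⟩; exact (h x).2)
    exact ⟨β, k1, fun ξ hξ => k2 _ ⟨ξ, hξ, rfl⟩⟩)
  refine ⟨_, C.o_mem_o_of_lt hβ k1, fun ξ y hp => ?_⟩
  obtain ⟨m1, m2⟩ := ZFSet.pair_mem_prod.1 (hfun.1 hp)
  obtain ⟨ξ, hξ, hξd, rfl⟩ := (C.mem_o _ _).1 m1
  obtain ⟨y, hy, hyg, rfl⟩ := (C.mem_o _ _).1 m2
  obtain ⟨t, ht, rfl⟩ := h4 y hy ⟨⟨y, hyg⟩, rfl⟩
  obtain ⟨j1, j2⟩ := hcap ξ hξd hξ
  rw [IsFunc_unique hfun hp (j2 t ht hp)]
  exact C.o_mem_o_of_lt (h3 _ j1) (k2 ξ hξd)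

lemma ev_regular_kappa : ∀ᶠ C in gen s.B, RegularIn C.N (C.kap K) := by
  filter_upwards [ev_fv s.B K, ev_on s.B K, cl0 s.B (sub fun _ : K => (⊤ : s.B)),
    dec2 (S3 := fun _ _ => K) (fun (f : Name s.B) (d : K) (β : K) =>
      ⨅ (ξ : K) (_ : ξ < d), (⨆ y : K, bmem (op (on _ ξ) (on _ y)) f) ⇨
        ⨆ y : K, tv _ (y < β) ⊓ bmem (op (on _ ξ) (on _ y)) f),
    dec3 (S4 := fun _ _ _ => K) (fun (f : Name s.B) (ξ β y : K) =>
      tv _ (y < β) ⊓ bmem (op (on _ ξ) (on _ y)) f)] with C h1 h2 h3 h4 h5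
  refine ⟨Ctx.val_mem_N h3, C.isOrdinal_kap, fun δ hδ => ?_⟩
  rintro _ ⟨f, hf, rfl⟩ hfun
  obtain ⟨d, hd, rfl⟩ := (C.mem_kap _).1 hδ
  obtain ⟨β, hβ, hG⟩ := (h4 f hf d hd).of_top (by
    by_contra hne
    have key : ∀ β : K, ∃ ξ < d, ∃ y : K, bmem (op (on s.B ξ) (on _ y)) f ⊓
        (⨆ y : K, tv _ (y < β) ⊓ bmem (op (on _ ξ) (on _ y)) f)ᶜ ≠ ⊥ := by
      intro β
      by_contra hn
      push Not at hn
      refine hne (top_le_iff.1 (le_iSup_of_le β (le_iInf₂ fun ξ hξ => ?_)))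
      rw [le_himp_iff, top_inf_eq]
      exact iSup_le fun y => disjoint_compl_right_iff.1 (disjoint_iff.2 (hn ξ hξ y))
    choose ξ hξ y hy using key
    obtain ⟨ξ0, h0⟩ := s.norm ξ ((s.unif d).mono fun β h => (hξ β).trans h)
    obtain ⟨β0, k1, k2⟩ := ((cc_of_reps s.reps _ hy).and h0).exists
    obtain ⟨β, ⟨j1, j2⟩, j3⟩ := ((k1.and h0).and (s.unif (y β0))).exists
    refine j1 (eq_bot_of_le_compl ?_ (inf_le_right.trans inf_le_right))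
    refine le_iSup_of_le (y β0) ?_
    rw [tv_pos j3, top_inf_eq, j2, ← k2]
    exact inf_le_left.trans inf_le_left)
  refine ⟨_, C.o_mem_kap hβ, fun ξ y hp => ?_⟩
  obtain ⟨m1, m2⟩ := ZFSet.pair_mem_prod.1 (hfun.1 hp)
  obtain ⟨ξ, hξ, hξd, rfl⟩ := (C.mem_o _ _).1 m1
  obtain ⟨y, hy, rfl⟩ := (C.mem_kap _).1 m2
  obtain ⟨y', hy', k⟩ := (h5 f hf ξ hξ β hβ).sup
    (C.mp (C.of_inf (C.of_inf hG ξ) hξd) (C.sup_of y ((h1 f hf ξ hξ _ (h2 y hy)).2 hp)))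
  rw [C.inf_iff, C.tv_mem] at k
  rw [IsFunc_unique hfun hp ((h1 f hf ξ hξ _ (h2 y' hy')).1 k.2)]
  exact C.o_mem_o_of_lt hy' k.1

end Setup

end Pool.Agent.Lib.MP_446da5_lc.Full
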