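import Pool.Agent.Lib.MP_446da5_lc.Full.Names

set_option autoImplicit false

open Filter Set

namespace Pool.Agent.Lib.MP_446da5_lc.Full

universe u v

open Name

variable {B : Type u} [CompleteBooleanAlgebra B]

instance : Countable Fm := by
  let f : Fm → ℕ := fun φ => Fm.rec (fun i j => Nat.pair 0 (Nat.pair i j))
    (fun i j => Nat.pair 1 (Nat.pair i j)) (Nat.pair 2 0)
    (fun _ _ a b => Nat.pair 3 (Nat.pair a b)) (fun _ a => Nat.pair 4 a) φ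
  refine Function.Injective.countable (f := f) ?_
  intro φ
  induction φ with
  | mem i j => intro ψ; cases ψ <;> simp [f, Nat.pair_eq_pair]
  | eq i j => intro ψ; cases ψ <;> simp [f, Nat.pair_eq_pair]
  | fls => intro ψ; cases ψ <;> simp [f, Nat.pair_eq_pair]
  | imp a b iha ihb =>
    intro ψ; cases ψ <;> simp only [f, Nat.pair_eq_pair] <;> simp
    exact fun h1 h2 => ⟨iha h1, ihb h2⟩
  | all a iha =>
    intro ψ; cases ψ <;> simp only [f, Nat.pair_eq_pair] <;> simp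
    exact fun h1 => iha h1

lemma iSup_least {S : Type v} (r : S → S → Prop) (hr : WellFounded r) (f : S → B) :
    ⨆ k, f k = ⨆ k, f k ⊓ ⨅ (k' : S) (_ : r k' k), (f k')ᶜ := by
  refine le_antisymm (iSup_le fun k => ?_) (iSup_mono fun _ => inf_le_left)
  induction k using hr.induction with
  | _ k ih =>
    have h : f k ≤ (f k ⊓ ⨅ (k' : S) (_ : r k' k), (f k')ᶜ) ⊔ ⨆ (k' : S) (_ : r k' k), f k' := by
      have : (⨅ (k' : S) (_ : r k' k), (f k')ᶜ) = (⨆ (k' : S) (_ : r k' k), f k')ᶜ := by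
        simp only [compl_iSup]
      rw [this, sup_inf_right, compl_sup_eq_top, inf_top_eq]
      exact le_sup_left
    exact h.trans (sup_le (le_iSup_of_le k le_rfl) (iSup₂_le ih))

variable (B)

lemma ev_trans : ∀ᶠ C in gen B, ∀ x ∈ C.N, ∀ y ∈ x, y ∈ C.N := by
  filter_upwards [ev_child B] with C h
  rintro _ ⟨x, hx, rfl⟩ y hy
  obtain ⟨i, hi, -, rfl⟩ := (C.mem_val _ _).1 hy
  exact Ctx.val_mem_N (h x hx i hi)

lemma ev_pairing : ∀ᶠ C in gen B, ∀ a ∈ C.N, ∀ b ∈ C.N, ({a, b} : ZFSet) ∈ C.N := by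
  filter_upwards [ev_upair B, cl2 B (S3 := fun _ _ => Name B) (fun x y : Name B => upair x y)]
    with C h h'
  rintro _ ⟨x, hx, rfl⟩ _ ⟨y, hy, rfl⟩
  exact ⟨_, h' x hx y hy, h x y⟩

variable {B} in
def Name.GC (x : Name B) : Type u := Σ i : x.ι, (x.A i).ι

variable {B} in
def Name.gc (x : Name B) (k : x.GC) : Name B := (x.A k.1).A k.2

lemma ev_union : ∀ᶠ C in gen B, ∀ a ∈ C.N, ZFSet.sUnion a ∈ C.N := by
  filter_upwards [cl1 B (S2 := fun _ => Name B) (fun x : Name B =>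
      Name.mk x.GC x.gc (fun k => x.b k.1 ⊓ (x.A k.1).b k.2)),
    cl2 B (S3 := fun (x : Name B) (_ : x.GC) => x.ι) (fun _ k => k.1),
    cl2 B (S3 := fun (x : Name B) (k : x.GC) => (x.A k.1).ι) (fun _ k => k.2),
    cl3 B (S4 := fun (x : Name B) (i : x.ι) (_ : (x.A i).ι) => x.GC) (fun _ i j => ⟨i, j⟩)]
    with C h h1 h2 h3
  rintro _ ⟨x, hx, rfl⟩
  refine ⟨_, h x hx, ?_⟩
  ext z
  simp only [Ctx.mem_val_mk, ZFSet.mem_sUnion, C.inf_iff]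
  constructor
  · rintro ⟨k, hk, ⟨hb1, hb2⟩, rfl⟩
    exact ⟨_, (C.mem_val _ _).2 ⟨k.1, h1 x hx k hk, hb1, rfl⟩,
      (C.mem_val _ _).2 ⟨k.2, h2 x hx k hk, hb2, rfl⟩⟩
  · rintro ⟨w, hw, hz⟩
    obtain ⟨i, hi, hb1, rfl⟩ := (C.mem_val _ _).1 hw
    obtain ⟨j, hj, hb2, rfl⟩ := (C.mem_val _ _).1 hz
    exact ⟨⟨i, j⟩, h3 x hx i hi j hj, ⟨hb1, hb2⟩, rfl⟩

lemma ev_power : ∀ᶠ C in gen B, ∀ a ∈ C.N, ∃ y ∈ C.N, ∀ z ∈ C.N, z ⊆ a → z ∈ y := by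
  filter_upwards [cl1 B (S2 := fun _ => Name B) (fun x : Name B =>
      Name.mk (x.ι → B) (fun f => Name.mk x.ι x.A f) (fun _ => ⊤)),
    cl2 B (S3 := fun (x : Name B) (_ : Name B) => x.ι → B)
      (fun x y i => x.b i ⊓ bmem (x.A i) y), ev_child B, ev_bmem B] with C h h1 hch hm
  rintro _ ⟨x, hx, rfl⟩
  refine ⟨_, Ctx.val_mem_N (h x hx), ?_⟩
  rintro _ ⟨y, hy, rfl⟩ hsub
  rw [Ctx.mem_val_mk]
  refine ⟨_, h1 x hx y hy, C.top_mem, ?_⟩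
  ext z
  simp only [Ctx.mem_val_mk, C.inf_iff]
  constructor
  · rintro ⟨i, hi, ⟨-, hb⟩, rfl⟩
    exact (hm _ (hch x hx i hi) _ hy).1 hb
  · intro hz
    obtain ⟨i, hi, hb, rfl⟩ := (C.mem_val _ _).1 (hsub hz)
    exact ⟨i, hi, ⟨hb, (hm _ (hch x hx i hi) _ hy).2 hz⟩, rfl⟩

lemma ev_sep : ∀ᶠ C in gen B, ∀ (φ : Fm) (v : List ZFSet), (∀ x ∈ v, x ∈ C.N) → ∀ a ∈ C.N,
    ZFSet.sep (fun x => Sat C.N φ (x :: v)) a ∈ C.N := by
  filter_upwards [eventually_countable_forall.2 fun φ : Fm =>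
      cl2 B (S3 := fun _ _ => Name B) (fun (x : Name B) (l : List (Name B)) =>
        Name.mk x.ι x.A (fun i => x.b i ⊓ bval φ (x.A i :: l))),
    ev_list B, ev_bval B, ev_cons B, ev_child B] with C h hl hv hc hch φ v hvN
  rintro _ ⟨x, hx, rfl⟩
  obtain ⟨l, hl, rfl⟩ := hl v hvN
  refine ⟨_, h φ x hx l hl.1, ?_⟩
  ext z
  simp only [Ctx.mem_val_mk, C.inf_iff, ZFSet.mem_sep]
  constructor
  · rintro ⟨i, hi, ⟨hb, hb'⟩, rfl⟩
    exact ⟨(C.mem_val _ _).2 ⟨i, hi, hb, rfl⟩, (hv φ _ (hc _ (hch x hx i hi) l hl)).1 hb'⟩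
  · rintro ⟨hz, hs⟩
    obtain ⟨i, hi, hb, rfl⟩ := (C.mem_val _ _).1 hz
    exact ⟨i, hi, ⟨hb, (hv φ _ (hc _ (hch x hx i hi) l hl)).2 hs⟩, rfl⟩

variable {B} in
open Classical in
noncomputable def collW (φ : Fm) (l : List (Name B)) (b : B) : Name B :=
  if h : ∃ y, bval φ (y :: l) = b then h.choose else empty

variable {B} in
lemma collW_spec (φ : Fm) (l : List (Name B)) (y : Name B) :
    bval φ (collW φ l (bval φ (y :: l)) :: l) = bval φ (y :: l) := by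
  have h : ∃ y', bval φ (y' :: l) = bval φ (y :: l) := ⟨y, rfl⟩
  rw [collW, dif_pos h]
  exact h.choose_spec

lemma ev_coll : ∀ᶠ C in gen B, ∀ (φ : Fm) (v : List ZFSet), (∀ x ∈ v, x ∈ C.N) → ∀ a ∈ C.N,
    (∀ x ∈ a, ∃ y ∈ C.N, Sat C.N φ (y :: x :: v)) →
      ∃ b ∈ C.N, ∀ x ∈ a, ∃ y ∈ b, Sat C.N φ (y :: x :: v) := by
  filter_upwards [eventually_countable_forall.2 fun φ : Fm =>
      cl2 B (S3 := fun _ _ => Name B) (fun (x : Name B) (l : List (Name B)) =>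
        Name.mk (x.ι × B) (fun k => collW φ (x.A k.1 :: l) k.2) (fun _ => ⊤)),
    eventually_countable_forall.2 fun φ : Fm =>
      cl1 B (S2 := fun _ => B) (fun l : List (Name B) => bval φ l),
    cl3 B (S4 := fun (x : Name B) (_ : x.ι) (_ : B) => x.ι × B) (fun _ i b => (i, b)),
    ev_list B, ev_bval B, ev_cons B, ev_child B] with C h hb hp hl hv hc hch φ v hvN
  rintro _ ⟨x, hx, rfl⟩ hall
  obtain ⟨l, hl, rfl⟩ := hl v hvN
  refine ⟨_, Ctx.val_mem_N (h φ x hx l hl.1), fun z hz => ?_⟩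
  obtain ⟨_, ⟨y, hy, rfl⟩, hs⟩ := hall z hz
  obtain ⟨i, hi, -, rfl⟩ := (C.mem_val _ _).1 hz
  have h1 := hc _ (hch x hx i hi) l hl
  have h2 := hc _ hy _ h1
  have h3 := hp x hx i hi _ (hb φ _ h2.1)
  have h4 := hch _ (h φ x hx l hl.1) _ h3
  refine ⟨_, (C.mem_val_mk _ _ _ _).2 ⟨_, h3, C.top_mem, rfl⟩, ?_⟩
  refine (hv φ _ (hc _ h4 _ h1)).1 ?_
  have := (hv φ _ h2).2 hs
  rw [← collW_spec] at this
  exact this

variable {B} in
noncomputable def chLab (x : Name B) (i : x.ι) (k : x.GC) : B :=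
  bmem (x.gc k) (x.A i) ⊓ ⨅ (k' : x.GC) (_ : WellOrderingRel k' k), (bmem (x.gc k') (x.A i))ᶜ

lemma ev_choice : ∀ᶠ C in gen B, ∀ a ∈ C.N, ∅ ∉ a → ∃ f ∈ C.N, ∀ x ∈ a,
    (∃! y, ZFSet.pair x y ∈ f) ∧ ∀ y, ZFSet.pair x y ∈ f → y ∈ x := by
  filter_upwards [cl1 B (S2 := fun _ => Name B) (fun x : Name B =>
      Name.mk (x.ι × x.GC) (fun k => op (x.A k.1) (x.gc k.2)) (fun k => chLab x k.1 k.2)),
    dec2 (S3 := fun (x : Name B) (_ : x.ι) => x.GC) (fun x i k => chLab x i k),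
    cl3 B (S4 := fun (x : Name B) (_ : x.ι) (_ : x.GC) => x.ι × x.GC) (fun _ i k => (i, k)),
    cl2 B (S3 := fun (x : Name B) (_ : x.ι × x.GC) => Name B) (fun x k => x.A k.1),
    cl2 B (S3 := fun (x : Name B) (_ : x.ι × x.GC) => Name B) (fun x k => x.gc k.2),
    ev_op B, ev_bmem B] with C h hd hp h1 h2 hop hm
  rintro _ ⟨x, hx, rfl⟩ hne
  refine ⟨_, Ctx.val_mem_N (h x hx), fun z hz => ?_⟩
  have key : ∀ y, ZFSet.pair z y ∈ C.val (Name.mk (x.ι × x.GC)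
      (fun k => op (x.A k.1) (x.gc k.2)) (fun k => chLab x k.1 k.2)) →
      ∃ k : x.ι × x.GC, C.In k ∧ chLab x k.1 k.2 ∈ C.G ∧ C.val (x.A k.1) = z ∧
        C.val (x.gc k.2) = y := by
    intro y hy
    obtain ⟨k, hk, hb, he⟩ := (C.mem_val_mk _ _ _ _).1 hy
    rw [hop, ZFSet.pair_inj] at he
    exact ⟨k, hk, hb, he⟩
  have hmem : ∀ k : x.ι × x.GC, C.In k → chLab x k.1 k.2 ∈ C.G →
      C.val (x.gc k.2) ∈ C.val (x.A k.1) := fun k hk hb =>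
    (hm _ (h2 x hx k hk) _ (h1 x hx k hk)).1 (C.inf_iff.1 hb).1
  refine ⟨?_, fun y hy => ?_⟩
  · obtain ⟨i, hi, -, rfl⟩ := (C.mem_val _ _).1 hz
    have hz0 : C.val (x.A i) ≠ ∅ := fun h0 => hne (h0 ▸ hz)
    obtain ⟨w, hw⟩ := (ZFSet.eq_empty_or_nonempty _).resolve_left hz0
    obtain ⟨j, hj, hbj, -⟩ := (C.mem_val _ _).1 hw
    have hs : ⨆ k, chLab x i k ∈ C.G := by
      unfold chLab
      rw [← iSup_least _ (IsWellFounded.wf (r := WellOrderingRel))]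
      exact C.sup_of (⟨i, j⟩ : x.GC) (C.up hbj (b_le_bmem _ j))
    obtain ⟨k, hk, hb⟩ := (hd x hx i hi).sup hs
    refine existsUnique_of_exists_of_unique ⟨C.val (x.gc k), (C.mem_val_mk _ _ _ _).2
      ⟨(i, k), hp x hx i hi k hk, hb, hop _ _⟩⟩ fun y1 y2 hy1 hy2 => ?_
    obtain ⟨k1, hk1, hb1, he1, rfl⟩ := key y1 hy1
    obtain ⟨k2, hk2, hb2, he2, rfl⟩ := key y2 hy2
    have aux : ∀ k1 k2 : x.ι × x.GC, C.In k1 → C.In k2 → chLab x k1.1 k1.2 ∈ C.G →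
        chLab x k2.1 k2.2 ∈ C.G → C.val (x.A k1.1) = C.val (x.A k2.1) →
        ¬ WellOrderingRel k1.2 k2.2 := by
      intro k1 k2 hk1 hk2 hb1 hb2 he hlt
      have h3 := hmem k1 hk1 hb1
      rw [he] at h3
      exact C.not_both ((hm _ (h2 x hx k1 hk1) _ (h1 x hx k2 hk2)).2 h3)
        (C.of_inf (C.of_inf (C.inf_iff.1 hb2).2 k1.2) hlt)
    rcases trichotomous_of WellOrderingRel k1.2 k2.2 with hlt | heq | hlt
    · exact (aux k1 k2 hk1 hk2 hb1 hb2 (he1.trans he2.symm) hlt).elim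
    · rw [heq]
    · exact (aux k2 k1 hk2 hk1 hb2 hb1 (he2.trans he1.symm) hlt).elim
  · obtain ⟨k, hk, hb, rfl, rfl⟩ := key y hy
    exact hmem k hk hb

theorem ev_model : ∀ᶠ C in gen B, ZFSet.omega ∈ C.N → IsModel C.N := by
  filter_upwards [ev_trans B, ev_pairing B, ev_union B, ev_power B, ev_sep B, ev_coll B,
    ev_choice B] with C h1 h2 h3 h4 h5 h6 h7 h0
  exact ⟨h1, h0, h2, h3, h4, h5, h6, h7⟩

end Pool.Agent.Lib.MP_446da5_lc.Full
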